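import Pool.Agent.TH800.AI.Win
import Pool.Agent.TH800.AH.Gw

/-! Comparison of the increments in space and in the index. -/

open Complex Filter Topology Set MeasureTheory

namespace Pool.Agent.TH800.AI

open AH H177.Lat H370.A2
open SG (ord NZ)

/-- increments in the index -/
noncomputable def Dn (s : ℕ → ℝ) (r L n : ℕ) : ℝ :=
  BB s ((r + 1) * L) n - BB s (r * L) n - BB s L n

/-- step functions -/
noncomputable def stp (y : ℕ → ℝ) (a b : ℕ) (f : ℕ → ℝ) (x : ℝ) : ℝ :=
  ∑ n ∈ Finset.Ico (a + 1) b, (Set.Ico (y n) (y (n + 1))).indicator (fun _ => f n) x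

lemma stp_int (y : ℕ → ℝ) (a b : ℕ) (f : ℕ → ℝ) : Integrable (stp y a b f) :=
  integrable_finsetSum _ fun _ _ => ind_ico_int _ _ _

lemma stp_sq (a b : ℕ) (y f : ℕ → ℝ) (hab : a < b)
    (hy : ∀ n m, a + 1 ≤ n → n ≤ m → m ≤ b → y n ≤ y m) :
    Integrable (fun x => stp y a b f x ^ 2) ∧ ∫ x, stp y a b f x ^ 2 =
      ∑ n ∈ Finset.Ico (a + 1) b, (y (n + 1) - y n) * f n ^ 2 := by
  have e1 : (fun x => stp y a b f x ^ 2) = fun x => ∑ n ∈ Finset.Ico (a + 1) b,
      (Set.Ico (y n) (y (n + 1))).indicator (fun _ => f n ^ 2) x := by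
    funext x
    by_cases hx : y (a + 1) ≤ x ∧ x < y b
    · obtain ⟨n, hn, g1, g2⟩ := find_n a b y x hab hx.1 hx.2
      unfold stp
      rw [gg_in a b y hy x n hn g1 g2 f,
        gg_in a b y hy x n hn g1 g2 (fun n => f n ^ 2)]
    · have hx' : x < y (a + 1) ∨ y b ≤ x := by
        by_contra hcon
        push Not at hcon
        exact hx hcon
      unfold stp
      rw [gg_out a b y hy x hx' f, gg_out a b y hy x hx' (fun n => f n ^ 2)]
      norm_num
  rw [e1]
  refine ⟨integrable_finsetSum _ fun n _ => ind_ico_int _ _ _, ?_⟩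
  rw [integral_finsetSum _ fun n _ => ind_ico_int _ _ _]
  refine Finset.sum_congr rfl fun n hn => ?_
  rw [Finset.mem_Ico] at hn
  rw [integral_indicator measurableSet_Ico, setIntegral_const, smul_eq_mul,
    Real.volume_real_Ico_of_le (hy n (n + 1) hn.1 (by omega) (by omega))]

/-- the error for one length -/
noncomputable def Er (a b L : ℕ) (y : ℕ → ℝ) (α β : ℝ) : ℝ :=
  8 * (∫ x, (hh (Finset.Ioc a b) (fun _ => 1) y L x -
        (Set.Ico (α - L) β).indicator (fun _ => (L : ℝ)) x) ^ 2) +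
        8 * (L : ℝ) ^ 2 * (y (a + 1) - α + L)

lemma err (a b L : ℕ) (s y : ℕ → ℝ) (hs : ∀ n, |s n| ≤ 2) (hab : a < b)
    (hy : ∀ n m, a + 1 ≤ n → n ≤ m → m ≤ b → y n ≤ y m) (α β : ℝ) (h1 : α ≤ y (a + 1))
    (h2 : y b ≤ β) :
    Integrable (fun x => (hh (Finset.Ioc a b) s y L x - gg s y L a b x) ^ 2) ∧
    ∫ x, (hh (Finset.Ioc a b) s y L x - gg s y L a b x) ^ 2 ≤ Er a b L y α β := by
  have hL0 : (0 : ℝ) ≤ L := Nat.cast_nonneg L
  set c : ℝ → ℝ := hh (Finset.Ioc a b) (fun _ => 1) y L with hc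
  set J := Set.Ico (α - L) β with hJ
  have hci : Integrable c := hh_int _ _ _ _
  have hJi : Integrable (J.indicator (fun _ => (L : ℝ))) := ind_ico_int _ _ _
  have hcb : ∀ x, |c x - J.indicator (fun _ => (L : ℝ)) x| ≤ (Finset.Ioc a b).card + L := by
    intro x
    refine (abs_sub _ _).trans (add_le_add ?_ ?_)
    · rw [hc]
      unfold hh
      refine (Finset.abs_sum_le_sum_abs _ _).trans ?_
      refine (Finset.sum_le_sum (g := fun _ => (1 : ℝ)) fun n _ => ?_).trans (by simp)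
      by_cases h : x ∈ Set.Ico (y n - L) (y n)
      · rw [Set.indicator_of_mem h]; norm_num
      · rw [Set.indicator_of_notMem h]; norm_num
    · by_cases h : x ∈ J
      · rw [Set.indicator_of_mem h, abs_of_nonneg hL0]
      · rw [Set.indicator_of_notMem h]; simp
  have hdi : Integrable (fun x => (c x - J.indicator (fun _ => (L : ℝ)) x) ^ 2) := by
    have h3 := (hci.sub hJi).bdd_mul (c := (Finset.Ioc a b).card + L)
      (hci.sub hJi).aestronglyMeasurable (Filter.Eventually.of_forall fun x => by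
        rw [Real.norm_eq_abs]; exact hcb x)
    refine h3.congr (Filter.Eventually.of_forall fun x => ?_)
    simp only [Pi.sub_apply, sq]
  have hEi : Integrable ((Set.Ico (α - L) (y (a + 1))).indicator (fun _ => 8 * (L : ℝ) ^ 2)) :=
    ind_ico_int _ _ _
  have hEv : ∫ x, (Set.Ico (α - L) (y (a + 1))).indicator (fun _ => 8 * (L : ℝ) ^ 2) x =
      8 * (L : ℝ) ^ 2 * (y (a + 1) - α + L) := by
    rw [integral_indicator measurableSet_Ico, setIntegral_const, smul_eq_mul,
      Real.volume_real_Ico_of_le (by linarith)]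
    ring
  have hi2 : Integrable (fun x => 8 * (c x - J.indicator (fun _ => (L : ℝ)) x) ^ 2 +
      (Set.Ico (α - L) (y (a + 1))).indicator (fun _ => 8 * (L : ℝ) ^ 2) x) :=
    (hdi.const_mul 8).add hEi
  have hgi : Integrable (gg s y L a b) := integrable_finsetSum _ fun _ _ => ind_ico_int _ _ _
  have hpt := cmp_all a b L s y hs hab hy α β h1 h2
  have hint : Integrable (fun x => (hh (Finset.Ioc a b) s y L x - gg s y L a b x) ^ 2) := by
    refine hi2.mono' (((hh_int _ _ _ _).sub hgi).aestronglyMeasurable.pow 2)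
      (Filter.Eventually.of_forall fun x => ?_)
    rw [Real.norm_eq_abs]
    have : |(hh (Finset.Ioc a b) s y L x - gg s y L a b x) ^ 2| =
        (hh (Finset.Ioc a b) s y L x - gg s y L a b x) ^ 2 := abs_of_nonneg (sq_nonneg _)
    exact this.le.trans (hpt x)
  refine ⟨hint, ?_⟩
  have h3 := integral_mono hint hi2 hpt
  rw [integral_add (hdi.const_mul 8) hEi, integral_const_mul, hEv] at h3
  exact h3

/-- the two-sided comparison -/
theorem cmpD (a b r L : ℕ) (s y : ℕ → ℝ) (hs : ∀ n, |s n| ≤ 2) (hab : a < b)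
    (hy : ∀ n m, a + 1 ≤ n → n ≤ m → m ≤ b → y n ≤ y m) (α β : ℝ) (h1 : α ≤ y (a + 1))
    (h2 : y b ≤ β) (δ : ℝ) (hδ : 0 < δ) :
    ∫ x, dd (Finset.Ioc a b) s y r L x ^ 2 ≤
      (1 + δ) * ∑ n ∈ Finset.Ico (a + 1) b, (y (n + 1) - y n) * Dn s r L (n + 1) ^ 2 +
      (1 + 1 / δ) * (3 * (Er a b ((r + 1) * L) y α β + Er a b (r * L) y α β + Er a b L y α β)) ∧
    ∑ n ∈ Finset.Ico (a + 1) b, (y (n + 1) - y n) * Dn s r L (n + 1) ^ 2 ≤
      (1 + δ) * (∫ x, dd (Finset.Ioc a b) s y r L x ^ 2) +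
      (1 + 1 / δ) * (3 * (Er a b ((r + 1) * L) y α β + Er a b (r * L) y α β + Er a b L y α β)) := by
  obtain ⟨hg, hgv⟩ := stp_sq a b y (fun n => Dn s r L (n + 1)) hab hy
  rw [← hgv]
  set G := stp y a b (fun n => Dn s r L (n + 1)) with hG
  set I := Finset.Ioc a b with hI
  have hGe : ∀ x, G x = gg s y ((r + 1) * L) a b x - gg s y (r * L) a b x - gg s y L a b x := by
    intro x
    rw [hG]
    unfold stp gg Dn
    rw [← Finset.sum_sub_distrib, ← Finset.sum_sub_distrib]
    refine Finset.sum_congr rfl fun n _ => ?_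
    by_cases h : x ∈ Set.Ico (y n) (y (n + 1))
    · simp only [Set.indicator_of_mem h]
    · simp only [Set.indicator_of_notMem h]; ring
  obtain ⟨i1, v1⟩ := err a b ((r + 1) * L) s y hs hab hy α β h1 h2
  obtain ⟨i2, v2⟩ := err a b (r * L) s y hs hab hy α β h1 h2
  obtain ⟨i3, v3⟩ := err a b L s y hs hab hy α β h1 h2
  have hdde : ∀ x, dd I s y r L x = hh I s y (((r + 1) * L : ℕ) : ℝ) x -
      hh I s y ((r * L : ℕ) : ℝ) x - hh I s y L x := by
    intro x
    unfold dd
    push_cast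
    rfl
  set A1 : ℝ → ℝ := fun x => (hh I s y (((r + 1) * L : ℕ) : ℝ) x - gg s y ((r + 1) * L) a b x) ^ 2
  set A2 : ℝ → ℝ := fun x => (hh I s y ((r * L : ℕ) : ℝ) x - gg s y (r * L) a b x) ^ 2
  set A3 : ℝ → ℝ := fun x => (hh I s y L x - gg s y L a b x) ^ 2
  have hA : Integrable (fun x => 3 * ((A1 x + A2 x) + A3 x)) := ((i1.add i2).add i3).const_mul 3
  have hpt : ∀ x, (dd I s y r L x - G x) ^ 2 ≤ 3 * ((A1 x + A2 x) + A3 x) := by
    intro x
    rw [hdde, hGe]
    simp only [A1, A2, A3]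
    set p := hh I s y (((r + 1) * L : ℕ) : ℝ) x
    set q := hh I s y ((r * L : ℕ) : ℝ) x
    set u := hh I s y L x
    set p' := gg s y ((r + 1) * L) a b x
    set q' := gg s y (r * L) a b x
    set u' := gg s y L a b x
    nlinarith [sq_nonneg ((p - p') + (q - q')), sq_nonneg ((p - p') + (u - u')),
      sq_nonneg ((q - q') - (u - u'))]
  have hdd := dd_sq_int I s y r L
  have hGi : Integrable G := stp_int _ _ _ _
  have hE : Integrable (fun x => (dd I s y r L x - G x) ^ 2) := by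
    refine hA.mono' (((dd_int I s y r L).sub hGi).aestronglyMeasurable.pow 2)
      (Filter.Eventually.of_forall fun x => ?_)
    rw [Real.norm_eq_abs]
    have : |(dd I s y r L x - G x) ^ 2| = (dd I s y r L x - G x) ^ 2 :=
      abs_of_nonneg (sq_nonneg _)
    exact this.le.trans (hpt x)
  have hEv : ∫ x, (dd I s y r L x - G x) ^ 2 ≤
      3 * (Er a b ((r + 1) * L) y α β + Er a b (r * L) y α β + Er a b L y α β) := by
    have h3 := integral_mono hE hA hpt
    have hA12 : Integrable (fun x => A1 x + A2 x) := i1.add i2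
    rw [integral_const_mul, integral_add hA12 i3, integral_add i1 i2] at h3
    refine h3.trans ?_
    apply mul_le_mul_of_nonneg_left _ (by norm_num)
    exact add_le_add (add_le_add v1 v2) v3
  have h5 : 0 ≤ 1 + 1 / δ := by positivity
  have key : ∀ f g : ℝ → ℝ, Integrable (fun x => f x ^ 2) → Integrable (fun x => g x ^ 2) →
      Integrable (fun x => (f x - g x) ^ 2) →
      ∫ x, f x ^ 2 ≤ (1 + δ) * (∫ x, g x ^ 2) + (1 + 1 / δ) * ∫ x, (f x - g x) ^ 2 := by
    intro f g hf hg hfg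
    rw [← integral_const_mul, ← integral_const_mul,
      ← integral_add (hg.const_mul _) (hfg.const_mul _)]
    refine integral_mono hf ((hg.const_mul _).add (hfg.const_mul _)) fun x => ?_
    show f x ^ 2 ≤ (1 + δ) * g x ^ 2 + (1 + 1 / δ) * (f x - g x) ^ 2
    set A := f x
    set B := g x
    have h5 : 0 ≤ (δ * B - (A - B)) ^ 2 / δ := by positivity
    have h6 : (δ * B - (A - B)) ^ 2 / δ = δ * B ^ 2 - 2 * (B * (A - B)) + 1 / δ * (A - B) ^ 2 := by
      field_simp
      ring
    have h7 : A ^ 2 = B ^ 2 + 2 * (B * (A - B)) + (A - B) ^ 2 := by ring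
    linarith
  constructor
  · refine (key (dd I s y r L) G hdd hg hE).trans ?_
    have := mul_le_mul_of_nonneg_left hEv h5
    linarith
  · have hE' : Integrable (fun x => (G x - dd I s y r L x) ^ 2) := by
      refine hE.congr (Filter.Eventually.of_forall fun x => ?_)
      show (dd I s y r L x - G x) ^ 2 = (G x - dd I s y r L x) ^ 2
      ring
    refine (key G (dd I s y r L) hg hdd hE').trans ?_
    have e1 : ∫ x, (G x - dd I s y r L x) ^ 2 = ∫ x, (dd I s y r L x - G x) ^ 2 := by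
      apply integral_congr_ae
      refine Filter.Eventually.of_forall fun x => ?_
      show (G x - dd I s y r L x) ^ 2 = (dd I s y r L x - G x) ^ 2
      ring
    rw [e1]
    have := mul_le_mul_of_nonneg_left hEv h5
    linarith

lemma Bad_mono (a b : ℕ) {ε ε' : ℝ} (h : ε ≤ ε') (v : ℕ → ℝ) :
    (Bad a b 1 ε' v).card ≤ (Bad a b 1 ε v).card := by
  apply Finset.card_le_card
  intro j hj
  rw [Bad, Finset.mem_filter] at hj ⊢
  exact ⟨hj.1, hj.2.1, h.trans_lt hj.2.2⟩

end Pool.Agent.TH800.AI
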