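import Pool.Agent.TH800.AI.RcD

/-! The first `N` zeros. -/

open Complex Filter Topology Set MeasureTheory

namespace Pool.Agent.TH800.AI

open AH H177.Lat H370.A2
open SG (ord NZ)

/-- lower bound for the number of zeros -/
lemma NZ_lo (η : ℝ) (hη : 0 < η) : ∃ Y1 : ℝ, 100 ≤ Y1 ∧ ∀ y : ℝ, Y1 ≤ y →
    (1 - η) * ff y ≤ (NZ y : ℝ) := by
  obtain ⟨C, T0, hC, hT0, h⟩ := NZ_C
  have hpi := Real.pi_pos
  have hpi4 := Real.pi_lt_four
  obtain ⟨T2, hT2⟩ := (Real.tendsto_log_atTop.eventually_ge_atTop (8 * C / η)).exists_forall_of_atTop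
  refine ⟨max 100 (max T0 T2), le_max_left _ _, fun y hy => ?_⟩
  have hy100 : 100 ≤ y := (le_max_left _ _).trans hy
  have hyT0 : T0 ≤ y := ((le_max_left _ _).trans (le_max_right _ _)).trans hy
  have hyT2 := hT2 y (((le_max_right _ _).trans (le_max_right _ _)).trans hy)
  have h1 := (abs_le.1 (h y hyT0)).1
  rw [div_le_iff₀ hη] at hyT2
  have hy0 : 0 < y := by linarith
  have h2 : C * y ≤ η * ff y := by
    unfold ff
    rw [← mul_div_assoc, le_div_iff₀ (by positivity)]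
    have q2 : C * y * (2 * Real.pi) ≤ C * y * 8 := by
      apply mul_le_mul_of_nonneg_left (by linarith) (by positivity)
    have q3 := mul_le_mul_of_nonneg_right hyT2 hy0.le
    linarith
  linarith

lemma fin_aux {L d η f N P S R : ℝ} (hL : 1 ≤ L) (hd : 0 < d) (hη0 : 0 < η)
    (hη : η * (10 * L) = d) (hη1 : η ≤ 1 / 10) (hf : 0 < f) (hNu : N ≤ (1 + η) * f)
    (hPN : P ≤ N) (hP : (1 - η) * f ≤ P) (hS : |S - 2 * L * f| ≤ 51 * d * L * f)
    (hR0 : 0 ≤ R) (hR : R ≤ 4 * L ^ 2 * (N - P)) :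
    |S + R - 2 * L * N| < 100 * d * L * N := by
  have hL0 : 0 < L := by linarith
  have a1 : N - P ≤ 2 * η * f := by linarith
  have a2 : R ≤ d * L * f := by
    have h1 := mul_le_mul_of_nonneg_left a1 (by positivity : (0 : ℝ) ≤ 4 * L ^ 2)
    have h2 : 4 * L ^ 2 * (2 * η * f) = 8 / 10 * (η * (10 * L)) * L * f := by ring
    rw [h2, hη] at h1
    have h3 : 0 ≤ d * L * f := by positivity
    linarith
  have a3 : 2 * L * (N - f) ≤ d * L * f := by
    have h1 : N - f ≤ η * f := by linarith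
    have h2 := mul_le_mul_of_nonneg_left h1 (by positivity : (0 : ℝ) ≤ 2 * L)
    have h3 : 2 * L * (η * f) = 2 / 10 * (η * (10 * L)) * f := by ring
    rw [h3, hη] at h2
    have h4 : d * f ≤ d * L * f := by
      have : 0 < d * f := by positivity
      nlinarith
    have h5 : 0 < d * f := by positivity
    linarith
  have a4 : -(d * L * f) ≤ 2 * L * (N - f) := by
    have h1 : -(η * f) ≤ N - f := by linarith
    have h2 := mul_le_mul_of_nonneg_left h1 (by positivity : (0 : ℝ) ≤ 2 * L)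
    have h3 : 2 * L * -(η * f) = -(2 / 10 * (η * (10 * L)) * f) := by ring
    rw [h3, hη] at h2
    have h4 : d * f ≤ d * L * f := by
      have : 0 < d * f := by positivity
      nlinarith
    have h5 : 0 < d * f := by positivity
    linarith
  have a5 : 9 / 10 * f ≤ N := by
    have : (1 - 1 / 10) * f ≤ (1 - η) * f := mul_le_mul_of_nonneg_right (by linarith) hf.le
    linarith
  have a6 : 9 / 10 * (d * L * f) ≤ d * L * N := by
    have := mul_le_mul_of_nonneg_left a5 (by positivity : (0 : ℝ) ≤ d * L)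
    linarith
  have a7 : 0 < d * L * f := by positivity
  obtain ⟨b1, b2⟩ := abs_le.1 hS
  rw [abs_lt]
  constructor <;> linarith

/-- the main theorem -/
theorem mainD (hRH : RiemannHypothesis) (r : ℕ) (hr : 1 ≤ r) (δ : ℝ) (hδ : 0 < δ) (hδ1 : δ ≤ 1) :
    ∃ L0 : ℕ, 8 ≤ L0 ∧ ∀ L : ℕ, L0 ≤ L → ∃ ε : ℝ, 0 < ε ∧ ∃ N0 : ℕ, ∀ N : ℕ, N0 ≤ N →
      ∀ σ : ℕ → ℝ, Sg σ →
        δ * L * N ≤ |∑ n ∈ Finset.Icc 1 N, Dn σ r L n ^ 2 - 2 * L * N| →
        ε * N ≤ ({n : ℕ | 1 ≤ n ∧ n ≤ N ∧ Ex σ ε n}.ncard : ℝ) := by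
  set d : ℝ := δ / 100 with hd
  have hd0 : 0 < d := by positivity
  have hd1 : d ≤ 1 / 20 := by linarith
  obtain ⟨L0, hL0, hrec⟩ := recD hRH r hr d hd0 hd1
  refine ⟨L0, hL0, fun L hL => ?_⟩
  have hL8 : (8 : ℝ) ≤ L := by exact_mod_cast hL0.trans hL
  -- the number of steps
  obtain ⟨k, hk⟩ : ∃ k : ℕ, (9 / 10 : ℝ) ^ k < d / (10 * L) :=
    exists_pow_lt_of_lt_one (by positivity) (by norm_num)
  obtain ⟨c, hc, Y0, hY0, hmain⟩ := hrec L hL k
  set η : ℝ := d / (10 * L) with hη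
  have hη0 : 0 < η := by positivity
  have hηL : η * (10 * L) = d := by rw [hη]; field_simp
  have hη1 : η ≤ 1 / 10 := by
    rw [hη, div_le_iff₀ (by positivity)]
    linarith
  obtain ⟨Y1, hY1, hNZ⟩ := NZ_up η hη0 (by linarith)
  obtain ⟨Y2, hY2, hNL⟩ := NZ_lo η hη0
  set ε : ℝ := min c (c / 2) with hε
  have hε0 : 0 < ε := lt_min hc (by positivity)
  have hεc : ε ≤ c := min_le_left _ _
  set B := max Y0 (max Y1 Y2) with hB
  refine ⟨ε, hε0, NZ (B + 1), fun N hN σ hσ hvar => ?_⟩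
  set Y : ℝ := ord (N + 1) - 1 with hY
  have hYbig : B < Y := by
    have h1 : B + 1 < ord (N + 1) := by
      by_contra hcon
      push Not at hcon
      have := (SG.ord_le_iff (by omega : 1 ≤ N + 1) _).mp hcon
      omega
    rw [hY]
    linarith
  have hYY0 : Y0 ≤ Y := (le_max_left _ _).trans hYbig.le
  have hYY1 : Y1 ≤ Y := ((le_max_left _ _).trans (le_max_right _ _)).trans hYbig.le
  have hYY2 : Y2 ≤ Y := ((le_max_right _ _).trans (le_max_right _ _)).trans hYbig.le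
  have hNZY : NZ Y ≤ N := by
    by_contra hcon
    push Not at hcon
    have h1 := (SG.ord_le_iff (by omega : 1 ≤ N + 1) Y).mpr hcon
    rw [hY] at h1
    linarith
  have hNup : (N : ℝ) ≤ (1 + η) * ff Y := by
    have h1 : N + 1 ≤ NZ (Y + 1) := by
      have h2 := SG.le_NZ_ord (n := N + 1) (by omega)
      have h3 : Y + 1 = ord (N + 1) := by rw [hY]; ring
      rw [h3]
      exact h2
    have h2 : (N : ℝ) ≤ NZ (Y + 1) := by
      have : N ≤ NZ (Y + 1) := by omega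
      exact_mod_cast this
    exact h2.trans (hNZ Y hYY1)
  have hNlo := hNL Y hYY2
  have hpi := Real.pi_gt_three
  have hY100 : 100 ≤ Y := hY0.trans hYY0
  have hlY : 0 < Real.log Y := Real.log_pos (by linarith)
  have hf0 : 0 < ff Y := by unfold ff; positivity
  rcases hmain Y hYY0 σ hσ with hb | hb
  · have h1 : EY σ c Y ≤ ({n : ℕ | 1 ≤ n ∧ n ≤ N ∧ Ex σ ε n}.ncard : ℝ) := by
      unfold EY
      have hsub : {n : ℕ | 1 ≤ n ∧ ord n ≤ Y ∧ Ex σ c n} ⊆ {n : ℕ | 1 ≤ n ∧ n ≤ N ∧ Ex σ ε n} := by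
        rintro n ⟨g1, g2, g3⟩
        exact ⟨g1, ((SG.ord_le_iff g1 _).mp g2).trans hNZY, Ex_anti hεc g3⟩
      have hfin : {n : ℕ | 1 ≤ n ∧ n ≤ N ∧ Ex σ ε n}.Finite :=
        (Set.finite_Iic N).subset fun n hn => hn.2.1
      exact_mod_cast Set.ncard_le_ncard hsub hfin
    refine le_trans ?_ (hb.trans h1)
    have h2 : (N : ℝ) ≤ Y * Real.log Y := by
      refine hNup.trans ?_
      have h3 : ff Y ≤ Y * Real.log Y / 2 := by
        unfold ff
        apply div_le_div_of_nonneg_left (by positivity) (by norm_num)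
        linarith
      have h4 : (1 + η) * ff Y ≤ 2 * (Y * Real.log Y / 2) := by
        apply mul_le_mul (by linarith) h3 hf0.le (by norm_num)
      linarith
    exact mul_le_mul hεc h2 (Nat.cast_nonneg _) hc.le
  · exfalso
    have hθ : ((9 / 10 : ℝ) ^ k * (10 * (L : ℝ) ^ 2) + 50 * d * L) * ff Y ≤ 51 * d * L * ff Y := by
      apply mul_le_mul_of_nonneg_right _ hf0.le
      have h1 := mul_le_mul_of_nonneg_right hk.le (by positivity : (0 : ℝ) ≤ 10 * (L : ℝ) ^ 2)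
      have h2 : η * (10 * (L : ℝ) ^ 2) = (η * (10 * L)) * L := by ring
      rw [h2, hηL] at h1
      linarith
    have e0 : ∀ m : ℕ, Finset.Icc 1 m = Finset.Ioc 0 m := by
      intro m; ext n; rw [Finset.mem_Icc, Finset.mem_Ioc]; omega
    have hsp : ∑ n ∈ Finset.Icc 1 N, Dn σ r L n ^ 2 = SD σ r L Y +
        ∑ n ∈ Finset.Ioc (NZ Y) N, Dn σ r L n ^ 2 := by
      unfold SD
      rw [e0, e0, Finset.sum_Ioc_consecutive _ (Nat.zero_le _) hNZY]
    have hlt := fin_aux (by linarith : (1 : ℝ) ≤ L) hd0 hη0 hηL hη1 hf0 hNup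
      (by exact_mod_cast hNZY : ((NZ Y : ℕ) : ℝ) ≤ N) hNlo (hb.trans hθ)
      (Finset.sum_nonneg fun n _ => sq_nonneg (Dn σ r L n)) (tail_le hσ r L hNZY)
    rw [hsp] at hvar
    have e1 : 100 * d * L * N = δ * L * N := by rw [hd]; ring
    rw [e1] at hlt
    linarith

end Pool.Agent.TH800.AI
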