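import Pool.Agent.TH800.AI.CmD

/-! The gap weighted mean square of the increments in almost all windows. -/

open Complex Filter Topology Set MeasureTheory

namespace Pool.Agent.TH800.AI

open AH H177.Lat H370.A2
open SG (ord NZ)

/-- the errors in a window are small -/
theorem errw (hRH : RiemannHypothesis) (r : ℕ) (hr : 1 ≤ r) (δ : ℝ) (hδ : 0 < δ)
    (hδ1 : δ ≤ 1 / 10) :
    ∃ L0 : ℕ, 8 ≤ L0 ∧ ∀ L : ℕ, L0 ≤ L →
      AA (fun T t => NZ t < NZ (t + T / 8) ∧ ∀ L' ∈ ({(r + 1) * L, r * L, L} : Finset ℕ),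
        Er (NZ t) (NZ (t + T / 8)) L' (yy T) (t * Real.log T / (2 * Real.pi))
          ((t + T / 8) * Real.log T / (2 * Real.pi)) ≤ δ ^ 2 / 18 * L * Mw T) := by
  have hr1 : (1 : ℝ) ≤ r := by exact_mod_cast hr
  set c : ℝ := δ ^ 2 / (36 * 480 * (r + 1)) with hc
  have hc0 : 0 < c := by positivity
  obtain ⟨L2, hL2⟩ := log_small c hc0
  refine ⟨max 8 L2, le_max_left _ _, fun L hL => ?_⟩
  have hL8 : 8 ≤ L := (le_max_left _ _).trans hL
  have hL8r : (8 : ℝ) ≤ L := by exact_mod_cast hL8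
  have hL0 : (0 : ℝ) < L := by linarith
  set P : ℕ := (r + 1) * L with hP
  have hPL : L ≤ P := Nat.le_mul_of_pos_left L (by omega)
  have hPr : (P : ℝ) = (r + 1) * L := by rw [hP]; push_cast; rfl
  have hP8 : (8 : ℝ) ≤ P := by exact_mod_cast hL8.trans hPL
  have hP0 : (0 : ℝ) < P := by linarith
  have hlog := hL2 P (((le_max_right _ _).trans hL).trans hPL)
  set η : ℝ := min (1 / 8) (δ ^ 2 / (5000 * (P : ℝ) ^ 2)) with hη
  have hη0 : 0 < η := lt_min (by norm_num) (by positivity)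
  have hη1 : η ≤ 1 / 8 := min_le_left _ _
  have hη2 : η * (5000 * (P : ℝ) ^ 2) ≤ δ ^ 2 := by
    have := min_le_right (1 / 8) (δ ^ 2 / (5000 * (P : ℝ) ^ 2))
    rw [← hη, le_div_iff₀ (by positivity)] at this
    exact this
  obtain ⟨T1, hT1, hgap⟩ := first_gap η hη0 hη1
  have hmem : ∀ L' ∈ ({(r + 1) * L, r * L, L} : Finset ℕ), 8 ≤ L' ∧ L' ≤ P := by
    intro L' hL'
    rw [Finset.mem_insert, Finset.mem_insert, Finset.mem_singleton] at hL'
    have h1 : L ≤ r * L := Nat.le_mul_of_pos_left L (by omega)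
    have h2 : r * L ≤ (r + 1) * L := Nat.mul_le_mul_right L (by omega)
    rcases hL' with h | h | h <;> subst h <;> constructor <;> omega
  have hnv : AA (fun T t => ∀ L' ∈ ({(r + 1) * L, r * L, L} : Finset ℕ),
      NV T t L' ≤ (60 + 2 * Real.log L') * Mw T) :=
    AA.fin _ fun L' hL' => nv hRH L' (hmem L' hL').1
  refine hnv.mono (max T1 (64 * (576 * (P : ℝ) ^ 3 / δ ^ 2))) fun T t hT hT100 ht1 ht2 h => ?_
  obtain ⟨hab, hg1⟩ := hgap T t ((le_max_left _ _).trans hT) ht1 ht2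
  refine ⟨hab, fun L' hL' => ?_⟩
  obtain ⟨hq1, hq2⟩ := hmem L' hL'
  have hN := h L' hL'
  have hTbig : 64 * (576 * (P : ℝ) ^ 3 / δ ^ 2) ≤ T := (le_max_right _ _).trans hT
  have hM := Mw_pos hT100
  have hTpos : 0 < T := by linarith
  have hlT : 0 < Real.log T := Real.log_pos (by linarith)
  have hlT1 : 1 ≤ Real.log T := by
    rw [Real.le_log_iff_exp_le (by linarith)]
    have := Real.exp_one_lt_d9
    linarith
  have hpi := Real.pi_pos
  have hpi4 := Real.pi_lt_four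
  have hMbig : 576 * (P : ℝ) ^ 3 / δ ^ 2 ≤ Mw T := by
    unfold Mw
    rw [le_div_iff₀ (by positivity)]
    have g1 : 576 * (P : ℝ) ^ 3 / δ ^ 2 * (2 * Real.pi) ≤ 576 * (P : ℝ) ^ 3 / δ ^ 2 * 8 := by
      apply mul_le_mul_of_nonneg_left (by linarith) (by positivity)
    have g2 : T / 8 * 1 ≤ T / 8 * Real.log T := mul_le_mul_of_nonneg_left hlT1 (by linarith)
    linarith
  rw [div_le_iff₀ (by positivity)] at hMbig
  have hEr : Er (NZ t) (NZ (t + T / 8)) L' (yy T) (t * Real.log T / (2 * Real.pi))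
          ((t + T / 8) * Real.log T / (2 * Real.pi)) = 8 * NV T t L' +
        8 * (L' : ℝ) ^ 2 * (yy T (NZ t + 1) - t * Real.log T / (2 * Real.pi) + L') := rfl
  rw [hEr]
  set M := Mw T with hMdef
  set G1 := yy T (NZ t + 1) - t * Real.log T / (2 * Real.pi) with hG1
  have hG1b : G1 ≤ 8 * η * M := by
    rw [hG1, hMdef]
    have e1 : 8 * η * Mw T = (t + η * T) * Real.log T / (2 * Real.pi) -
        t * Real.log T / (2 * Real.pi) := by
      unfold Mw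
      ring
    rw [e1]
    unfold yy
    have : ord (NZ t + 1) * Real.log T / (2 * Real.pi) ≤
        (t + η * T) * Real.log T / (2 * Real.pi) := by gcongr
    linarith
  have hL'0 : (0 : ℝ) < L' := by
    have : 0 < L' := by omega
    exact_mod_cast this
  have hL'P : (L' : ℝ) ≤ P := by exact_mod_cast hq2
  have hlogL : Real.log L' ≤ Real.log P := Real.log_le_log hL'0 hL'P
  have hlogP : 0 ≤ Real.log P := Real.log_nonneg (by linarith)
  have c1 : 8 * NV T t L' ≤ δ ^ 2 / 36 * L * M := by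
    have g1 : 60 + 2 * Real.log L' ≤ 60 * (c * P) := by linarith
    have g2 := mul_le_mul_of_nonneg_right g1 hM.le
    have g3 : 8 * (60 * (c * P) * M) = δ ^ 2 / 36 * L * M := by
      rw [hPr, hc]; field_simp; norm_num
    rw [← g3]
    linarith
  have c2 : 8 * (L' : ℝ) ^ 2 * (G1 + L') ≤ δ ^ 2 / 36 * L * M := by
    have g0 : (L' : ℝ) ^ 2 ≤ (P : ℝ) ^ 2 := pow_le_pow_left₀ hL'0.le hL'P 2
    have g1 : G1 + L' ≤ 8 * η * M + P := by linarith
    have g2 : 8 * (L' : ℝ) ^ 2 * (G1 + L') ≤ 8 * (L' : ℝ) ^ 2 * (8 * η * M + P) :=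
      mul_le_mul_of_nonneg_left g1 (by positivity)
    have g3 : 8 * (L' : ℝ) ^ 2 * (8 * η * M + P) ≤ 8 * (P : ℝ) ^ 2 * (8 * η * M + P) := by
      apply mul_le_mul_of_nonneg_right _ (by positivity)
      linarith
    have g4 : 8 * (P : ℝ) ^ 2 * (8 * η * M + P) = 64 / 5000 * (η * (5000 * (P : ℝ) ^ 2)) * M +
        8 / 576 * (576 * (P : ℝ) ^ 3) := by ring
    have g5 : 64 / 5000 * (η * (5000 * (P : ℝ) ^ 2)) * M ≤ 64 / 5000 * δ ^ 2 * M := by
      apply mul_le_mul_of_nonneg_right _ hM.le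
      linarith
    have g6 : 64 / 5000 * δ ^ 2 * M + 8 / 576 * (M * δ ^ 2) ≤ 1 / 36 * (δ ^ 2 * M) := by
      have : 0 ≤ δ ^ 2 * M := by positivity
      linarith
    have g7 : 1 / 36 * (δ ^ 2 * M) ≤ δ ^ 2 / 36 * L * M := by
      have e1 : δ ^ 2 / 36 * L * M = 1 / 36 * (δ ^ 2 * M) * L := by ring
      rw [e1]
      have : 0 ≤ 1 / 36 * (δ ^ 2 * M) := by positivity
      nlinarith
    linarith
  have e1 : δ ^ 2 / 18 * L * M = δ ^ 2 / 36 * L * M + δ ^ 2 / 36 * L * M := by ring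
  rw [e1]
  exact add_le_add c1 c2

/-- the gap weighted mean square of the increments in almost all windows -/
theorem gwD (hRH : RiemannHypothesis) (r : ℕ) (hr : 1 ≤ r) (δ : ℝ) (hδ : 0 < δ)
    (hδ1 : δ ≤ 1 / 10) :
    ∃ L0 : ℕ, 8 ≤ L0 ∧ ∀ L : ℕ, L0 ≤ L → ∃ c εb : ℝ, 0 < c ∧ 0 < εb ∧
      AA (fun T t => ∀ σ : ℕ → ℝ, Sg σ →
        c * Mw T ≤ ((Bad (NZ t) (NZ (t + T / 8)) 1 εb (vs σ (yy T))).card : ℝ) ∨
        ((2 - 14 * δ) * L * Mw T ≤ ∑ n ∈ Finset.Ico (NZ t + 1) (NZ (t + T / 8)),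
          (yy T (n + 1) - yy T n) * Dn σ r L (n + 1) ^ 2 ∧
        ∑ n ∈ Finset.Ico (NZ t + 1) (NZ (t + T / 8)),
          (yy T (n + 1) - yy T n) * Dn σ r L (n + 1) ^ 2 ≤ (2 + 14 * δ) * L * Mw T)) := by
  obtain ⟨L1, hL1, hub⟩ := ubw hRH r hr δ hδ hδ1
  obtain ⟨L2, hL2, hlb⟩ := lbwD hRH r hr δ hδ hδ1
  obtain ⟨L3, hL3, her⟩ := errw hRH r hr δ hδ hδ1
  refine ⟨max L1 (max L2 L3), hL1.trans (le_max_left _ _), fun L hL => ?_⟩
  have hLL1 : L1 ≤ L := (le_max_left _ _).trans hL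
  have hLL2 : L2 ≤ L := ((le_max_left _ _).trans (le_max_right _ _)).trans hL
  have hLL3 : L3 ≤ L := ((le_max_right _ _).trans (le_max_right _ _)).trans hL
  have hL8 : 8 ≤ L := hL1.trans hLL1
  have hL8r : (8 : ℝ) ≤ L := by exact_mod_cast hL8
  have hL0 : (0 : ℝ) < L := by linarith
  obtain ⟨c1, ε1, hc1, hε1, hA1⟩ := hub L hLL1
  obtain ⟨c2, ε2, hc2, hε2, hA2⟩ := hlb L hLL2
  refine ⟨min c1 c2, min ε1 ε2, lt_min hc1 hc2, lt_min hε1 hε2, ?_⟩
  refine ((hA1.and hA2).and (her L hLL3)).mono 0 fun T t _ hT100 ht1 ht2 h σ hσ => ?_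
  obtain ⟨⟨h1, h2⟩, hab, h3⟩ := h
  have hM := Mw_pos hT100
  rcases h1 σ hσ with hb | hu
  · left
    refine le_trans ?_ (hb.trans ?_)
    · exact mul_le_mul_of_nonneg_right (min_le_left _ _) hM.le
    · exact_mod_cast Bad_mono _ _ (min_le_left _ _) _
  rcases h2 σ hσ with hb | hl
  · left
    refine le_trans ?_ (hb.trans ?_)
    · exact mul_le_mul_of_nonneg_right (min_le_right _ _) hM.le
    · exact_mod_cast Bad_mono _ _ (min_le_right _ _) _
  right
  have hmemI : ∀ n, NZ t < n → n ≤ NZ (t + T / 8) → n ∈ Iw T t := by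
    intro n g1 g2
    unfold Iw
    exact Finset.mem_Ioc.2 ⟨g1, g2⟩
  have hcmp := cmpD (NZ t) (NZ (t + T / 8)) r L σ (yy T)
    (fun n => (Sg.abs hσ n).trans (by norm_num)) hab
    (fun n m g1 g2 _ => yy_mono hT100 (by omega) g2)
    (t * Real.log T / (2 * Real.pi)) ((t + T / 8) * Real.log T / (2 * Real.pi))
    (mem_Iw hT100 (hmemI _ (by omega) (by omega))).1.le
    (mem_Iw hT100 (hmemI _ hab le_rfl)).2 δ hδ
  obtain ⟨k1, k2⟩ := hcmp
  have e1 := h3 ((r + 1) * L) (by simp)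
  have e2 := h3 (r * L) (by simp)
  have e3 := h3 L (by simp)
  set E1 := Er (NZ t) (NZ (t + T / 8)) ((r + 1) * L) (yy T) (t * Real.log T / (2 * Real.pi))
          ((t + T / 8) * Real.log T / (2 * Real.pi))
  set E2 := Er (NZ t) (NZ (t + T / 8)) (r * L) (yy T) (t * Real.log T / (2 * Real.pi))
          ((t + T / 8) * Real.log T / (2 * Real.pi))
  set E3 := Er (NZ t) (NZ (t + T / 8)) L (yy T) (t * Real.log T / (2 * Real.pi))
          ((t + T / 8) * Real.log T / (2 * Real.pi))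
  have hu' : ∫ x, dd (Finset.Ioc (NZ t) (NZ (t + T / 8))) σ (yy T) r L x ^ 2 ≤
    (2 + 10 * δ) * L * Mw T := hu
  have hl' : (2 - 10 * δ) * L * Mw T ≤
    ∫ x, dd (Finset.Ioc (NZ t) (NZ (t + T / 8))) σ (yy T) r L x ^ 2 := hl
  set W := ∫ x, dd (Finset.Ioc (NZ t) (NZ (t + T / 8))) σ (yy T) r L x ^ 2
  set Sgm := ∑ n ∈ Finset.Ico (NZ t + 1) (NZ (t + T / 8)),
          (yy T (n + 1) - yy T n) * Dn σ r L (n + 1) ^ 2
  have hLM : 0 < L * Mw T := by positivity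
  have hE : (1 + 1 / δ) * (3 * (E1 + E2 + E3)) ≤ δ * (L * Mw T) := by
    have g1 : 3 * (E1 + E2 + E3) ≤ δ ^ 2 / 2 * (L * Mw T) := by
      have : δ ^ 2 / 2 * (L * Mw T) = 3 * (δ ^ 2 / 18 * L * Mw T + δ ^ 2 / 18 * L * Mw T +
        δ ^ 2 / 18 * L * Mw T) := by ring
      rw [this]
      linarith
    have g2 := mul_le_mul_of_nonneg_left g1 (by positivity : (0 : ℝ) ≤ 1 + 1 / δ)
    refine g2.trans ?_
    have g3 : (1 + 1 / δ) * (δ ^ 2 / 2 * (L * Mw T)) = ((1 + δ) / 2) * (δ * (L * Mw T)) := by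
      field_simp
      ring
    rw [g3]
    have g4 : 0 ≤ δ * (L * Mw T) := by positivity
    have g5 : (1 + δ) / 2 ≤ 1 := by linarith
    nlinarith
  have hLa : (2 - 10 * δ) * L * Mw T = (2 - 10 * δ) * (L * Mw T) := by ring
  have hUa : (2 + 10 * δ) * L * Mw T = (2 + 10 * δ) * (L * Mw T) := by ring
  rw [hLa] at hl'
  rw [hUa] at hu'
  have hLb : (2 - 14 * δ) * L * Mw T = (2 - 14 * δ) * (L * Mw T) := by ring
  have hUb : (2 + 14 * δ) * L * Mw T = (2 + 14 * δ) * (L * Mw T) := by ring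
  rw [hLb, hUb]
  set V := L * Mw T
  constructor
  · have q1 : (2 - 11 * δ) * V ≤ (1 + δ) * Sgm := by linarith
    have q2 : (1 + δ) * ((2 - 14 * δ) * V) ≤ (2 - 11 * δ) * V := by
      rw [← mul_assoc]
      apply mul_le_mul_of_nonneg_right _ hLM.le
      nlinarith
    exact le_of_mul_le_mul_left (q2.trans q1) (by linarith)
  · have q1 : (1 + δ) * W ≤ (1 + δ) * ((2 + 10 * δ) * V) :=
      mul_le_mul_of_nonneg_left hu' (by linarith)
    have q2 : (1 + δ) * ((2 + 10 * δ) * V) ≤ (2 + 13 * δ) * V := by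
      rw [← mul_assoc]
      apply mul_le_mul_of_nonneg_right _ hLM.le
      nlinarith
    linarith

end Pool.Agent.TH800.AI
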