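import Pool.Agent.TH800.AI.SmD
import Pool.Agent.TH800.AH.Ix

/-! Gap weighted means and means over the indices, in both directions. -/

open Complex Filter Topology Set MeasureTheory

namespace Pool.Agent.TH800.AI

open AH
open H177.Lat hiding del
open H370.A2
open SG (ord NZ)
open LG.CU (del)

lemma low_aux (δ h V : ℝ) (hδ : 0 < δ) (hδ1 : δ ≤ 1 / 10) (hh0 : 0 < h) (q3 : (1 + δ) * V < h) :
    δ / 4 * h ≤ |V - h| := by
  have q4 : V ≤ (1 - δ / 4) * h := by
    by_contra hcon
    push Not at hcon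
    have q5 : (1 + δ) * ((1 - δ / 4) * h) < (1 + δ) * V :=
      mul_lt_mul_of_pos_left hcon (by linarith)
    have q6 : 1 * (h : ℝ) ≤ ((1 + δ) * (1 - δ / 4)) * h := by
      apply mul_le_mul_of_nonneg_right _ hh0.le
      nlinarith
    linarith
  rw [abs_sub_comm]
  refine le_trans ?_ (le_abs_self _)
  linarith

/-- the gaps below `3 T` -/
lemma del_le_gap {T : ℝ} (hT : 100 ≤ T) (n : ℕ) (hn : 1 ≤ n) (h1 : T / 2 ≤ ord n)
    (h2 : ord n ≤ 3 * T) : del n ≤ yy T (n + 1) - yy T n := by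
  have hpi := Real.pi_gt_three
  have h3 := SG.ord_mono hn (Nat.le_succ n)
  have h3' : 0 ≤ ord (n + 1) - ord n := sub_nonneg.2 h3
  have h4 : Real.log (ord n / (2 * Real.pi)) ≤ Real.log T := by
    apply Real.log_le_log
    · have : 0 < ord n := by linarith
      positivity
    · rw [div_le_iff₀ (by positivity)]
      nlinarith
  unfold LG.CU.del yy
  have e1 : ord (n + 1) * Real.log T / (2 * Real.pi) - ord n * Real.log T / (2 * Real.pi) =
      (ord (n + 1) - ord n) / (2 * Real.pi) * Real.log T := by ring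
  rw [e1]
  exact mul_le_mul_of_nonneg_left h4 (by positivity)

/-- the mean over the indices -/
theorem ixR (hRH : RiemannHypothesis) (δ : ℝ) (hδ : 0 < δ) (hδ1 : δ ≤ 1 / 10) :
    ∃ L0 : ℕ, 8 ≤ L0 ∧ ∀ L : ℕ, L0 ≤ L → ∃ T1 : ℝ, 100 ≤ T1 ∧ ∀ T t : ℝ, T1 ≤ T → T ≤ t →
      t ≤ 2 * T → ∀ F : ℕ → ℝ, (∀ n i : ℕ, |F (n + i) - F n| ≤ 6 * i) →
      (∀ n, F n ^ 2 ≤ 4 * (L : ℝ) ^ 2) →
      ∑ m ∈ Finset.Ioc (NZ t) (NZ (t + T / 8)), F m ^ 2 ≤ (1 + δ) ^ 2 *
        ∑ n ∈ Finset.Ico (NZ t + 1) (NZ (t + T / 8)),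
          (yy T (n + 1) - yy T n) * F (n + 1) ^ 2 + 3 * δ * L * Mw T := by
  have hRHs := rhs_of hRH
  obtain ⟨c, hc, m1, hm1, H1⟩ := Pool.Agent.TH800.LD.main hRHs (δ / 4) (by positivity)
    (by linarith)
  obtain ⟨C, hC, hup⟩ := NZ_three
  obtain ⟨T2, hT2⟩ : ∃ T2 : ℝ, 100 ≤ T2 := ⟨100, le_rfl⟩
  obtain ⟨L0, hL08, hpar⟩ := params (δ / 3) c (3072 * C) (by positivity) hc (by positivity) m1
  refine ⟨L0, hL08, fun L hL => ?_⟩
  obtain ⟨h, hm, hh3, hch, hh2, hexp⟩ := hpar L hL
  have hexp' : 3072 * C * L * Real.exp (-c * h) ≤ δ := by linarith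
  have hL8 : (8 : ℝ) ≤ L := by exact_mod_cast hL08.trans hL
  have hL0 : (0 : ℝ) < L := by linarith
  have hh0 : (0 : ℝ) < h := by
    have : 0 < h := by omega
    exact_mod_cast this
  obtain ⟨T3, hT3, hcnt⟩ := cnt_low (1 / 2) (1 / 2) (by norm_num) (by norm_num) (by norm_num)
  have hev : ∀ᶠ T : ℝ in atTop, 64 * (64 * h * L / δ + h) + 2000 ≤ T := eventually_ge_atTop _
  obtain ⟨T4, hT4⟩ := hev.exists_forall_of_atTop
  refine ⟨max T2 (max (2 * T3) T4), hT2.trans (le_max_left _ _),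
    fun T t hT ht1 ht2 F hF1 hF2 => ?_⟩
  have hTT2 : T2 ≤ T := (le_max_left _ _).trans hT
  have hTT3 : 2 * T3 ≤ T := ((le_max_left _ _).trans (le_max_right _ _)).trans hT
  have hTT4 := hT4 T (((le_max_right _ _).trans (le_max_right _ _)).trans hT)
  have hT100 : 100 ≤ T := hT2.trans hTT2
  have hTpos : 0 < T := by linarith
  have hM := Mw_pos hT100
  have hpi := Real.pi_pos
  have hpi4 := Real.pi_lt_four
  have hlT : 0 < Real.log T := Real.log_pos (by linarith)
  have hlT1 : 1 ≤ Real.log T := by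
    rw [Real.le_log_iff_exp_le (by linarith)]
    have := Real.exp_one_lt_d9
    linarith
  have hMT : T / 64 ≤ Mw T := by
    unfold Mw
    rw [le_div_iff₀ (by positivity)]
    have g2 : T / 8 * 1 ≤ T / 8 * Real.log T := mul_le_mul_of_nonneg_left hlT1 (by linarith)
    nlinarith
  have hTM : T * Real.log T ≤ 64 * Mw T := by
    unfold Mw
    rw [← mul_div_assoc, le_div_iff₀ (by positivity)]
    have : 0 < T * Real.log T := by positivity
    nlinarith
  set a := NZ t with ha
  set b := NZ (t + T / 8) with hb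
  have hab : a ≤ b := SG.NZ_mono (by linarith)
  -- many zeros below `t`
  have hhalf : (NZ (T / 2) : ℝ) + h ≤ a := by
    have g1 := hcnt (T / 2) (T / 2) (by linarith) le_rfl (by linarith)
    have e1 : T / 2 + 1 / 2 * (T / 2) = 3 * T / 4 := by ring
    rw [e1] at g1
    have g2 : (NZ (3 * T / 4) : ℝ) ≤ a := by exact_mod_cast SG.NZ_mono (by linarith)
    have g3 : (h : ℝ) ≤ (1 - 1 / 2) * (1 / 2 * (T / 2) * Real.log (T / 2) / (2 * Real.pi)) := by
      have g4 : 1 ≤ Real.log (T / 2) := by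
        rw [Real.le_log_iff_exp_le (by linarith)]
        have := Real.exp_one_lt_d9
        linarith
      have g5 : T / 64 ≤ (1 - 1 / 2) * (1 / 2 * (T / 2) * Real.log (T / 2) / (2 * Real.pi)) := by
        have g6 : (1 - 1 / 2) * (1 / 2 * (T / 2) * Real.log (T / 2) / (2 * Real.pi)) =
            T / 8 * Real.log (T / 2) / (2 * Real.pi) := by ring
        rw [g6, le_div_iff₀ (by positivity)]
        have g7 : T / 8 * 1 ≤ T / 8 * Real.log (T / 2) :=
          mul_le_mul_of_nonneg_left g4 (by linarith)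
        nlinarith
      have g8 : 0 ≤ 64 * (h : ℝ) * L / δ := by positivity
      linarith
    linarith
  have hhalf' : NZ (T / 2) + h ≤ a := by exact_mod_cast hhalf
  have hord : ∀ n, a + 1 - h ≤ n → 1 ≤ n ∧ T / 2 ≤ ord n := by
    intro n hn
    have hn1 : 1 ≤ n := by omega
    refine ⟨hn1, ?_⟩
    by_contra hcon
    push Not at hcon
    have := (SG.ord_le_iff hn1 (T / 2)).mp hcon.le
    omega
  set g : ℕ → ℝ := fun n => yy T (n + 1) - yy T n with hg
  have hg0 : ∀ n, 1 ≤ n → 0 ≤ g n := fun n hn => sub_nonneg.2 (yy_mono hT100 hn (Nat.le_succ n))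
  set x : ℕ → ℝ := fun m => DD g h (m - h) / h with hx
  set N := NZ (3 * T) with hN
  have hbN : b ≤ N := SG.NZ_mono (by linarith)
  have hN1 : 1 ≤ N := by
    have : h ≤ a := by omega
    omega
  have hNup : (N : ℝ) ≤ 64 * C * Mw T := by
    refine (hup T (by linarith)).trans ?_
    have := mul_le_mul_of_nonneg_left hTM hC.le
    linarith
  have hlogh : 1 ≤ Real.log h := by
    rw [Real.le_log_iff_exp_le hh0]
    have h3 : (3 : ℝ) ≤ h := by exact_mod_cast hh3
    have := Real.exp_one_lt_d9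
    linarith
  have hexpc : Real.exp (-c * (h * Real.log h)) ≤ Real.exp (-c * h) := by
    apply Real.exp_le_exp.2
    have q2 : c * h ≤ c * (h * Real.log h) := by
      apply mul_le_mul_of_nonneg_left _ hc.le
      nlinarith
    linarith
  -- the sum of the gaps
  have hgs : ∑ n ∈ Finset.Ico (a + 1) b, g n ≤ Mw T := by
    rcases Nat.lt_or_ge a b with hlt | hge
    · have q1 : ∑ n ∈ Finset.Ico (a + 1) b, g n = yy T b - yy T (a + 1) :=
        sum_gaps a b (yy T) (by omega)
      rw [q1]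
      have q2 : ord b ≤ t + T / 8 := (SG.ord_le_iff (by omega) _).mpr le_rfl
      have q3 : t < ord (a + 1) := by
        by_contra hcon
        push Not at hcon
        have := (SG.ord_le_iff (by omega : 1 ≤ a + 1) t).mp hcon
        omega
      have q4 : yy T b - yy T (a + 1) = (ord b - ord (a + 1)) * (Real.log T / (2 * Real.pi)) := by
        simp only [yy]; ring
      have q5 : Mw T = T / 8 * (Real.log T / (2 * Real.pi)) := by unfold Mw; ring
      rw [q4, q5]
      apply mul_le_mul_of_nonneg_right _ (by positivity)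
      linarith
    · rw [Finset.Ico_eq_empty (by omega), Finset.sum_empty]
      exact hM.le
  -- the deficit
  set S' := Finset.Ico (a + 1 + h) (b + 1) with hS'
  have hx0 : ∀ m ∈ S', 0 ≤ x m := by
    intro m hm
    rw [hS', Finset.mem_Ico] at hm
    simp only [hx]
    apply div_nonneg _ hh0.le
    unfold DD
    exact Finset.sum_nonneg fun i _ => hg0 _ (by omega)
  have hdef := deficit S' x F δ (4 * (L : ℝ) ^ 2) hδ hF2 hx0
  have hsmR := smoothR F g hF1 hg0 h a b (by omega) δ hδ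
  have hE4 : ((S'.filter (fun m => (1 + δ) * x m < 1)).card : ℝ) ≤ N * Real.exp (-c * h) := by
    refine (count_map S' h N (fun n => δ / 4 * h ≤ |∑ i ∈ Finset.range h, del (n + i) - h|)
      (fun m => (1 + δ) * x m < 1) ?_).trans ((H1 N hN1 h hm).trans ?_)
    · intro m hmS hxm
      rw [hS', Finset.mem_Ico] at hmS
      refine ⟨by omega, by omega, by omega, ?_⟩
      have q1 : ∑ i ∈ Finset.range h, del (m - h + i) ≤ DD g h (m - h) := by
        unfold DD
        refine Finset.sum_le_sum fun i hi => ?_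
        have hi' := Finset.mem_range.1 hi
        obtain ⟨r1, r2⟩ := hord (m - h + i) (by omega)
        have r3 : ord (m - h + i) ≤ t + T / 8 :=
          (SG.ord_le_iff r1 _).mpr (by rw [← hb]; omega)
        exact del_le_gap hT100 (m - h + i) r1 r2 (by linarith)
      have q2 : (1 + δ) * DD g h (m - h) < h := by
        have e1 : (1 + δ) * x m = ((1 + δ) * DD g h (m - h)) / h := by
          simp only [hx]; ring
        rw [e1, div_lt_one hh0] at hxm
        exact hxm
      set V := ∑ i ∈ Finset.range h, del (m - h + i)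
      have q3 : (1 + δ) * V < h := by
        have : (1 + δ) * V ≤ (1 + δ) * DD g h (m - h) :=
          mul_le_mul_of_nonneg_left q1 (by linarith)
        linarith
      exact low_aux δ h V hδ hδ1 hh0 q3
    · exact mul_le_mul_of_nonneg_left hexpc (Nat.cast_nonneg _)
  have htot2 : 4 * (L : ℝ) ^ 2 * ((S'.filter (fun m => (1 + δ) * x m < 1)).card : ℝ) ≤
      δ / 12 * L * Mw T := by
    have q2 := mul_le_mul_of_nonneg_left hE4 (by positivity : (0 : ℝ) ≤ 4 * (L : ℝ) ^ 2)
    refine q2.trans ?_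
    have q3 : (N : ℝ) * Real.exp (-c * h) ≤ (64 * C * Mw T) * Real.exp (-c * h) :=
      mul_le_mul_of_nonneg_right hNup (Real.exp_nonneg _)
    have q4 := mul_le_mul_of_nonneg_left q3 (by positivity : (0 : ℝ) ≤ 4 * (L : ℝ) ^ 2)
    refine q4.trans ?_
    have q5 : 4 * (L : ℝ) ^ 2 * ((64 * C * Mw T) * Real.exp (-c * h)) =
        (3072 * C * L * Real.exp (-c * h)) * (L / 12 * Mw T) := by ring
    rw [q5]
    have q6 := mul_le_mul_of_nonneg_right hexp' (by positivity : (0 : ℝ) ≤ L / 12 * Mw T)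
    refine q6.trans (le_of_eq ?_)
    ring
  have hedge2 : ∑ m ∈ Finset.Ioc a b, F m ^ 2 ≤ h * (4 * (L : ℝ) ^ 2) +
      ∑ m ∈ S', F m ^ 2 := by
    have q1 : Finset.Ioc a b ⊆ Finset.Ioc a (a + h) ∪ S' := by
      intro m hm
      rw [Finset.mem_Ioc] at hm
      rw [hS', Finset.mem_union, Finset.mem_Ioc, Finset.mem_Ico]
      omega
    have q2 := Finset.sum_le_sum_of_subset_of_nonneg (f := fun m => F m ^ 2) q1
      (fun m _ _ => sq_nonneg _)
    refine q2.trans ?_
    rw [Finset.sum_union (by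
      rw [Finset.disjoint_left]
      intro m hm1 hm2
      rw [Finset.mem_Ioc] at hm1
      rw [hS', Finset.mem_Ico] at hm2
      omega)]
    apply add_le_add _ le_rfl
    refine (Finset.sum_le_sum fun m _ => hF2 m).trans ?_
    rw [Finset.sum_const, Nat.card_Ioc, nsmul_eq_mul]
    apply mul_le_mul_of_nonneg_right _ (by positivity)
    have : a + h - a ≤ h := by omega
    exact_mod_cast this
  clear hE4 hord hhalf hhalf' H1 hcnt hT4 hpar hup hexp hexp' hx0
  have f1 : (1 + 1 / δ) * (6 * (h : ℝ)) ^ 2 * ∑ n ∈ Finset.Ico (a + 1) b, g n ≤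
      8 / 9 * δ * L * Mw T := by
    have q1 : (1 + 1 / δ) * (6 * (h : ℝ)) ^ 2 ≤ 8 / 9 * δ * L := by
      have q2 : 1 + 1 / δ ≤ 2 / δ := by
        rw [le_div_iff₀ hδ]
        have : (1 + 1 / δ) * δ = δ + 1 := by field_simp
        rw [this]
        linarith
      have q3 : (1 + 1 / δ) * (6 * (h : ℝ)) ^ 2 ≤ 2 / δ * (4 * (δ ^ 2 * L / 9)) := by
        apply mul_le_mul q2 _ (by positivity) (by positivity)
        have e1 : (6 * (h : ℝ)) ^ 2 = 4 * (9 * (h : ℝ) ^ 2) := by ring
        have e2 : (δ / 3) ^ 2 * L = δ ^ 2 * L / 9 := by ring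
        rw [e1]
        rw [e2] at hh2
        linarith
      refine q3.trans (le_of_eq ?_)
      field_simp
      ring
    exact mul_le_mul q1 hgs (Finset.sum_nonneg fun n hn => by
      rw [Finset.mem_Ico] at hn
      exact hg0 n (by omega)) (by positivity)
  have f2 : (h : ℝ) * (4 * (L : ℝ) ^ 2) ≤ δ / 16 * L * Mw T := by
    have q1 : 64 * (h : ℝ) * L / δ ≤ Mw T := by
      have : (0 : ℝ) ≤ h := hh0.le
      linarith
    rw [div_le_iff₀ hδ] at q1
    have q2 := mul_le_mul_of_nonneg_left q1 (by positivity : (0 : ℝ) ≤ L / 16)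
    refine le_trans (le_of_eq ?_) (q2.trans (le_of_eq ?_))
    · ring
    · ring
  have f5 : 0 ≤ δ * L * Mw T := by positivity
  have f3 : ∑ m ∈ S', F m ^ 2 * x m ≤ (1 + δ) * ∑ n ∈ Finset.Ico (a + 1) b, g n * F (n + 1) ^ 2 +
      8 / 9 * δ * L * Mw T := hsmR.trans (add_le_add le_rfl f1)
  have f4 := mul_le_mul_of_nonneg_left f3 (by linarith : (0 : ℝ) ≤ 1 + δ)
  set V := ∑ n ∈ Finset.Ico (a + 1) b, g n * F (n + 1) ^ 2
  have e1 : (1 + δ) * ((1 + δ) * V + 8 / 9 * δ * L * Mw T) = (1 + δ) ^ 2 * V +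
      (1 + δ) * (8 / 9) * (δ * L * Mw T) := by ring
  rw [e1] at f4
  have f6 : (1 + δ) * (8 / 9) * (δ * L * Mw T) ≤ 2 * (δ * L * Mw T) :=
    mul_le_mul_of_nonneg_right (by linarith) f5
  have e2 : ∑ m ∈ Finset.Ioc a b, F m ^ 2 ≤ (1 + δ) ^ 2 * V + 3 * δ * L * Mw T := by
    have e3 : δ / 16 * L * Mw T = 1 / 16 * (δ * L * Mw T) := by ring
    have e4 : δ / 12 * L * Mw T = 1 / 12 * (δ * L * Mw T) := by ring
    have e5 : 3 * δ * L * Mw T = 3 * (δ * L * Mw T) := by ring
    rw [e3] at f2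
    rw [e4] at htot2
    rw [e5]
    linarith
  exact e2

end Pool.Agent.TH800.AI
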