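import Pool.Agent.TH800.AI.Pla
import Pool.Agent.TH800.AH.Tr
import Pool.Agent.TH800.AH.Mj

/-! The kernel of the increments and its approximation by triangles. -/

open Complex Filter Topology Set MeasureTheory

namespace Pool.Agent.TH800.AI

open AH H177.Lat

lemma sinc_int (x : ℝ) : Real.sinc x = ∫ t in (0 : ℝ)..1, Real.cos (t * x) := by
  rcases eq_or_ne x 0 with h | h
  · subst h
    simp
  · rw [Real.sinc_of_ne_zero h, intervalIntegral.integral_comp_mul_right (fun t => Real.cos t) h]
    simp only [zero_mul, one_mul, integral_cos, Real.sin_zero, sub_zero, smul_eq_mul]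
    field_simp

lemma sinc_lip (x y : ℝ) : |Real.sinc x - Real.sinc y| ≤ |x - y| := by
  rw [sinc_int, sinc_int, ← intervalIntegral.integral_sub
    ((by fun_prop : Continuous fun t : ℝ => Real.cos (t * x)).intervalIntegrable _ _)
    ((by fun_prop : Continuous fun t : ℝ => Real.cos (t * y)).intervalIntegrable _ _)]
  have h := intervalIntegral.norm_integral_le_of_norm_le_const (a := (0 : ℝ)) (b := 1)
    (f := fun t => Real.cos (t * x) - Real.cos (t * y)) (C := |x - y|) (by
      intro t ht
      rw [Set.uIoc_of_le zero_le_one] at ht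
      rw [Real.norm_eq_abs]
      refine (Real.abs_cos_sub_cos_le _ _).trans ?_
      have : t * x - t * y = t * (x - y) := by ring
      rw [this, abs_mul, abs_of_pos ht.1]
      have := abs_nonneg (x - y)
      nlinarith [ht.2])
  rw [Real.norm_eq_abs] at h
  simpa using h

/-- the Lipschitz constant -/
noncomputable def Lam (r : ℕ) : ℝ := 52 * r

lemma kr_lip (r : ℕ) (hr : 1 ≤ r) (u v : ℝ) : |kr r u - kr r v| ≤ Lam r * |u - v| := by
  have hr1 : (1 : ℝ) ≤ r := by exact_mod_cast hr
  have hpi := Real.pi_pos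
  have hpi2 : Real.pi < 3.15 := Real.pi_lt_d2
  unfold kr sk Lam
  set a := Real.sin (Real.pi * r * u) with ha
  set b := Real.sin (Real.pi * r * v) with hb
  set c := Real.sinc (Real.pi * 1 * u) with hc
  set d := Real.sinc (Real.pi * 1 * v) with hd
  have h1 : |a - b| ≤ Real.pi * r * |u - v| := by
    refine (Real.abs_sin_sub_sin_le _ _).trans (le_of_eq ?_)
    have : Real.pi * r * u - Real.pi * r * v = Real.pi * r * (u - v) := by ring
    rw [this, abs_mul, abs_of_pos (by positivity)]
  have h2 : |c - d| ≤ Real.pi * |u - v| := by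
    refine (sinc_lip _ _).trans (le_of_eq ?_)
    have : Real.pi * 1 * u - Real.pi * 1 * v = Real.pi * (u - v) := by ring
    rw [this, abs_mul, abs_of_pos hpi]
  have ha1 : |a| ≤ 1 := Real.abs_sin_le_one _
  have hb1 : |b| ≤ 1 := Real.abs_sin_le_one _
  have hc1 : |c| ≤ 1 := Real.abs_sinc_le_one _
  have hd1 : |d| ≤ 1 := Real.abs_sinc_le_one _
  have e : 4 * a ^ 2 * c ^ 2 - 4 * b ^ 2 * d ^ 2 =
      4 * ((a - b) * (a + b) * c ^ 2) + 4 * (b ^ 2 * ((c - d) * (c + d))) := by ring
  rw [e]
  have h3 : |(a - b) * (a + b) * c ^ 2| ≤ 2 * (Real.pi * r * |u - v|) := by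
    rw [abs_mul, abs_mul, abs_pow]
    have g1 : |a + b| ≤ 2 := (abs_add_le _ _).trans (by linarith)
    have g2 : |c| ^ 2 ≤ 1 := pow_le_one₀ (abs_nonneg _) hc1
    have g3 : |a - b| * |a + b| ≤ (Real.pi * r * |u - v|) * 2 :=
      mul_le_mul h1 g1 (abs_nonneg _) (by positivity)
    have g4 : |a - b| * |a + b| * |c| ^ 2 ≤ |a - b| * |a + b| * 1 :=
      mul_le_mul_of_nonneg_left g2 (by positivity)
    linarith
  have h4 : |b ^ 2 * ((c - d) * (c + d))| ≤ 2 * (Real.pi * |u - v|) := by
    rw [abs_mul, abs_mul, abs_pow]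
    have g1 : |c + d| ≤ 2 := (abs_add_le _ _).trans (by linarith)
    have g2 : |b| ^ 2 ≤ 1 := pow_le_one₀ (abs_nonneg _) hb1
    have g3 : |c - d| * |c + d| ≤ (Real.pi * |u - v|) * 2 :=
      mul_le_mul h2 g1 (abs_nonneg _) (by positivity)
    have g4 : |b| ^ 2 * (|c - d| * |c + d|) ≤ 1 * (|c - d| * |c + d|) :=
      mul_le_mul_of_nonneg_right g2 (by positivity)
    linarith
  refine (abs_add_le _ _).trans ?_
  rw [abs_mul 4, abs_mul 4, abs_of_pos (by norm_num : (0 : ℝ) < 4)]
  have h5 : 0 ≤ |u - v| := abs_nonneg _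
  have h6 : Real.pi * r * |u - v| ≤ 3.15 * r * |u - v| := by gcongr
  have h7 : Real.pi * |u - v| ≤ 3.15 * r * |u - v| := by
    have : Real.pi * 1 ≤ 3.15 * r := mul_le_mul hpi2.le hr1 (by norm_num) (by norm_num)
    rw [mul_one] at this
    exact mul_le_mul_of_nonneg_right this h5
  nlinarith

lemma kr_even (r : ℕ) (u : ℝ) : kr r (-u) = kr r u := by
  unfold kr
  rw [sk_even, mul_neg, Real.sin_neg]
  ring

lemma kr_near (r : ℕ) (u : ℝ) : kr r u ≤ 40 * (r : ℝ) ^ 2 * u ^ 2 := by
  unfold kr
  have h1 := sk_le_one 1 u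
  have h0 := sk_nonneg 1 u
  have h2 : Real.sin (Real.pi * r * u) ^ 2 ≤ (Real.pi * r * u) ^ 2 := Real.sin_sq_le_sq
  have h3 : (Real.pi * r * u) ^ 2 = Real.pi ^ 2 * ((r : ℝ) ^ 2 * u ^ 2) := by ring
  have h4 : Real.pi ^ 2 ≤ 10 := by nlinarith [Real.pi_pos, Real.pi_lt_d2]
  have h5 : 0 ≤ (r : ℝ) ^ 2 * u ^ 2 := by positivity
  have h6 := mul_le_mul_of_nonneg_right h4 h5
  have h7 : 0 ≤ Real.sin (Real.pi * r * u) ^ 2 := sq_nonneg _
  nlinarith

lemma kr_le4 (r : ℕ) (u : ℝ) : kr r u ≤ 4 := by
  unfold kr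
  have h1 := sk_le_one 1 u
  have h0 := sk_nonneg 1 u
  have h2 : Real.sin (Real.pi * r * u) ^ 2 ≤ 1 := Real.sin_sq_le_one _
  have h7 : 0 ≤ Real.sin (Real.pi * r * u) ^ 2 := sq_nonneg _
  nlinarith

lemma kr_far (r : ℕ) (u : ℝ) (hu : u ≠ 0) : kr r u ≤ 4 / (9 * u ^ 2) := by
  unfold kr
  have h1 := sk_le 1 u one_pos hu
  have h0 := sk_nonneg 1 u
  have h2 : Real.sin (Real.pi * r * u) ^ 2 ≤ 1 := Real.sin_sq_le_one _
  have h7 : 0 ≤ Real.sin (Real.pi * r * u) ^ 2 := sq_nonneg _
  have e : 4 / (9 * u ^ 2) = 4 * (1 / (1 * u) ^ 2 / 9) := by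
    rw [one_mul]
    field_simp
  rw [e]
  nlinarith

/-- the total integral -/
lemma kr_total (r : ℕ) (hr : 1 ≤ r) : Integrable (kr r) ∧ ∫ w, kr r w = 2 := by
  obtain ⟨h1, h2⟩ := planchD {0} (fun _ => 1) (fun _ => 0) r hr one_pos
  have hr1 : (1 : ℝ) ≤ r := by exact_mod_cast hr
  have h3 : ∀ w, ‖GG {0} (fun _ => 1) (fun _ => 0) w‖ ^ 2 = 1 := by
    intro w
    unfold GG
    simp [ee]
  simp_rw [h3, mul_one, one_mul] at h1 h2
  refine ⟨h1, ?_⟩
  have h4 : ∫ x, dd {0} (fun _ => 1) (fun _ => 0) r 1 x ^ 2 = 2 := by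
    have h5 : ∀ x, dd {0} (fun _ => 1) (fun _ => 0) r 1 x ^ 2 =
        (Set.Ico (-((r : ℝ) + 1)) (-(r : ℝ))).indicator (fun _ => (1 : ℝ)) x +
        (Set.Ico (-1 : ℝ) 0).indicator (fun _ => (1 : ℝ)) x := by
      intro x
      unfold dd hh
      simp only [Finset.sum_singleton, zero_sub, mul_one, one_mul]
      rcases lt_or_ge x (-((r : ℝ) + 1)) with q1 | q1
      · rw [Set.indicator_of_notMem (fun h => by have := h.1; linarith),
          Set.indicator_of_notMem (fun h => by have := h.1; linarith),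
          Set.indicator_of_notMem (fun h => by have := h.1; linarith),
          Set.indicator_of_notMem (fun h => by have := h.1; linarith)]
        norm_num
      · rcases lt_or_ge x (-(r : ℝ)) with q2 | q2
        · rw [Set.indicator_of_mem (show x ∈ Set.Ico (-((r : ℝ) + 1)) 0 from ⟨q1, by linarith⟩),
            Set.indicator_of_notMem (fun h => by have := h.1; linarith),
            Set.indicator_of_notMem (fun h => by have := h.1; linarith),
            Set.indicator_of_mem (show x ∈ Set.Ico (-((r : ℝ) + 1)) (-(r : ℝ)) from ⟨q1, q2⟩)]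
          norm_num
        · rcases lt_or_ge x (-1) with q3 | q3
          · rw [Set.indicator_of_mem (show x ∈ Set.Ico (-((r : ℝ) + 1)) 0 from ⟨q1, by linarith⟩),
              Set.indicator_of_mem (show x ∈ Set.Ico (-(r : ℝ)) 0 from ⟨q2, by linarith⟩),
              Set.indicator_of_notMem (fun h => by have := h.1; linarith),
              Set.indicator_of_notMem (fun h => by have := h.2; linarith)]
            norm_num
          · rcases lt_or_ge x 0 with q4 | q4
            · rw [Set.indicator_of_mem (show x ∈ Set.Ico (-((r : ℝ) + 1)) 0 from ⟨q1, by linarith⟩),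
                Set.indicator_of_mem (show x ∈ Set.Ico (-(r : ℝ)) 0 from ⟨q2, by linarith⟩),
                Set.indicator_of_mem (show x ∈ Set.Ico (-1 : ℝ) 0 from ⟨q3, by linarith⟩),
                Set.indicator_of_notMem (fun h => by have := h.2; linarith)]
              norm_num
            · rw [Set.indicator_of_notMem (fun h => by have := h.2; linarith),
                Set.indicator_of_notMem (fun h => by have := h.2; linarith),
                Set.indicator_of_notMem (fun h => by have := h.2; linarith),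
                Set.indicator_of_notMem (fun h => by have := h.2; linarith)]
              norm_num
    simp_rw [h5]
    rw [integral_add (ind_ico_int _ _ _) (ind_ico_int _ _ _),
      integral_indicator measurableSet_Ico, integral_indicator measurableSet_Ico]
    simp
    norm_num
  rw [h4] at h2
  linarith

lemma kr_half (r : ℕ) (hr : 1 ≤ r) : ∫ w in Set.Ioi (0 : ℝ), kr r w = 1 := by
  obtain ⟨h1, h2⟩ := kr_total r hr
  have h3 := integral_add_compl (measurableSet_Ioi (a := (0 : ℝ))) h1
  have h4 : ∫ w in (Set.Ioi (0 : ℝ))ᶜ, kr r w = ∫ w in Set.Ioi (0 : ℝ), kr r w := by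
    rw [Set.compl_Ioi]
    have h5 := integral_comp_neg_Iic (0 : ℝ) (kr r)
    rw [neg_zero] at h5
    rw [← h5]
    refine setIntegral_congr_fun measurableSet_Iic fun x _ => ?_
    exact (kr_even r x).symm
  rw [h4, h2] at h3
  linarith

/-- lower weights -/
noncomputable def lw (r : ℕ) (e : ℝ) (k : ℕ) : ℝ := max 0 (kr r ((k + 2) * e) - Lam r * e)

/-- upper weights -/
noncomputable def uw (r : ℕ) (e : ℝ) (k : ℕ) : ℝ := kr r ((k + 2) * e) + Lam r * e

lemma Lam_nonneg (r : ℕ) : 0 ≤ Lam r := by unfold Lam; positivity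

lemma minorK (r : ℕ) (hr : 1 ≤ r) {e : ℝ} (he : 0 < e) (K : ℕ) (u : ℝ) :
    ∑ k ∈ Finset.range K, lw r e k * tri e (u + (k + 2) * e) ≤ kr r u := by
  have h1 : ∀ k ∈ Finset.range K, lw r e k * tri e (u + (k + 2) * e) ≤
      kr r u * tri e (u + (k + 2) * e) := by
    intro k _
    rcases le_or_gt e |u + (k + 2) * e| with h | h
    · rw [tri_zero he h, mul_zero, mul_zero]
    · apply mul_le_mul_of_nonneg_right _ (tri_nonneg _ _)
      apply max_le (kr_nonneg _ _)
      have h2 := kr_lip r hr (-u) ((k + 2) * e)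
      rw [kr_even] at h2
      have h3 : |(-u) - (k + 2) * e| ≤ e := by
        rw [← abs_neg]
        have : -(-u - (k + 2) * e) = u + (k + 2) * e := by ring
        rw [this]
        exact h.le
      have h4 := mul_le_mul_of_nonneg_left h3 (Lam_nonneg r)
      linarith [(abs_le.1 h2).1]
  refine (Finset.sum_le_sum h1).trans ?_
  rw [← Finset.mul_sum]
  have h2 := tri_sum K he u
  have h3 := kr_nonneg r u
  nlinarith

lemma majorK (r : ℕ) (hr : 1 ≤ r) {e : ℝ} (he : 0 < e) (K : ℕ) (u : ℝ) (h1 : u ≤ -(2 * e))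
    (h2 : -((K + 1) * e) ≤ u) :
    kr r u ≤ ∑ k ∈ Finset.range K, uw r e k * tri e (u + (k + 2) * e) := by
  have hL := Lam_nonneg r
  have g1 : ∀ k ∈ Finset.range K, kr r u * tri e (u + (k + 2) * e) ≤
      uw r e k * tri e (u + (k + 2) * e) := by
    intro k _
    rcases le_or_gt e |u + (k + 2) * e| with h | h
    · rw [tri_zero he h, mul_zero, mul_zero]
    · apply mul_le_mul_of_nonneg_right _ (tri_nonneg _ _)
      unfold uw
      have h2 := kr_lip r hr (-u) ((k + 2) * e)
      rw [kr_even] at h2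
      have h3 : |(-u) - (k + 2) * e| ≤ e := by
        rw [← abs_neg]
        have : -(-u - (k + 2) * e) = u + (k + 2) * e := by ring
        rw [this]
        exact h.le
      have h4 := mul_le_mul_of_nonneg_left h3 hL
      linarith [(abs_le.1 h2).2]
  refine le_trans ?_ (Finset.sum_le_sum g1)
  rw [← Finset.mul_sum]
  have hsum : 1 ≤ ∑ k ∈ Finset.range K, tri e (u + (k + 2) * e) := by
    set v : ℝ := -u with hv
    have hv1 : 2 * e ≤ v := by linarith
    have hv2 : v ≤ (K + 1) * e := by linarith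
    set j : ℕ := ⌊v / e⌋₊ with hj
    have hve : 0 ≤ v / e := by
      apply div_nonneg _ he.le
      linarith
    have hj1 : (j : ℝ) * e ≤ v := by
      have := Nat.floor_le hve
      rwa [le_div_iff₀ he] at this
    have hj2 : v < (j + 1) * e := by
      have := Nat.lt_floor_add_one (v / e)
      rwa [div_lt_iff₀ he] at this
    have hj3 : 2 ≤ j := by
      apply Nat.le_floor
      rw [le_div_iff₀ he]
      exact_mod_cast hv1
    have hjK : j ≤ K + 1 := by
      have : (j : ℝ) * e ≤ (K + 1) * e := hj1.trans hv2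
      have h3 := le_of_mul_le_mul_right this he
      exact_mod_cast h3
    have hKpos : 1 ≤ K := by
      by_contra hcon
      have : K = 0 := by omega
      subst this
      simp at hv2
      linarith
    have hnn : ∀ k ∈ Finset.range K, 0 ≤ tri e (u + (k + 2) * e) := fun k _ => tri_nonneg _ _
    rcases eq_or_lt_of_le hjK with hjK' | hjK'
    · -- the right end
      have hv3 : v = (K + 1) * e := by
        apply le_antisymm hv2
        rw [hjK'] at hj1
        exact_mod_cast hj1
      have h3 := Finset.single_le_sum hnn (Finset.mem_range.2 (show K - 1 < K by omega))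
      refine le_trans (le_of_eq ?_) h3
      have h4 : u + ((K - 1 : ℕ) + 2) * e = 0 := by
        have h5 : ((K - 1 : ℕ) : ℝ) = K - 1 := by
          rw [Nat.cast_sub hKpos]; norm_num
        rw [h5]
        have : u = -v := by rw [hv]; ring
        rw [this, hv3]
        ring
      rw [h4, tri_in he (by rw [abs_zero]; exact he.le), abs_zero, zero_div, sub_zero]
    · have hj4 : j - 2 + 1 < K := by omega
      have hsub : ({j - 2, j - 2 + 1} : Finset ℕ) ⊆ Finset.range K := by
        intro k hk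
        rw [Finset.mem_insert, Finset.mem_singleton] at hk
        rw [Finset.mem_range]
        omega
      have h3 := Finset.sum_le_sum_of_subset_of_nonneg hsub
        (fun k hk _ => hnn k hk)
      rw [Finset.sum_pair (by omega)] at h3
      refine le_trans (le_of_eq ?_) h3
      have h5 : ((j - 2 : ℕ) : ℝ) = j - 2 := by
        rw [Nat.cast_sub hj3]; norm_num
      have h6 := tri_pair he (j : ℝ) hj1 hj2.le
      rw [← tri_even e (v - j * e), ← tri_even e (v - (j + 1) * e)] at h6
      rw [← h6]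
      push_cast
      rw [h5]
      congr 1
      · congr 1
        rw [hv]; ring
      · congr 1
        rw [hv]; ring
  have h3 := kr_nonneg r u
  nlinarith

/-- Riemann sums -/
lemma riem (r : ℕ) (hr : 1 ≤ r) {e : ℝ} (he : 0 < e) (K : ℕ) :
    |∑ k ∈ Finset.range K, kr r ((k + 2) * e) * e - ∫ x in (2 * e)..((K + 2 : ℝ) * e), kr r x| ≤
      K * (Lam r * e ^ 2) := by
  have h3 : ∑ k ∈ Finset.range K, ∫ x in ((k + 2 : ℝ) * e)..((k + 3 : ℝ) * e), kr r x =
      ∫ x in (2 * e)..((K + 2 : ℝ) * e), kr r x := by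
    have h4 := intervalIntegral.sum_integral_adjacent_intervals (f := kr r) (μ := volume)
      (a := fun k : ℕ => ((k : ℝ) + 2) * e) (n := K)
      (fun k _ => (kr_cont r).intervalIntegrable _ _)
    simp only [Nat.cast_zero, zero_add] at h4
    rw [← h4]
    refine Finset.sum_congr rfl fun k _ => ?_
    push_cast
    congr 1
    ring
  rw [← h3, ← Finset.sum_sub_distrib]
  refine (Finset.abs_sum_le_sum_abs _ _).trans ?_
  have h5 : ∀ k ∈ Finset.range K, |kr r ((k + 2) * e) * e -
      ∫ x in ((k + 2 : ℝ) * e)..((k + 3 : ℝ) * e), kr r x| ≤ Lam r * e ^ 2 := by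
    intro k _
    have e1 : kr r ((k + 2) * e) * e = ∫ _ in ((k + 2 : ℝ) * e)..((k + 3 : ℝ) * e),
        kr r ((k + 2) * e) := by
      rw [intervalIntegral.integral_const, smul_eq_mul]
      ring
    rw [e1, ← intervalIntegral.integral_sub (continuous_const.intervalIntegrable _ _)
      ((kr_cont r).intervalIntegrable _ _)]
    have h6 := intervalIntegral.norm_integral_le_of_norm_le_const (a := (k + 2 : ℝ) * e)
      (b := (k + 3 : ℝ) * e) (f := fun x => kr r ((k + 2) * e) - kr r x) (C := Lam r * e) (by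
        intro x hx
        rw [Set.uIoc_of_le (by nlinarith)] at hx
        rw [Real.norm_eq_abs]
        refine (kr_lip r hr _ _).trans ?_
        apply mul_le_mul_of_nonneg_left _ (Lam_nonneg r)
        rw [abs_of_nonpos (by linarith [hx.1])]
        have := hx.2
        linarith)
    rw [Real.norm_eq_abs] at h6
    refine h6.trans (le_of_eq ?_)
    have : (k + 3 : ℝ) * e - (k + 2) * e = e := by ring
    rw [this, abs_of_pos he]
    ring
  refine (Finset.sum_le_sum h5).trans ?_
  rw [Finset.sum_const, Finset.card_range, nsmul_eq_mul]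

lemma uw_sum (r : ℕ) (hr : 1 ≤ r) {e : ℝ} (he : 0 < e) (K : ℕ) :
    ∑ k ∈ Finset.range K, uw r e k * e ≤ 1 + 2 * K * (Lam r * e ^ 2) := by
  have h1 : ∑ k ∈ Finset.range K, uw r e k * e = ∑ k ∈ Finset.range K, kr r ((k + 2) * e) * e +
      K * (Lam r * e ^ 2) := by
    unfold uw
    simp_rw [add_mul]
    rw [Finset.sum_add_distrib, Finset.sum_const, Finset.card_range, nsmul_eq_mul]
    ring
  have h2 := (abs_le.1 (riem r hr he K)).2
  have h3 : ∫ x in (2 * e)..((K + 2 : ℝ) * e), kr r x ≤ 1 := by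
    rw [← kr_half r hr, intervalIntegral.integral_of_le (by nlinarith [(Nat.cast_nonneg K : (0 : ℝ) ≤ K)])]
    apply setIntegral_mono_set (kr_total r hr).1.integrableOn
    · exact Filter.Eventually.of_forall fun x => kr_nonneg r x
    · exact (Set.Ioc_subset_Ioi_self.trans (Set.Ioi_subset_Ioi (by linarith))).eventuallyLE
  rw [h1]
  linarith

lemma lw_sum (r : ℕ) (hr : 1 ≤ r) {e : ℝ} (he : 0 < e) (K : ℕ) :
    (∫ x in (0 : ℝ)..((K + 2 : ℝ) * e), kr r x) - 8 * e - 2 * K * (Lam r * e ^ 2) ≤
      ∑ k ∈ Finset.range K, lw r e k * e := by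
  have hK0 : (0 : ℝ) ≤ K := Nat.cast_nonneg K
  have h1 : ∑ k ∈ Finset.range K, kr r ((k + 2) * e) * e - K * (Lam r * e ^ 2) ≤
      ∑ k ∈ Finset.range K, lw r e k * e := by
    have h2 : ∑ k ∈ Finset.range K, kr r ((k + 2) * e) * e - K * (Lam r * e ^ 2) =
        ∑ k ∈ Finset.range K, (kr r ((k + 2) * e) - Lam r * e) * e := by
      simp_rw [sub_mul]
      rw [Finset.sum_sub_distrib, Finset.sum_const, Finset.card_range, nsmul_eq_mul]
      ring
    rw [h2]
    exact Finset.sum_le_sum fun k _ => mul_le_mul_of_nonneg_right (le_max_right _ _) he.le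
  have h2 := (abs_le.1 (riem r hr he K)).1
  have h3 : ∫ x in (0 : ℝ)..((K + 2 : ℝ) * e), kr r x ≤
      8 * e + ∫ x in (2 * e)..((K + 2 : ℝ) * e), kr r x := by
    have h6 : ∫ x in (0 : ℝ)..(2 * e), kr r x ≤ ∫ _ in (0 : ℝ)..(2 * e), (4 : ℝ) := by
      apply intervalIntegral.integral_mono_on (by linarith)
      · exact (kr_cont r).intervalIntegrable _ _
      · exact continuous_const.intervalIntegrable _ _
      · exact fun x _ => kr_le4 r x
    rw [intervalIntegral.integral_const, smul_eq_mul, sub_zero] at h6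
    have h8 := intervalIntegral.integral_add_adjacent_intervals (f := kr r) (μ := volume)
      (a := 0) (b := 2 * e) (c := (K + 2 : ℝ) * e) ((kr_cont r).intervalIntegrable _ _)
      ((kr_cont r).intervalIntegrable _ _)
    linarith
  linarith

end Pool.Agent.TH800.AI
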