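import Pool.Agent.TH800.AI.GwD
import Pool.Agent.TH800.AI.IxU
import Pool.Agent.TH800.AI.IxR
import Pool.Agent.TH800.AH.Loc

/-! The dichotomy for the increments in almost all windows. -/

open Complex Filter Topology Set MeasureTheory

namespace Pool.Agent.TH800.AI

open AH H177.Lat H370.A2
open SG (ord NZ)

lemma Dn_eq (s : ℕ → ℝ) (r L n : ℕ) : Dn s r L n = BB s L (n + r * L) - BB s L n := by
  unfold Dn BB
  have e1 : (r + 1) * L = r * L + L := by ring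
  rw [e1, Finset.sum_range_add]
  have e2 : ∑ x ∈ Finset.range L, s (n + (r * L + x)) =
      ∑ x ∈ Finset.range L, s (n + r * L + x) :=
    Finset.sum_congr rfl fun j _ => by congr 1; omega
  rw [e2]
  ring

lemma Dn_steps {σ : ℕ → ℝ} (hσ : Sg σ) (r L n i : ℕ) :
    |Dn σ r L (n + i) - Dn σ r L n| ≤ 6 * i := by
  have hs : ∀ n m, |σ n - σ m| ≤ 2 := by
    intro n m
    refine (abs_sub _ _).trans ?_
    have := Sg.abs hσ n
    have := Sg.abs hσ m
    linarith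
  have h1 := abs_le.1 (BB_steps σ hs ((r + 1) * L) n i)
  have h2 := abs_le.1 (BB_steps σ hs (r * L) n i)
  have h3 := abs_le.1 (BB_steps σ hs L n i)
  unfold Dn
  rw [abs_le]
  constructor <;> linarith [h1.1, h1.2, h2.1, h2.2, h3.1, h3.2]

lemma Dn_bound {σ : ℕ → ℝ} (hσ : Sg σ) (r L n : ℕ) : Dn σ r L n ^ 2 ≤ 4 * (L : ℝ) ^ 2 := by
  have hB : ∀ n, |BB σ L n| ≤ L := by
    intro n
    unfold BB
    refine (Finset.abs_sum_le_sum_abs _ _).trans ?_
    refine (Finset.sum_le_sum fun j _ => Sg.abs hσ (n + j)).trans ?_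
    rw [Finset.sum_const, Finset.card_range, nsmul_eq_mul, mul_one]
  rw [Dn_eq, ← sq_abs]
  have h1 : |BB σ L (n + r * L) - BB σ L n| ≤ 2 * L :=
    (abs_sub _ _).trans (by linarith [hB (n + r * L), hB n])
  have h2 := pow_le_pow_left₀ (abs_nonneg _) h1 2
  linarith

lemma locD_aux {δ V S W : ℝ} (hδ : 0 < δ) (hδ1 : δ ≤ 1 / 20) (hV : 0 < V)
    (h1 : (2 - 14 * δ) * V ≤ W) (h2 : W ≤ (2 + 14 * δ) * V)
    (h3 : W ≤ (1 + δ) ^ 2 * S + 3 * δ * V) (h4 : S ≤ (1 + δ) ^ 2 * W + 3 * δ * V) :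
    |S - 2 * V| ≤ 30 * δ * V := by
  have hd2 : 0 < δ ^ 2 := by positivity
  have hd3 : 0 < δ ^ 3 := by positivity
  rw [abs_le]
  constructor
  · have q1 : (1 + δ) ^ 2 * ((2 - 30 * δ) * V) ≤ (1 + δ) ^ 2 * S := by
      have q2 : (1 + δ) ^ 2 * ((2 - 30 * δ) * V) = ((1 + δ) ^ 2 * (2 - 30 * δ)) * V := by ring
      have q3 : ((1 + δ) ^ 2 * (2 - 30 * δ)) * V ≤ (2 - 17 * δ) * V := by
        apply mul_le_mul_of_nonneg_right _ hV.le
        nlinarith
      linarith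
    have q4 := le_of_mul_le_mul_left q1 (by positivity)
    linarith
  · have q1 : (1 + δ) ^ 2 * W ≤ (1 + δ) ^ 2 * ((2 + 14 * δ) * V) :=
      mul_le_mul_of_nonneg_left h2 (by positivity)
    have q2 : (1 + δ) ^ 2 * ((2 + 14 * δ) * V) = ((1 + δ) ^ 2 * (2 + 14 * δ)) * V := by ring
    have q3 : ((1 + δ) ^ 2 * (2 + 14 * δ)) * V ≤ (2 + 27 * δ) * V := by
      apply mul_le_mul_of_nonneg_right _ hV.le
      nlinarith
    linarith

/-- either many exceptional spacings or the right mean square of the increments -/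
theorem locD (hRH : RiemannHypothesis) (r : ℕ) (hr : 1 ≤ r) (δ : ℝ) (hδ : 0 < δ)
    (hδ1 : δ ≤ 1 / 20) :
    ∃ L0 : ℕ, 8 ≤ L0 ∧ ∀ L : ℕ, L0 ≤ L → ∃ c : ℝ, 0 < c ∧
      AA (fun T t => ∀ σ : ℕ → ℝ, Sg σ →
        c * (T * Real.log T) ≤ ({n : ℕ | 1 ≤ n ∧ t < ord n ∧ ord n ≤ t + T / 8 ∧
          Ex σ c n}.ncard : ℝ) ∨
        |∑ n ∈ Finset.Ioc (NZ t) (NZ (t + T / 8)), Dn σ r L n ^ 2 - 2 * (L * Mw T)| ≤
          30 * δ * (L * Mw T)) := by
  obtain ⟨L1, hL1, h1⟩ := gwD hRH r hr δ hδ (by linarith)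
  obtain ⟨L2, hL2, h2⟩ := ixU hRH δ hδ (by linarith)
  obtain ⟨L3, hL3, h3⟩ := ixR hRH δ hδ (by linarith)
  refine ⟨max L1 (max L2 L3), hL1.trans (le_max_left _ _), fun L hL => ?_⟩
  obtain ⟨c, εb, hc, hεb, hAA⟩ := h1 L ((le_max_left _ _).trans hL)
  obtain ⟨T1, hT1, hix⟩ := h2 L (((le_max_left _ _).trans (le_max_right _ _)).trans hL)
  obtain ⟨T3, hT3, hir⟩ := h3 L (((le_max_right _ _).trans (le_max_right _ _)).trans hL)
  obtain ⟨c', T2, hc', hT2, htr⟩ := transfer c εb hc hεb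
  refine ⟨c', hc', hAA.mono (max T1 (max T2 T3)) fun T t hT hT100 ht1 ht2 h σ hσ => ?_⟩
  rcases h σ hσ with hb | ⟨hb1, hb2⟩
  · left
    exact htr T t (((le_max_left _ _).trans (le_max_right _ _)).trans hT) ht1 ht2 σ hb
  · right
    have hi := hix T t ((le_max_left _ _).trans hT) ht1 ht2 (fun n => Dn σ r L n)
      (fun n i => Dn_steps hσ r L n i) (fun n => Dn_bound hσ r L n)
    have hj := hir T t (((le_max_right _ _).trans (le_max_right _ _)).trans hT) ht1 ht2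
      (fun n => Dn σ r L n) (fun n i => Dn_steps hσ r L n i) (fun n => Dn_bound hσ r L n)
    have hM := Mw_pos hT100
    have hL8 : (8 : ℝ) ≤ L := by exact_mod_cast (hL1.trans ((le_max_left _ _).trans hL))
    have hLM : 0 < L * Mw T := by positivity
    have e1 : 3 * δ * L * Mw T = 3 * δ * (L * Mw T) := by ring
    rw [e1] at hi hj
    have e2 : (2 - 14 * δ) * L * Mw T = (2 - 14 * δ) * (L * Mw T) := by ring
    have e3 : (2 + 14 * δ) * L * Mw T = (2 + 14 * δ) * (L * Mw T) := by ring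
    rw [e2] at hb1
    rw [e3] at hb2
    exact locD_aux hδ hδ1 hLM hb1 hb2 hi hj

end Pool.Agent.TH800.AI
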