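import Pool.Agent.TH800.AH.Pl

/-! Plancherel's theorem for the increments of block sums. -/

open Complex Filter Topology Set MeasureTheory
open scoped FourierTransform

namespace Pool.Agent.TH800.AI

open AH H177.Lat

/-- increment with lag `r` of the block sums over the points in `(x, x + X]` -/
noncomputable def dd (I : Finset ℕ) (s y : ℕ → ℝ) (r : ℕ) (X x : ℝ) : ℝ :=
  hh I s y ((r + 1) * X) x - hh I s y (r * X) x - hh I s y X x

lemma dd_int (I : Finset ℕ) (s y : ℕ → ℝ) (r : ℕ) (X : ℝ) : Integrable (dd I s y r X) :=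
  ((hh_int I s y _).sub (hh_int I s y _)).sub (hh_int I s y _)

lemma ddc (I : Finset ℕ) (s y : ℕ → ℝ) (r : ℕ) (X : ℝ) : (fun x => (dd I s y r X x : ℂ)) =
    fun x => (hh I s y ((r + 1) * X) x : ℂ) - (hh I s y (r * X) x : ℂ) - (hh I s y X x : ℂ) := by
  funext x
  unfold dd
  push_cast
  ring

lemma ddc_memLp (I : Finset ℕ) (s y : ℕ → ℝ) (r : ℕ) (X : ℝ) :
    MemLp (fun x => (dd I s y r X x : ℂ)) 2 := by
  rw [ddc]
  exact ((hhc_memLp I s y _).sub (hhc_memLp I s y _)).sub (hhc_memLp I s y _)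

/-- the kernel `4 sin² (π r u) (sin (π u) / (π u))²` -/
noncomputable def kr (r : ℕ) (u : ℝ) : ℝ := 4 * Real.sin (Real.pi * r * u) ^ 2 * sk 1 u

lemma kr_nonneg (r : ℕ) (u : ℝ) : 0 ≤ kr r u := by
  unfold kr
  have := sk_nonneg 1 u
  positivity

lemma kr_cont (r : ℕ) : Continuous (kr r) := by
  unfold kr
  exact (continuous_const.mul ((Real.continuous_sin.comp (by fun_prop)).pow 2)).mul (sk_cont 1)

lemma four_int (f : ℝ → ℂ) (hf : Integrable f) (w : ℝ) :
    Integrable (fun v : ℝ => Complex.exp (↑(-2 * Real.pi * v * w) * Complex.I) * f v) := by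
  apply hf.bdd_mul (c := 1)
  · exact (Complex.continuous_exp.comp (by fun_prop)).aestronglyMeasurable
  · refine Filter.Eventually.of_forall fun v => ?_
    rw [Complex.norm_exp_ofReal_mul_I]

lemma dd_four (I : Finset ℕ) (s y : ℕ → ℝ) (r : ℕ) (hr : 1 ≤ r) {X : ℝ} (hX : 0 < X) (w : ℝ) :
    (((2 * Real.pi * w : ℝ) : ℂ) * Complex.I) * 𝓕 (fun x => (dd I s y r X x : ℂ)) (-w) =
      -(GG I s y w * (1 - ee (-(w * X))) * (1 - ee (-(w * (r * X))))) := by
  have hr0 : (0 : ℝ) < r := by exact_mod_cast hr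
  have h1 : 𝓕 (fun x => (dd I s y r X x : ℂ)) (-w) =
      𝓕 (fun x => (hh I s y ((r + 1) * X) x : ℂ)) (-w) - 𝓕 (fun x => (hh I s y (r * X) x : ℂ)) (-w) -
      𝓕 (fun x => (hh I s y X x : ℂ)) (-w) := by
    rw [ddc]
    simp only [Real.fourier_real_eq_integral_exp_smul, smul_eq_mul]
    have i1 := four_int (fun x => (hh I s y ((r + 1) * X) x : ℂ))
      ((hh_int I s y ((r + 1) * X)).ofReal) (-w)
    have i2 := four_int (fun x => (hh I s y (r * X) x : ℂ)) ((hh_int I s y (r * X)).ofReal) (-w)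
    have i3 := four_int (fun x => (hh I s y X x : ℂ)) ((hh_int I s y X).ofReal) (-w)
    have e1 := integral_sub i1 i2
    have e2 := integral_sub (i1.sub i2) i3
    simp only [Pi.sub_apply] at e2
    rw [← e1, ← e2]
    refine integral_congr_ae (Filter.Eventually.of_forall fun v => ?_)
    simp only
    ring
  rw [h1, mul_sub, mul_sub, hh_four I s y (by positivity) w, hh_four I s y (by positivity) w,
    hh_four I s y hX w]
  have h2 : ee (-(w * ((r + 1) * X))) = ee (-(w * X)) * ee (-(w * (r * X))) := by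
    rw [← ee_add]; congr 1; ring
  rw [h2]
  ring

lemma dd_four_sq (I : Finset ℕ) (s y : ℕ → ℝ) (r : ℕ) (hr : 1 ≤ r) {X : ℝ} (hX : 0 < X) (w : ℝ)
    (hw : w ≠ 0) :
    ‖𝓕 (fun x => (dd I s y r X x : ℂ)) (-w)‖ ^ 2 = X ^ 2 * (kr r (X * w) * ‖GG I s y w‖ ^ 2) := by
  have h := congrArg norm (dd_four I s y r hr hX w)
  rw [norm_neg, norm_mul, norm_mul, norm_mul, norm_mul, Complex.norm_I, mul_one, Complex.norm_real,
    Real.norm_eq_abs] at h
  have h1 : (2 * Real.pi * w) ^ 2 * ‖𝓕 (fun x => (dd I s y r X x : ℂ)) (-w)‖ ^ 2 =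
      ‖GG I s y w‖ ^ 2 * (4 * Real.sin (Real.pi * (w * X)) ^ 2) *
        (4 * Real.sin (Real.pi * (w * (r * X))) ^ 2) := by
    rw [← one_sub_ee, ← one_sub_ee]
    have h5 : ‖GG I s y w‖ ^ 2 * ‖1 - ee (-(w * X))‖ ^ 2 * ‖1 - ee (-(w * (r * X)))‖ ^ 2 =
        (‖GG I s y w‖ * ‖1 - ee (-(w * X))‖ * ‖1 - ee (-(w * (r * X)))‖) ^ 2 := by ring
    rw [h5, ← h, mul_pow |2 * Real.pi * w|, sq_abs]
  have hpi := Real.pi_pos
  have h0 : Real.pi * 1 * (X * w) ≠ 0 := by positivity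
  unfold kr sk
  rw [Real.sinc_of_ne_zero h0, div_pow]
  have e1 : Real.pi * (w * X) = Real.pi * 1 * (X * w) := by ring
  have e2 : Real.pi * (w * (r * X)) = Real.pi * r * (X * w) := by ring
  rw [e1, e2] at h1
  have h3 : (2 * Real.pi * w) ^ 2 ≠ 0 := by positivity
  apply mul_left_cancel₀ h3
  rw [h1]
  generalize Real.sin (Real.pi * 1 * (X * w)) = S
  generalize Real.sin (Real.pi * r * (X * w)) = S'
  generalize ‖GG I s y w‖ = B
  field_simp
  ring

lemma dd_sq_int (I : Finset ℕ) (s y : ℕ → ℝ) (r : ℕ) (X : ℝ) :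
    Integrable (fun x => dd I s y r X x ^ 2) := by
  have h1 := (ddc_memLp I s y r X).integrable_norm_pow (by norm_num)
  refine h1.congr (Filter.Eventually.of_forall fun x => ?_)
  simp only [Complex.norm_real, Real.norm_eq_abs]
  rw [← sq_abs]
  norm_num

/-- Plancherel's theorem for the increments -/
theorem planchD (I : Finset ℕ) (s y : ℕ → ℝ) (r : ℕ) (hr : 1 ≤ r) {X : ℝ} (hX : 0 < X) :
    Integrable (fun w => kr r (X * w) * ‖GG I s y w‖ ^ 2) ∧
    ∫ x, dd I s y r X x ^ 2 = X ^ 2 * ∫ w, kr r (X * w) * ‖GG I s y w‖ ^ 2 := by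
  set f : ℝ → ℂ := fun x => (dd I s y r X x : ℂ) with hf
  have hfi : Integrable f := (dd_int I s y r X).ofReal
  have hpl := Pool.Agent.Helper76.NormalHP.plancherel_lintegral f hfi (ddc_memLp I s y r X)
  have hcont : Continuous (𝓕 f) := by
    exact VectorFourier.fourierIntegral_continuous Real.continuous_fourierChar
      continuous_inner hfi
  have hsq := dd_sq_int I s y r X
  have hR : ∫⁻ t, ‖f t‖ₑ ^ 2 = ENNReal.ofReal (∫ x, dd I s y r X x ^ 2) := by
    rw [ofReal_integral_eq_lintegral_ofReal hsq (Filter.Eventually.of_forall fun x => sq_nonneg _)]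
    refine lintegral_congr fun x => ?_
    rw [hf]
    simp only
    rw [← ofReal_norm, ← ENNReal.ofReal_pow (norm_nonneg _), Complex.norm_real, Real.norm_eq_abs,
      sq_abs]
  have hL0 : ∫⁻ ξ, ‖𝓕 f ξ‖ₑ ^ 2 = ∫⁻ w, ‖𝓕 f (-w)‖ₑ ^ 2 := by
    have := (Measure.measurePreserving_neg (volume : Measure ℝ)).lintegral_comp
      (f := fun ξ => ‖𝓕 f ξ‖ₑ ^ 2) (by
        exact hcont.measurable.enorm.pow_const 2)
    rw [← this]
  have hae : ∀ᵐ w : ℝ, ‖𝓕 f (-w)‖ₑ ^ 2 =
      ENNReal.ofReal (X ^ 2 * (kr r (X * w) * ‖GG I s y w‖ ^ 2)) := by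
    have h0 : ∀ᵐ w : ℝ, w ≠ 0 := by
      simp [ae_iff]
    filter_upwards [h0] with w hw
    rw [← ofReal_norm, ← ENNReal.ofReal_pow (norm_nonneg _), dd_four_sq I s y r hr hX w hw]
  rw [hL0, lintegral_congr_ae hae, hR] at hpl
  have hcont2 : Continuous fun w => X ^ 2 * (kr r (X * w) * ‖GG I s y w‖ ^ 2) :=
    continuous_const.mul (((kr_cont r).comp (by fun_prop)).mul ((GG_cont I s y).norm.pow 2))
  have hpos : ∀ w, 0 ≤ X ^ 2 * (kr r (X * w) * ‖GG I s y w‖ ^ 2) := by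
    intro w
    have := kr_nonneg r (X * w)
    positivity
  have hI2 : Integrable fun w => X ^ 2 * (kr r (X * w) * ‖GG I s y w‖ ^ 2) := by
    refine ⟨hcont2.aestronglyMeasurable, ?_⟩
    rw [hasFiniteIntegral_iff_ofReal (Filter.Eventually.of_forall hpos), hpl]
    exact ENNReal.ofReal_lt_top
  have hI1 : Integrable fun w => kr r (X * w) * ‖GG I s y w‖ ^ 2 := by
    have h2 := hI2.const_mul ((X ^ 2)⁻¹)
    refine h2.congr (Filter.Eventually.of_forall fun w => ?_)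
    simp only
    field_simp
  refine ⟨hI1, ?_⟩
  rw [← ofReal_integral_eq_lintegral_ofReal hI2 (Filter.Eventually.of_forall hpos)] at hpl
  have h3 : 0 ≤ ∫ w, X ^ 2 * (kr r (X * w) * ‖GG I s y w‖ ^ 2) := integral_nonneg hpos
  have h4 : 0 ≤ ∫ x, dd I s y r X x ^ 2 := integral_nonneg fun x => sq_nonneg _
  have h5 := (ENNReal.ofReal_eq_ofReal_iff h3 h4).1 hpl
  rw [← h5, integral_const_mul]

end Pool.Agent.TH800.AI
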