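import Pool.Agent.TH800.AI.LocD
import Pool.Agent.TH800.AH.Fi

/-! From almost all windows to all zeros up to a height, in both directions. -/

open Complex Filter Topology Set MeasureTheory

namespace Pool.Agent.TH800.AI

open AH H177.Lat H370.A2
open SG (ord NZ)

/-- the main term of the number of zeros -/
noncomputable def ff (Y : ℝ) : ℝ := Y * Real.log Y / (2 * Real.pi)

/-- sum of the squares of the increments over the zeros up to `Y` -/
noncomputable def SD (σ : ℕ → ℝ) (r L : ℕ) (Y : ℝ) : ℝ :=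
  ∑ n ∈ Finset.Icc 1 (NZ Y), Dn σ r L n ^ 2

lemma SD_split (σ : ℕ → ℝ) (r L : ℕ) {t u Y : ℝ} (htu : t ≤ u) (huY : u ≤ Y) :
    SD σ r L Y = SD σ r L t + ∑ n ∈ Finset.Ioc (NZ t) (NZ u), Dn σ r L n ^ 2 +
      ∑ n ∈ Finset.Ioc (NZ u) (NZ Y), Dn σ r L n ^ 2 := by
  unfold SD
  have h1 : NZ t ≤ NZ u := SG.NZ_mono htu
  have h2 : NZ u ≤ NZ Y := SG.NZ_mono huY
  have e0 : ∀ m : ℕ, Finset.Icc 1 m = Finset.Ioc 0 m := by
    intro m; ext n; rw [Finset.mem_Icc, Finset.mem_Ioc]; omega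
  rw [e0, e0, Finset.sum_Ioc_consecutive _ (Nat.zero_le _) h1,
    Finset.sum_Ioc_consecutive _ (Nat.zero_le _) h2]

lemma tail_le {σ : ℕ → ℝ} (hσ : Sg σ) (r L : ℕ) {p q : ℕ} (hpq : p ≤ q) :
    ∑ n ∈ Finset.Ioc p q, Dn σ r L n ^ 2 ≤ 4 * (L : ℝ) ^ 2 * ((q : ℝ) - p) := by
  refine (Finset.sum_le_sum fun n _ => Dn_bound hσ r L n).trans ?_
  rw [Finset.sum_const, Nat.card_Ioc, nsmul_eq_mul, Nat.cast_sub hpq]
  linarith

/-- the number of zeros -/
lemma NZ_C : ∃ C T0 : ℝ, 0 < C ∧ 10 ≤ T0 ∧ ∀ T : ℝ, T0 ≤ T → |(NZ T : ℝ) - ff T| ≤ C * T := by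
  obtain ⟨C, T0, hC, hT0, h⟩ := Pool.Agent.W54.TCF.NT_asymp
  refine ⟨C, T0, hC, hT0, fun T hT => ?_⟩
  rw [NZ_NN]
  exact h T hT

/-- comparison of the lengths -/
lemma ff_cmp {ρ T t Y : ℝ} (hρ : 0 < ρ) (hρ1 : ρ ≤ 1 / 80) (hT : 100 ≤ T)
    (hlog : 1 / ρ ≤ Real.log T) (hY : Y = 9 / 8 * (1 + ρ) * T) (ht1 : T ≤ t)
    (ht2 : t ≤ (1 + ρ) * T) :
    0 < ff Y ∧ ff t ≤ 9 / 10 * ff Y ∧ 0 ≤ ff T ∧ ff T ≤ ff Y ∧
      9 / 8 * ff T ≤ ff (t + T / 8) ∧ ff Y - 9 / 8 * ff T ≤ 3 * ρ * ff Y ∧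
      Mw T = ff T / 8 ∧ ff t + Mw T ≤ ff Y ∧ ff T ≤ ff t ∧ ff Y ≤ 2 * ff T := by
  have hpi := Real.pi_pos
  have hTpos : 0 < T := by linarith
  have hl1 : 1 ≤ Real.log T := by
    rw [Real.le_log_iff_exp_le (by linarith)]
    have := Real.exp_one_lt_d9
    linarith
  have hρl : 1 ≤ ρ * Real.log T := by
    rw [div_le_iff₀ hρ] at hlog
    linarith
  have hYT : T ≤ Y := by rw [hY]; nlinarith
  have hY0 : 0 < Y := by linarith
  have ht0 : 0 < t := by linarith
  set l := Real.log T with hl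
  have hlY1 : l ≤ Real.log Y := Real.log_le_log hTpos hYT
  have hlY2 : Real.log Y ≤ l + 1 := by
    rw [hY, Real.log_mul (by positivity) hTpos.ne']
    have := Real.log_le_sub_one_of_pos (show (0 : ℝ) < 9 / 8 * (1 + ρ) by positivity)
    linarith
  have hlt1 : l ≤ Real.log t := Real.log_le_log hTpos ht1
  have hlt2 : Real.log t ≤ l + ρ := by
    have h1 : Real.log t ≤ Real.log ((1 + ρ) * T) := Real.log_le_log ht0 ht2
    rw [Real.log_mul (by positivity) hTpos.ne'] at h1
    have := Real.log_le_sub_one_of_pos (show (0 : ℝ) < 1 + ρ by positivity)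
    linarith
  have htY : t + T / 8 ≤ Y := by rw [hY]; linarith
  have hlu : l ≤ Real.log (t + T / 8) := Real.log_le_log hTpos (by linarith)
  have hltY : Real.log t ≤ Real.log Y := Real.log_le_log ht0 (by linarith)
  have hP : 0 < 2 * Real.pi := by positivity
  -- products
  have p1 : 9 / 8 * (1 + ρ) * (T * l) ≤ Y * Real.log Y := by
    have : 9 / 8 * (1 + ρ) * (T * l) = Y * l := by rw [hY]; ring
    rw [this]
    exact mul_le_mul_of_nonneg_left hlY1 hY0.le
  have p2 : Y * Real.log Y ≤ 9 / 8 * (1 + ρ) ^ 2 * (T * l) := by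
    have h1 : Y * Real.log Y ≤ Y * (l + ρ * l) :=
      mul_le_mul_of_nonneg_left (by linarith) hY0.le
    have h2 : Y * (l + ρ * l) = 9 / 8 * (1 + ρ) ^ 2 * (T * l) := by rw [hY]; ring
    linarith
  have p3 : t * Real.log t ≤ (1 + ρ) ^ 2 * (T * l) := by
    have h1 : t * Real.log t ≤ ((1 + ρ) * T) * (l + ρ * l) := by
      apply mul_le_mul ht2 _ (by linarith) (by positivity)
      nlinarith
    have h2 : ((1 + ρ) * T) * (l + ρ * l) = (1 + ρ) ^ 2 * (T * l) := by ring
    linarith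
  have p4 : 0 < T * l := mul_pos hTpos (by linarith)
  have p5 : T * l ≤ t * Real.log t := mul_le_mul ht1 hlt1 (by linarith) ht0.le
  have p6 : 9 / 8 * (T * l) ≤ (t + T / 8) * Real.log (t + T / 8) := by
    have : 9 / 8 * (T * l) = (9 / 8 * T) * l := by ring
    rw [this]
    apply mul_le_mul (by linarith) hlu (by linarith) (by linarith)
  have p7 : t * Real.log t + T / 8 * l ≤ Y * Real.log Y := by
    have h1 : t * Real.log t ≤ t * Real.log Y := mul_le_mul_of_nonneg_left hltY ht0.le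
    have h2 : T / 8 * l ≤ T / 8 * Real.log Y := mul_le_mul_of_nonneg_left hlY1 (by linarith)
    have h3 : (t + T / 8) * Real.log Y ≤ Y * Real.log Y :=
      mul_le_mul_of_nonneg_right htY (by linarith)
    linarith
  have p0 : 0 < Y * Real.log Y := mul_pos hY0 (by linarith)
  have p8 : t * Real.log t ≤ 9 / 10 * (Y * Real.log Y) := by
    refine p3.trans ?_
    have h1 : 9 / 10 * (9 / 8 * (1 + ρ) * (T * l)) ≤ 9 / 10 * (Y * Real.log Y) := by linarith
    refine le_trans ?_ h1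
    have h2 : 9 / 10 * (9 / 8 * (1 + ρ) * (T * l)) = (81 / 80 * (1 + ρ)) * (T * l) := by ring
    rw [h2]
    apply mul_le_mul_of_nonneg_right _ p4.le
    nlinarith
  have p9 : Y * Real.log Y - 9 / 8 * (T * l) ≤ 3 * ρ * (Y * Real.log Y) := by
    have h1 : 9 / 8 * ((1 + ρ) ^ 2 - 1) * (T * l) ≤ 3 * ρ * (9 / 8 * (1 + ρ) * (T * l)) := by
      have e1 : 3 * ρ * (9 / 8 * (1 + ρ) * (T * l)) = (27 / 8 * ρ * (1 + ρ)) * (T * l) := by ring
      rw [e1]
      apply mul_le_mul_of_nonneg_right _ p4.le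
      nlinarith
    have h2 : 3 * ρ * (9 / 8 * (1 + ρ) * (T * l)) ≤ 3 * ρ * (Y * Real.log Y) :=
      mul_le_mul_of_nonneg_left p1 (by positivity)
    linarith
  have p10 : Y * Real.log Y ≤ 2 * (T * l) := by
    refine p2.trans ?_
    apply mul_le_mul_of_nonneg_right _ p4.le
    nlinarith
  have e4 : T * l / (2 * Real.pi) = ff T := rfl
  refine ⟨?_, ?_, ?_, ?_, ?_, ?_, ?_, ?_, ?_, ?_⟩
  · unfold ff; exact div_pos p0 hP
  · unfold ff
    rw [← mul_div_assoc]
    exact div_le_div_of_nonneg_right p8 hP.le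
  · unfold ff; exact div_nonneg p4.le hP.le
  · unfold ff
    apply div_le_div_of_nonneg_right _ hP.le
    exact p5.trans (p8.trans (by linarith))
  · unfold ff
    rw [← mul_div_assoc]
    exact div_le_div_of_nonneg_right p6 hP.le
  · unfold ff
    have h1 := div_le_div_of_nonneg_right p9 hP.le
    have e1 : (Y * Real.log Y - 9 / 8 * (T * l)) / (2 * Real.pi) =
        Y * Real.log Y / (2 * Real.pi) - 9 / 8 * (T * l / (2 * Real.pi)) := by ring
    have e2 : 3 * ρ * (Y * Real.log Y) / (2 * Real.pi) =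
        3 * ρ * (Y * Real.log Y / (2 * Real.pi)) := by ring
    rw [e1, e2] at h1
    exact h1
  · unfold Mw ff; ring
  · unfold ff Mw
    have h1 := div_le_div_of_nonneg_right p7 hP.le
    have e1 : (t * Real.log t + T / 8 * l) / (2 * Real.pi) =
        t * Real.log t / (2 * Real.pi) + T / 8 * l / (2 * Real.pi) := by ring
    rw [e1] at h1
    exact h1
  · unfold ff
    exact div_le_div_of_nonneg_right p5 hP.le
  · unfold ff
    rw [← mul_div_assoc]
    exact div_le_div_of_nonneg_right p10 hP.le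

/-- the inequality of the recursion -/
lemma step_aux {L δ ρ θ ffY fft ffT M S St W R : ℝ} (hL : 1 ≤ L) (hδ : 0 < δ) (hρ : 0 < ρ)
    (hρL : 26 * L * ρ ≤ δ) (hθ : 0 ≤ θ) (hY : 0 < ffY)
    (h1 : fft ≤ 9 / 10 * ffY) (h2 : ffT ≤ ffY) (h3 : ffY - 9 / 8 * ffT ≤ 3 * ρ * ffY)
    (h4 : M = ffT / 8) (h5 : fft + M ≤ ffY) (h6 : ffT ≤ fft)
    (hS : S = St + W + R) (hSt : |St - 2 * L * fft| ≤ θ * fft)
    (hW : |W - 2 * (L * M)| ≤ 30 * δ * (L * M)) (hR0 : 0 ≤ R)
    (hR : R ≤ 4 * L ^ 2 * (5 * ρ * ffY)) (hT0 : 0 ≤ ffT) :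
    |S - 2 * L * ffY| ≤ (9 / 10 * θ + 5 * δ * L) * ffY := by
  have a1 : θ * fft ≤ 9 / 10 * θ * ffY := by
    have := mul_le_mul_of_nonneg_left h1 hθ
    linarith
  have hL0 : 0 ≤ L := by linarith
  have a2 : 30 * δ * (L * M) ≤ 4 * (δ * L * ffY) := by
    have e1 : 30 * δ * (L * M) = 30 / 8 * (δ * L * ffT) := by rw [h4]; ring
    have e2 : δ * L * ffT ≤ δ * L * ffY := mul_le_mul_of_nonneg_left h2 (by positivity)
    have e3 : 0 ≤ δ * L * ffT := by positivity
    linarith
  have a3 : 2 * L * (ffY - (fft + M)) ≤ 6 * (L * ρ * ffY) := by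
    have e1 : ffY - (fft + M) ≤ 3 * ρ * ffY := by linarith
    have e2 := mul_le_mul_of_nonneg_left e1 (by positivity : (0 : ℝ) ≤ 2 * L)
    linarith
  have a3' : 0 ≤ 2 * L * (ffY - (fft + M)) := by
    have : 0 ≤ ffY - (fft + M) := by linarith
    positivity
  have a4 : R ≤ 20 * (L * (L * ρ * ffY)) := by linarith
  have a5 : 26 * (L * (L * ρ * ffY)) ≤ δ * L * ffY := by
    have := mul_le_mul_of_nonneg_right hρL (by positivity : (0 : ℝ) ≤ L * ffY)
    linarith
  have a6 : L * ρ * ffY ≤ L * (L * ρ * ffY) := by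
    have : 0 ≤ L * ρ * ffY := by positivity
    nlinarith
  obtain ⟨b1, b2⟩ := abs_le.1 hSt
  obtain ⟨b3, b4⟩ := abs_le.1 hW
  have e : S - 2 * L * ffY = (St - 2 * L * fft) + (W - 2 * (L * M)) + R -
      2 * L * (ffY - (fft + M)) := by rw [hS]; ring
  have e5 : (9 / 10 * θ + 5 * δ * L) * ffY = 9 / 10 * θ * ffY + 5 * (δ * L * ffY) := by ring
  have hpos : 0 ≤ δ * L * ffY := by positivity
  rw [e, e5, abs_le]
  constructor <;> linarith

/-- the recursion -/
theorem recD (hRH : RiemannHypothesis) (r : ℕ) (hr : 1 ≤ r) (δ : ℝ) (hδ : 0 < δ)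
    (hδ1 : δ ≤ 1 / 20) :
    ∃ L0 : ℕ, 8 ≤ L0 ∧ ∀ L : ℕ, L0 ≤ L → ∀ k : ℕ, ∃ c : ℝ, 0 < c ∧ ∃ Y0 : ℝ, 100 ≤ Y0 ∧
      ∀ Y : ℝ, Y0 ≤ Y → ∀ σ : ℕ → ℝ, Sg σ →
        c * (Y * Real.log Y) ≤ EY σ c Y ∨
        |SD σ r L Y - 2 * L * ff Y| ≤ ((9 / 10) ^ k * (10 * (L : ℝ) ^ 2) + 50 * δ * L) * ff Y := by
  obtain ⟨L0, hL0, hloc⟩ := locD hRH r hr δ hδ hδ1
  refine ⟨L0, hL0, fun L hL => ?_⟩
  obtain ⟨c, hc, hAA⟩ := hloc L hL
  have hL8 : (8 : ℝ) ≤ L := by exact_mod_cast hL0.trans hL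
  set ρ : ℝ := min (1 / 80) (δ / (26 * L)) with hρ
  have hρ0 : 0 < ρ := lt_min (by norm_num) (by positivity)
  have hρ1 : ρ ≤ 1 / 80 := min_le_left _ _
  have hρL : 26 * L * ρ ≤ δ := by
    have := min_le_right (1 / 80) (δ / (26 * (L : ℝ)))
    rw [← hρ, le_div_iff₀ (by positivity)] at this
    linarith
  obtain ⟨T0, hT0, hex⟩ := hAA.exists ρ hρ0 (by linarith)
  obtain ⟨C, T5, hC, hT5, hNZ⟩ := NZ_C
  have hpi := Real.pi_pos
  have hpi4 := Real.pi_lt_four
  intro k
  induction k with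
  | zero =>
    obtain ⟨Y1, hY1, hup⟩ := NZ_up 1 one_pos le_rfl
    refine ⟨1, one_pos, Y1, hY1, fun Y hY σ hσ => Or.inr ?_⟩
    have hY100 : 100 ≤ Y := hY1.trans hY
    have hl : 0 < Real.log Y := Real.log_pos (by linarith)
    have hf : 0 < ff Y := by unfold ff; positivity
    have h1 : (NZ Y : ℝ) ≤ 2 * ff Y := by
      have h2 := hup Y hY
      have h3 : (NZ Y : ℝ) ≤ NZ (Y + 1) := by exact_mod_cast SG.NZ_mono (by linarith)
      unfold ff
      linarith
    have h2 : SD σ r L Y ≤ 4 * (L : ℝ) ^ 2 * (2 * ff Y) := by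
      unfold SD
      have e0 : Finset.Icc 1 (NZ Y) = Finset.Ioc 0 (NZ Y) := by
        ext n; rw [Finset.mem_Icc, Finset.mem_Ioc]; omega
      rw [e0]
      refine (tail_le hσ r L (Nat.zero_le _)).trans ?_
      apply mul_le_mul_of_nonneg_left _ (by positivity)
      simpa using h1
    have h3 : 0 ≤ SD σ r L Y := Finset.sum_nonneg fun _ _ => sq_nonneg _
    have h4 : 2 * L * ff Y ≤ 2 * (L : ℝ) ^ 2 * ff Y := by
      apply mul_le_mul_of_nonneg_right _ hf.le
      nlinarith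
    have h5 : 0 ≤ 50 * δ * L * ff Y := by positivity
    have h6 : 0 ≤ 2 * L * ff Y := by positivity
    have h7 : 0 ≤ (L : ℝ) ^ 2 * ff Y := by positivity
    have e5 : ((9 / 10 : ℝ) ^ 0 * (10 * (L : ℝ) ^ 2) + 50 * δ * L) * ff Y =
      10 * ((L : ℝ) ^ 2 * ff Y) + 50 * δ * L * ff Y := by ring
    rw [e5, abs_le]
    constructor <;> linarith
  | succ k ih =>
    obtain ⟨ck, hck, Yk, hYk, hk⟩ := ih
    have hev : ∀ᶠ T : ℝ in atTop, max (1 / ρ) (8 * C / ρ) ≤ Real.log T :=
      Real.tendsto_log_atTop.eventually_ge_atTop _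
    obtain ⟨T2, hT2⟩ := hev.exists_forall_of_atTop
    set c' : ℝ := min ck c / 4 with hc'
    have hmin : 0 < min ck c := lt_min hck hc
    have hc'0 : 0 < c' := by positivity
    set B := max T0 (max Yk (max T2 T5)) with hB
    refine ⟨c', hc'0, 2 * B, by linarith [le_max_left T0 (max Yk (max T2 T5))],
      fun Y hY σ hσ => ?_⟩
    set r0 : ℝ := 9 / 8 * (1 + ρ) with hr0
    have hr00 : 0 < r0 := by positivity
    have hr02 : r0 ≤ 2 := by rw [hr0]; linarith
    set T : ℝ := Y / r0 with hT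
    have hYT : Y = r0 * T := by rw [hT]; field_simp
    have hB0 : 100 ≤ B := hT0.trans (le_max_left _ _)
    have hTge : B ≤ T := by
      rw [hT, le_div_iff₀ hr00]
      have : B * r0 ≤ B * 2 := mul_le_mul_of_nonneg_left hr02 (by linarith)
      linarith
    have hTT0 : T0 ≤ T := (le_max_left _ _).trans hTge
    have hTYk : Yk ≤ T := ((le_max_left _ _).trans (le_max_right _ _)).trans hTge
    have hTT2 : T2 ≤ T :=
      (((le_max_left _ _).trans (le_max_right _ _)).trans (le_max_right _ _)).trans hTge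
    have hTT5 : T5 ≤ T :=
      (((le_max_right _ _).trans (le_max_right _ _)).trans (le_max_right _ _)).trans hTge
    have hlog := hT2 T hTT2
    have hlog1 : 1 / ρ ≤ Real.log T := (le_max_left _ _).trans hlog
    have hlog2 : 8 * C / ρ ≤ Real.log T := (le_max_right _ _).trans hlog
    have hT100 : 100 ≤ T := hB0.trans hTge
    have hTpos : 0 < T := by linarith
    obtain ⟨t, ht1, ht2, hP⟩ := hex T hTT0
    obtain ⟨g1, g2, g3, g4, g5, g6, g7, g8, g9, g10⟩ :=
      ff_cmp hρ0 hρ1 hT100 hlog1 (show Y = 9 / 8 * (1 + ρ) * T from hYT) ht1 ht2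
    have htY : t + T / 8 ≤ Y := by
      rw [hYT, hr0]
      linarith
    have ht0 : 0 < t := by linarith
    have hYlog : Y * Real.log Y ≤ 4 * (T * Real.log T) := by
      unfold ff at g10 g3
      rw [← mul_div_assoc, div_le_div_iff_of_pos_right (by positivity)] at g10
      have : 0 ≤ T * Real.log T := by
        have : 0 < Real.log T := Real.log_pos (by linarith)
        positivity
      linarith
    have hTlt : T * Real.log T ≤ t * Real.log t := by
      unfold ff at g9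
      rwa [div_le_div_iff_of_pos_right (by positivity)] at g9
    rcases hP σ hσ with hb | hb
    · left
      have h1 : (({n : ℕ | 1 ≤ n ∧ t < ord n ∧ ord n ≤ t + T / 8 ∧ Ex σ c n}.ncard : ℕ) : ℝ) ≤
          EY σ c' Y := by
        unfold EY
        have hsub : {n : ℕ | 1 ≤ n ∧ t < ord n ∧ ord n ≤ t + T / 8 ∧ Ex σ c n} ⊆
            {n : ℕ | 1 ≤ n ∧ ord n ≤ Y ∧ Ex σ c' n} := by
          rintro n ⟨g1, g2, g3, g4⟩
          refine ⟨g1, g3.trans htY, Ex_anti ?_ g4⟩
          have := min_le_right ck c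
          rw [hc']
          linarith
        exact_mod_cast Set.ncard_le_ncard hsub (EY_fin σ c' Y)
      refine le_trans ?_ (hb.trans h1)
      have h2 : c' * (Y * Real.log Y) ≤ c' * (4 * (T * Real.log T)) :=
        mul_le_mul_of_nonneg_left hYlog hc'0.le
      have h3 : c' * (4 * (T * Real.log T)) = min ck c * (T * Real.log T) := by rw [hc']; ring
      have hTl0 : 0 ≤ T * Real.log T := by
        have : 0 < Real.log T := Real.log_pos (by linarith)
        positivity
      have h4 : min ck c * (T * Real.log T) ≤ c * (T * Real.log T) :=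
        mul_le_mul_of_nonneg_right (min_le_right _ _) hTl0
      linarith
    · rcases hk t (hTYk.trans ht1) σ hσ with hb2 | hb2
      · left
        have h1 : EY σ ck t ≤ EY σ c' Y := by
          apply EY_mono _ (by linarith)
          have := min_le_left ck c
          rw [hc']
          linarith
        refine le_trans ?_ (hb2.trans h1)
        have h2 : c' * (Y * Real.log Y) ≤ c' * (4 * (T * Real.log T)) :=
          mul_le_mul_of_nonneg_left hYlog hc'0.le
        have h3 : c' * (4 * (T * Real.log T)) = min ck c * (T * Real.log T) := by rw [hc']; ring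
        have hTl0 : 0 ≤ T * Real.log T := by
          have : 0 < Real.log T := Real.log_pos (by linarith)
          positivity
        have h4 : min ck c * (T * Real.log T) ≤ ck * (T * Real.log T) :=
          mul_le_mul_of_nonneg_right (min_le_left _ _) hTl0
        have h5 := mul_le_mul_of_nonneg_left hTlt hck.le
        linarith
      · right
        have hsp := SD_split σ r L (show t ≤ t + T / 8 by linarith) htY
        have hR : ∑ n ∈ Finset.Ioc (NZ (t + T / 8)) (NZ Y), Dn σ r L n ^ 2 ≤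
            4 * (L : ℝ) ^ 2 * (5 * ρ * ff Y) := by
          refine (tail_le hσ r L (SG.NZ_mono htY)).trans ?_
          apply mul_le_mul_of_nonneg_left _ (by positivity)
          have n1 := (abs_le.1 (hNZ Y (by linarith))).2
          have n2 := (abs_le.1 (hNZ (t + T / 8) (by linarith))).1
          have n3 : C * Y ≤ ρ * ff Y := by
            have hlY : Real.log T ≤ Real.log Y := Real.log_le_log hTpos (by linarith)
            have q1 : 8 * C / ρ ≤ Real.log Y := hlog2.trans hlY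
            rw [div_le_iff₀ hρ0] at q1
            unfold ff
            rw [← mul_div_assoc, le_div_iff₀ (by positivity)]
            have hY0 : 0 < Y := by linarith
            have q2 : C * Y * (2 * Real.pi) ≤ C * Y * 8 := by
              apply mul_le_mul_of_nonneg_left (by linarith) (by positivity)
            have q3 := mul_le_mul_of_nonneg_right q1 hY0.le
            linarith
          have n4 : C * (t + T / 8) ≤ C * Y := mul_le_mul_of_nonneg_left htY hC.le
          linarith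
        have hR0 : 0 ≤ ∑ n ∈ Finset.Ioc (NZ (t + T / 8)) (NZ Y), Dn σ r L n ^ 2 :=
          Finset.sum_nonneg fun _ _ => sq_nonneg _
        have hθ : 0 ≤ (9 / 10 : ℝ) ^ k * (10 * (L : ℝ) ^ 2) + 50 * δ * L := by positivity
        have hfin := step_aux (by linarith : (1 : ℝ) ≤ L) hδ hρ0 hρL hθ g1 g2 g4 g6 g7 g8 g9 hsp
          hb2 hb hR0 hR g3
        refine hfin.trans (le_of_eq ?_)
        rw [pow_succ]
        ring

end Pool.Agent.TH800.AI
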