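import Pool.Agent.TH800.AH.Sm

/-! Smoothing for sequences with bounded steps. -/

open Finset

namespace Pool.Agent.TH800.AI

open AH

lemma sq_cmp {A B δ H : ℝ} (hδ : 0 < δ) (h : |B - A| ≤ H) :
    A ^ 2 ≤ (1 + δ) * B ^ 2 + (1 + 1 / δ) * H ^ 2 := by
  have h5 : (B - A) ^ 2 ≤ H ^ 2 := by
    rw [← sq_abs]
    exact pow_le_pow_left₀ (abs_nonneg _) h 2
  have h6 : 0 ≤ (δ * B + (B - A)) ^ 2 / δ := by positivity
  have h7 : (δ * B + (B - A)) ^ 2 / δ = δ * B ^ 2 + 2 * (B * (B - A)) + 1 / δ * (B - A) ^ 2 := by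
    field_simp
    ring
  have h8 : A ^ 2 = B ^ 2 - 2 * (B * (B - A)) + (B - A) ^ 2 := by ring
  have h9 : (0 : ℝ) ≤ 1 + 1 / δ := by positivity
  have h10 := mul_le_mul_of_nonneg_left h5 h9
  linarith

/-- smoothing -/
theorem smoothF (F g : ℕ → ℝ) (hF : ∀ n i : ℕ, |F (n + i) - F n| ≤ 6 * i)
    (hg : ∀ n, 1 ≤ n → 0 ≤ g n)
    (h a b : ℕ) (hh : 1 ≤ h) (hah : h ≤ a) (δ : ℝ) (hδ : 0 < δ) :
    ∑ n ∈ Finset.Ico (a + 1) b, g n * F (n + 1) ^ 2 ≤
      (1 + δ) * ∑ m ∈ Finset.Ico (a + 2) (b + h), F m ^ 2 * (DD g h (m - h) / h) +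
      (1 + 1 / δ) * (6 * (h : ℝ)) ^ 2 * ∑ n ∈ Finset.Ico (a + 1) b, g n := by
  have hh0 : (0 : ℝ) < h := by exact_mod_cast hh
  -- pointwise averaging
  have h1 : ∀ n : ℕ, F (n + 1) ^ 2 ≤ (1 + δ) * ((∑ i ∈ Finset.range h,
      F (n + 1 + i) ^ 2) / h) + (1 + 1 / δ) * (6 * (h : ℝ)) ^ 2 := by
    intro n
    have h2 : ∀ i ∈ Finset.range h, F (n + 1) ^ 2 ≤ (1 + δ) * F (n + 1 + i) ^ 2 +
        (1 + 1 / δ) * (6 * (h : ℝ)) ^ 2 := by
      intro i hi
      have h3 := hF (n + 1) i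
      have h4 : (i : ℝ) ≤ h := by exact_mod_cast (Finset.mem_range.1 hi).le
      exact sq_cmp hδ (h3.trans (by linarith))
    have h3 := Finset.sum_le_sum h2
    rw [Finset.sum_const, Finset.card_range, nsmul_eq_mul, Finset.sum_add_distrib,
      ← Finset.mul_sum, Finset.sum_const, Finset.card_range, nsmul_eq_mul] at h3
    rw [← mul_div_assoc, ← sub_le_iff_le_add, le_div_iff₀ hh0]
    linarith
  have h2 : ∑ n ∈ Finset.Ico (a + 1) b, g n * F (n + 1) ^ 2 ≤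
      ∑ n ∈ Finset.Ico (a + 1) b, ((1 + δ) / h * ∑ i ∈ Finset.range h,
        g n * F (n + 1 + i) ^ 2 + (1 + 1 / δ) * (6 * (h : ℝ)) ^ 2 * g n) := by
    refine Finset.sum_le_sum fun n hn => ?_
    rw [Finset.mem_Ico] at hn
    have h3 := mul_le_mul_of_nonneg_left (h1 n) (hg n (by omega))
    refine h3.trans (le_of_eq ?_)
    rw [← Finset.mul_sum]
    ring
  rw [Finset.sum_add_distrib, ← Finset.mul_sum, ← Finset.mul_sum] at h2
  refine h2.trans (add_le_add ?_ le_rfl)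
  -- exchange of the sums
  rw [Finset.sum_comm]
  have h3 : ∀ i ∈ Finset.range h, ∑ n ∈ Finset.Ico (a + 1) b, g n * F (n + 1 + i) ^ 2 ≤
      ∑ m ∈ Finset.Ico (a + 2) (b + h), g (m - 1 - i) * F m ^ 2 := by
    intro i hi
    have hi' := Finset.mem_range.1 hi
    have h4 : ∑ n ∈ Finset.Ico (a + 1) b, g n * F (n + 1 + i) ^ 2 =
        ∑ m ∈ Finset.Ico (a + 1 + (1 + i)) (b + (1 + i)), g (m - 1 - i) * F m ^ 2 := by
      rw [← Finset.sum_Ico_add' (fun m => g (m - 1 - i) * F m ^ 2) (a + 1) b (1 + i)]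
      refine Finset.sum_congr rfl fun n _ => ?_
      have e1 : n + (1 + i) - 1 - i = n := by omega
      have e2 : n + (1 + i) = n + 1 + i := by omega
      rw [e1, e2]
    rw [h4]
    apply Finset.sum_le_sum_of_subset_of_nonneg
    · intro m hm
      rw [Finset.mem_Ico] at hm ⊢
      omega
    · intro m hm _
      rw [Finset.mem_Ico] at hm
      exact mul_nonneg (hg _ (by omega)) (sq_nonneg _)
  have h4 := Finset.sum_le_sum h3
  have h4' : ∑ i ∈ Finset.range h, ∑ m ∈ Finset.Ico (a + 2) (b + h),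
      g (m - 1 - i) * F m ^ 2 = ∑ m ∈ Finset.Ico (a + 2) (b + h), ∑ i ∈ Finset.range h,
      g (m - 1 - i) * F m ^ 2 := Finset.sum_comm
  have h5 : ∀ m ∈ Finset.Ico (a + 2) (b + h), ∑ i ∈ Finset.range h, g (m - 1 - i) * F m ^ 2 =
      F m ^ 2 * DD g h (m - h) := by
    intro m hm
    rw [Finset.mem_Ico] at hm
    unfold DD
    rw [← Finset.sum_mul, mul_comm]
    congr 1
    rw [← Finset.sum_range_reflect (fun i => g (m - h + i)) h]
    refine Finset.sum_congr rfl fun i hi => ?_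
    have hi' := Finset.mem_range.1 hi
    congr 1
    omega
  rw [h4', Finset.sum_congr rfl h5] at h4
  have h6 : (1 + δ) / h * ∑ m ∈ Finset.Ico (a + 2) (b + h), F m ^ 2 * DD g h (m - h) =
      (1 + δ) * ∑ m ∈ Finset.Ico (a + 2) (b + h), F m ^ 2 * (DD g h (m - h) / h) := by
    rw [Finset.mul_sum, Finset.mul_sum]
    refine Finset.sum_congr rfl fun m _ => ?_
    ring
  rw [← h6]
  exact mul_le_mul_of_nonneg_left h4 (by positivity)

/-- smoothing in the other direction -/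
theorem smoothR (F g : ℕ → ℝ) (hF : ∀ n i : ℕ, |F (n + i) - F n| ≤ 6 * i)
    (hg : ∀ n, 1 ≤ n → 0 ≤ g n)
    (h a b : ℕ) (hh : 1 ≤ h) (δ : ℝ) (hδ : 0 < δ) :
    ∑ m ∈ Finset.Ico (a + 1 + h) (b + 1), F m ^ 2 * (DD g h (m - h) / h) ≤
      (1 + δ) * ∑ n ∈ Finset.Ico (a + 1) b, g n * F (n + 1) ^ 2 +
      (1 + 1 / δ) * (6 * (h : ℝ)) ^ 2 * ∑ n ∈ Finset.Ico (a + 1) b, g n := by
  have hh0 : (0 : ℝ) < h := by exact_mod_cast hh
  have h5 : ∀ m ∈ Finset.Ico (a + 1 + h) (b + 1), ∑ i ∈ Finset.range h,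
      g (m - 1 - i) * F m ^ 2 = F m ^ 2 * DD g h (m - h) := by
    intro m hm
    rw [Finset.mem_Ico] at hm
    unfold DD
    rw [← Finset.sum_mul, mul_comm]
    congr 1
    rw [← Finset.sum_range_reflect (fun i => g (m - h + i)) h]
    refine Finset.sum_congr rfl fun i hi => ?_
    have hi' := Finset.mem_range.1 hi
    congr 1
    omega
  set R := (1 + δ) * ∑ n ∈ Finset.Ico (a + 1) b, g n * F (n + 1) ^ 2 +
      (1 + 1 / δ) * (6 * (h : ℝ)) ^ 2 * ∑ n ∈ Finset.Ico (a + 1) b, g n with hR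
  have h3 : ∀ i ∈ Finset.range h, ∑ m ∈ Finset.Ico (a + 1 + h) (b + 1),
      g (m - 1 - i) * F m ^ 2 ≤ R := by
    intro i hi
    have hi' := Finset.mem_range.1 hi
    have h4 : ∑ n ∈ Finset.Ico (a + 1) b, g n * F (n + 1 + i) ^ 2 =
        ∑ m ∈ Finset.Ico (a + 1 + (1 + i)) (b + (1 + i)), g (m - 1 - i) * F m ^ 2 := by
      rw [← Finset.sum_Ico_add' (fun m => g (m - 1 - i) * F m ^ 2) (a + 1) b (1 + i)]
      refine Finset.sum_congr rfl fun n _ => ?_
      have e1 : n + (1 + i) - 1 - i = n := by omega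
      have e2 : n + (1 + i) = n + 1 + i := by omega
      rw [e1, e2]
    have h6 : ∑ m ∈ Finset.Ico (a + 1 + h) (b + 1), g (m - 1 - i) * F m ^ 2 ≤
        ∑ m ∈ Finset.Ico (a + 1 + (1 + i)) (b + (1 + i)), g (m - 1 - i) * F m ^ 2 := by
      apply Finset.sum_le_sum_of_subset_of_nonneg
      · intro m hm
        rw [Finset.mem_Ico] at hm ⊢
        omega
      · intro m hm _
        rw [Finset.mem_Ico] at hm
        exact mul_nonneg (hg _ (by omega)) (sq_nonneg _)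
    refine h6.trans ?_
    rw [← h4, hR, Finset.mul_sum, Finset.mul_sum, ← Finset.sum_add_distrib]
    refine Finset.sum_le_sum fun n hn => ?_
    rw [Finset.mem_Ico] at hn
    have h7 : |F (n + 1) - F (n + 1 + i)| ≤ 6 * (h : ℝ) := by
      rw [abs_sub_comm]
      have h8 : (i : ℝ) ≤ h := by exact_mod_cast hi'.le
      exact (hF (n + 1) i).trans (by linarith)
    have h9 := mul_le_mul_of_nonneg_left (sq_cmp hδ h7) (hg n (by omega))
    refine h9.trans (le_of_eq ?_)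
    ring
  have h4 := Finset.sum_le_sum h3
  rw [Finset.sum_comm, Finset.sum_congr rfl h5, Finset.sum_const, Finset.card_range,
    nsmul_eq_mul] at h4
  have h6 : ∑ m ∈ Finset.Ico (a + 1 + h) (b + 1), F m ^ 2 * (DD g h (m - h) / h) =
      (∑ m ∈ Finset.Ico (a + 1 + h) (b + 1), F m ^ 2 * DD g h (m - h)) / h := by
    rw [Finset.sum_div]
    exact Finset.sum_congr rfl fun m _ => by ring
  rw [h6, div_le_iff₀ hh0]
  linarith

/-- the part of the weights below `1 / (1 + δ)` -/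
theorem deficit (S : Finset ℕ) (x F : ℕ → ℝ) (δ Q : ℝ) (hδ : 0 < δ)
    (hF : ∀ m, F m ^ 2 ≤ Q) (hx : ∀ m ∈ S, 0 ≤ x m) :
    ∑ m ∈ S, F m ^ 2 ≤ (1 + δ) * ∑ m ∈ S, F m ^ 2 * x m +
      Q * ((S.filter (fun m => (1 + δ) * x m < 1)).card : ℝ) := by
  have h1 : ∀ m ∈ S, F m ^ 2 ≤ (1 + δ) * (F m ^ 2 * x m) +
      Q * (if (1 + δ) * x m < 1 then (1 : ℝ) else 0) := by
    intro m hm
    have h0 := hx m hm
    have h2 := sq_nonneg (F m)
    split_ifs with h
    · have := hF m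
      have : 0 ≤ (1 + δ) * (F m ^ 2 * x m) := by positivity
      linarith
    · push Not at h
      have := mul_le_mul_of_nonneg_left h h2
      linarith
  refine (Finset.sum_le_sum h1).trans (le_of_eq ?_)
  rw [Finset.sum_add_distrib, ← Finset.mul_sum, ← Finset.mul_sum, Finset.sum_boole]

end Pool.Agent.TH800.AI
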