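import Pool.Agent.TH800.AI.Ker
import Pool.Agent.TH800.AH.Nv
import Pool.Agent.TH800.AH.Lw

/-! Upper bound for the mean square of the increments by pair sums. -/

open Complex Filter Topology Set MeasureTheory

namespace Pool.Agent.TH800.AI

open AH H177.Lat H370.A2

lemma tri_scale {e X : ℝ} (hX : 0 < X) (a w : ℝ) :
    tri e (X * w + a * e) = tri (e / X) (w + a * (e / X)) := by
  unfold tri
  congr 2
  have : X * w + a * e = X * (w + a * (e / X)) := by field_simp
  rw [this, abs_mul, abs_of_pos hX]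
  field_simp

lemma uw_nonneg (r : ℕ) {e : ℝ} (he : 0 < e) (k : ℕ) : 0 ≤ uw r e k := by
  unfold uw
  have := kr_nonneg r ((k + 2) * e)
  have := Lam_nonneg r
  positivity

lemma lw_nonneg (r : ℕ) (e : ℝ) (k : ℕ) : 0 ≤ lw r e k := le_max_left _ _

/-- the majorant -/
noncomputable def Qk (r L K N : ℕ) (e w : ℝ) : ℝ :=
  320 * (r : ℝ) ^ 2 * e ^ 2 * tri (4 * e / L) (w + 0) +
  ∑ k ∈ Finset.range K, uw r e k *
    (tri (e / L) (w + (k + 2) * (e / L)) + tri (e / L) (w + -((k + 2) * (e / L)))) +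
  ∑ j ∈ Finset.Icc 1 N, 128 / (9 * (L : ℝ) ^ 2) * (1 / (j : ℝ) ^ 2) *
    (tri (1 / 2) (w + -(j / 4)) + tri (1 / 2) (w + j / 4))

lemma Qk_even (r L K N : ℕ) (e w : ℝ) : Qk r L K N e (-w) = Qk r L K N e w := by
  unfold Qk
  congr 1
  · congr 1
    · rw [add_zero, add_zero, tri_even]
    · refine Finset.sum_congr rfl fun k _ => ?_
      have e1 : -w + -((k + 2) * (e / (L : ℝ))) = -(w + (k + 2) * (e / L)) := by ring
      have e2 : -w + (k + 2) * (e / (L : ℝ)) = -(w + -((k + 2) * (e / L))) := by ring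
      rw [e1, e2, tri_even, tri_even]
      ring
  · refine Finset.sum_congr rfl fun j _ => ?_
    have e1 : -w + -((j : ℝ) / 4) = -(w + j / 4) := by ring
    have e2 : -w + (j : ℝ) / 4 = -(w + -(j / 4)) := by ring
    rw [e1, e2, tri_even, tri_even]
    ring

lemma Qk_maj0 (r L K N : ℕ) (hr : 1 ≤ r) (hL : 1 ≤ L) {e : ℝ} (he : 0 < e)
    (hK : (L : ℝ) / 4 ≤ (K + 1) * e) (w : ℝ) (hw0 : 0 ≤ w)
    (hw : w ≤ N / 4) : kr r (L * w) ≤ Qk r L K N e w := by
  have hL0 : (0 : ℝ) < L := by exact_mod_cast hL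
  have hA0 : 0 ≤ 320 * (r : ℝ) ^ 2 * e ^ 2 * tri (4 * e / L) (w + 0) := by
    have := tri_nonneg (4 * e / L) (w + 0)
    positivity
  have hB0 : 0 ≤ ∑ k ∈ Finset.range K, uw r e k *
    (tri (e / L) (w + (k + 2) * (e / L)) + tri (e / L) (w + -((k + 2) * (e / L)))) := by
    refine Finset.sum_nonneg fun k _ => ?_
    have := tri_nonneg (e / L) (w + (k + 2) * (e / L))
    have := tri_nonneg (e / L) (w + -((k + 2) * (e / L)))
    have := uw_nonneg r he k
    positivity
  have hC1 : ∀ j : ℕ, 0 ≤ 128 / (9 * (L : ℝ) ^ 2) * (1 / (j : ℝ) ^ 2) *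
    (tri (1 / 2) (w + -(j / 4)) + tri (1 / 2) (w + j / 4)) := by
    intro j
    have := tri_nonneg (1 / 2) (w + -((j : ℝ) / 4))
    have := tri_nonneg (1 / 2) (w + (j : ℝ) / 4)
    positivity
  have hC0 : 0 ≤ ∑ j ∈ Finset.Icc 1 N, 128 / (9 * (L : ℝ) ^ 2) * (1 / (j : ℝ) ^ 2) *
    (tri (1 / 2) (w + -(j / 4)) + tri (1 / 2) (w + j / 4)) :=
    Finset.sum_nonneg fun j _ => hC1 j
  unfold Qk
  rcases le_total (L * w) (2 * e) with h | h
  · have h1 := kr_near r (L * w)
    have h2 : (L * w) ^ 2 ≤ (2 * e) ^ 2 := pow_le_pow_left₀ (by positivity) h 2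
    have h3 : 1 / 2 ≤ tri (4 * e / L) (w + 0) := by
      have h4 : w / (4 * e / L) ≤ 1 / 2 := by
        rw [div_div_eq_mul_div, div_le_iff₀ (by positivity)]
        linarith
      rw [add_zero, tri_in (by positivity) (by
        rw [abs_of_nonneg hw0, le_div_iff₀ hL0]
        linarith), abs_of_nonneg hw0]
      linarith
    have h4 : 320 * (r : ℝ) ^ 2 * e ^ 2 * (1 / 2) ≤
        320 * (r : ℝ) ^ 2 * e ^ 2 * tri (4 * e / L) (w + 0) :=
      mul_le_mul_of_nonneg_left h3 (by positivity)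
    have h5 : 40 * (r : ℝ) ^ 2 * (L * w) ^ 2 ≤ 40 * (r : ℝ) ^ 2 * (2 * e) ^ 2 :=
      mul_le_mul_of_nonneg_left h2 (by positivity)
    have h6 : 40 * (r : ℝ) ^ 2 * (2 * e) ^ 2 = 320 * (r : ℝ) ^ 2 * e ^ 2 * (1 / 2) := by ring
    linarith
  rcases le_total (L * w) ((K + 1) * e) with h' | h'
  · have h1 := majorK r hr he K (-(L * w)) (by linarith) (by linarith)
    rw [kr_even] at h1
    have h2 : ∑ k ∈ Finset.range K, uw r e k * tri e (-(L * w) + (k + 2) * e) ≤
        ∑ k ∈ Finset.range K, uw r e k *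
    (tri (e / L) (w + (k + 2) * (e / L)) + tri (e / L) (w + -((k + 2) * (e / L)))) := by
      refine Finset.sum_le_sum fun k _ => ?_
      apply mul_le_mul_of_nonneg_left _ (uw_nonneg r he k)
      have e1 : -(L * w) + (k + 2) * e = L * (-w) + (k + 2) * e := by ring
      rw [e1, tri_scale hL0]
      have e2 : -w + (k + 2) * (e / (L : ℝ)) = -(w + -((k + 2) * (e / L))) := by ring
      rw [e2, tri_even]
      have := tri_nonneg (e / L) (w + (k + 2) * (e / L))
      linarith
    linarith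
  · have hw4 : 1 / 4 ≤ w := by
      have : (L : ℝ) * (1 / 4) ≤ L * w := by linarith
      exact le_of_mul_le_mul_left this hL0
    set j := ⌊4 * w⌋₊ with hj
    have hj1 : (j : ℝ) ≤ 4 * w := Nat.floor_le (by positivity)
    have hj2 : 4 * w ≤ j + 1 := (Nat.lt_floor_add_one _).le
    have hjN : j ≤ N := by
      have : (j : ℝ) ≤ N := by linarith
      exact_mod_cast this
    have hj0 : 1 ≤ j := by
      rw [hj]
      apply Nat.le_floor
      push_cast
      linarith
    have hjr : (1 : ℝ) ≤ j := by exact_mod_cast hj0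
    have h3 := Finset.single_le_sum (f := fun j : ℕ => 128 / (9 * (L : ℝ) ^ 2) *
        (1 / (j : ℝ) ^ 2) * (tri (1 / 2) (w + -(j / 4)) + tri (1 / 2) (w + j / 4)))
        (fun k _ => hC1 k) (Finset.mem_Icc.2 ⟨hj0, hjN⟩)
    have h4 : 1 / 2 ≤ tri (1 / 2) (w + -(j / 4)) := by
      rw [tri_in (by norm_num) (by rw [abs_of_nonneg (by linarith)]; linarith),
        abs_of_nonneg (by linarith)]
      linarith
    have h5 := tri_nonneg (1 / 2) (w + (j : ℝ) / 4)
    have h6 : 64 / (9 * (L : ℝ) ^ 2) * (1 / (j : ℝ) ^ 2) ≤ 128 / (9 * (L : ℝ) ^ 2) *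
        (1 / (j : ℝ) ^ 2) * (tri (1 / 2) (w + -(j / 4)) + tri (1 / 2) (w + j / 4)) := by
      have h7 : 0 ≤ 128 / (9 * (L : ℝ) ^ 2) * (1 / (j : ℝ) ^ 2) := by positivity
      have h8 := mul_le_mul_of_nonneg_left (by linarith : (1 : ℝ) / 2 ≤
        tri (1 / 2) (w + -(j / 4)) + tri (1 / 2) (w + j / 4)) h7
      have h9 : 128 / (9 * (L : ℝ) ^ 2) * (1 / (j : ℝ) ^ 2) * (1 / 2) =
        64 / (9 * (L : ℝ) ^ 2) * (1 / (j : ℝ) ^ 2) := by ring
      linarith
    have h7 := kr_far r (L * w) (by positivity)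
    have h8 : 4 / (9 * (L * w) ^ 2) ≤ 64 / (9 * (L : ℝ) ^ 2) * (1 / (j : ℝ) ^ 2) := by
      have h9 : 64 / (9 * (L : ℝ) ^ 2) * (1 / (j : ℝ) ^ 2) = 4 / (9 * (L * (j / 4)) ^ 2) := by
        field_simp
        ring
      rw [h9]
      apply div_le_div_of_nonneg_left (by norm_num) (by positivity)
      apply mul_le_mul_of_nonneg_left _ (by norm_num)
      apply pow_le_pow_left₀ (by positivity)
      apply mul_le_mul_of_nonneg_left (by linarith) hL0.le
    linarith

lemma Qk_maj (r L K N : ℕ) (hr : 1 ≤ r) (hL : 1 ≤ L) {e : ℝ} (he : 0 < e)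
    (hK : (L : ℝ) / 4 ≤ (K + 1) * e) (w : ℝ)
    (hw : |w| ≤ N / 4) : kr r (L * w) ≤ Qk r L K N e w := by
  rcases le_total 0 w with h | h
  · rw [abs_of_nonneg h] at hw
    exact Qk_maj0 r L K N hr hL he hK w h hw
  · rw [abs_of_nonpos h] at hw
    have := Qk_maj0 r L K N hr hL he hK (-w) (by linarith) hw
    rw [Qk_even, mul_neg, kr_even] at this
    exact this

lemma KS_abs_le (I : Finset ℕ) (s y : ℕ → ℝ) (hs : ∀ n, |s n| ≤ 1) {e : ℝ} (he : 0 < e) (τ : ℝ) :
    KS I s y e τ ≤ KS I (fun _ => 1) y e 0 := by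
  unfold KS
  refine Finset.sum_le_sum fun n _ => Finset.sum_le_sum fun n' _ => ?_
  have h1 := KK_nonneg he (y n - y n')
  have h2 := Real.abs_cos_le_one (2 * Real.pi * τ * (y n - y n'))
  simp only [mul_zero, zero_mul, Real.cos_zero, mul_one, one_mul]
  have h3 : |s n * s n'| ≤ 1 := by
    rw [abs_mul]
    exact mul_le_one₀ (hs n) (abs_nonneg _) (hs n')
  have h4 : |s n * s n' * (KK e (y n - y n') * Real.cos (2 * Real.pi * τ * (y n - y n')))| ≤
      1 * (KK e (y n - y n') * 1) := by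
    rw [abs_mul (s n * s n'), abs_mul (KK e (y n - y n')), abs_of_nonneg h1]
    apply mul_le_mul h3 _ (by positivity) zero_le_one
    exact mul_le_mul_of_nonneg_left h2 h1
  linarith [(abs_le.1 h4).2]

/-- the mean square of the increments against pair sums -/
theorem PD_le (I : Finset ℕ) (s y : ℕ → ℝ) (hs : ∀ n, |s n| ≤ 1) (r L K : ℕ) (hr : 1 ≤ r)
    (hL : 1 ≤ L) {e : ℝ} (he : 0 < e) (hK : (L : ℝ) / 4 ≤ (K + 1) * e) :
    ∫ w, kr r (L * w) * ‖GG I s y w‖ ^ 2 ≤
      320 * (r : ℝ) ^ 2 * e ^ 2 * KS I (fun _ => 1) y (4 * e / L) 0 +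
      2 * ∑ k ∈ Finset.range K, uw r e k * KS I s y (e / L) ((k + 2) * (e / L)) +
      60 / (L : ℝ) ^ 2 * KS I (fun _ => 1) y (1 / 2) 0 := by
  have hL0 : (0 : ℝ) < L := by exact_mod_cast hL
  have he1 : (0 : ℝ) < e / L := by positivity
  have he4 : (0 : ℝ) < 4 * e / L := by positivity
  have he2 : (0 : ℝ) < 1 / 2 := by norm_num
  set S : ℝ → ℝ := fun w => ‖GG I s y w‖ ^ 2 with hS
  have hS0 : ∀ w, 0 ≤ S w := fun w => by simp only [hS]; positivity
  have hSc : Continuous S := (GG_cont I s y).norm.pow 2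
  obtain ⟨hint, _⟩ := planchD I s y r hr hL0
  have hk := fun (e : ℝ) (he : 0 < e) (τ : ℝ) => kernelG I s y he τ
  have hB0 : 0 ≤ KS I (fun _ => 1) y (1 / 2) 0 := by
    rw [← (kernelG I (fun _ => 1) y he2 0).2]
    exact integral_nonneg fun w => mul_nonneg (tri_nonneg _ _) (sq_nonneg _)
  have key : ∀ N : ℕ, ∫ w in (-((N : ℝ) / 4))..((N : ℝ) / 4), kr r (L * w) * S w ≤
      320 * (r : ℝ) ^ 2 * e ^ 2 * KS I (fun _ => 1) y (4 * e / L) 0 +
      2 * ∑ k ∈ Finset.range K, uw r e k * KS I s y (e / L) ((k + 2) * (e / L)) +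
      60 / (L : ℝ) ^ 2 * KS I (fun _ => 1) y (1 / 2) 0 := by
    intro N
    have hN0 : (0 : ℝ) ≤ N := Nat.cast_nonneg N
    let f1 : ℝ → ℝ := fun w => 320 * (r : ℝ) ^ 2 * e ^ 2 * (tri (4 * e / L) (w + 0) * S w)
    let f2 : ℝ → ℝ := fun w => ∑ k ∈ Finset.range K, uw r e k *
        (tri (e / L) (w + (k + 2) * (e / L)) * S w + tri (e / L) (w + -((k + 2) * (e / L))) * S w)
    let f3 : ℝ → ℝ := fun w => ∑ j ∈ Finset.Icc 1 N, 128 / (9 * (L : ℝ) ^ 2) * (1 / (j : ℝ) ^ 2) *
        (tri (1 / 2) (w + -(j / 4)) * S w + tri (1 / 2) (w + j / 4) * S w)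
    have i1 : Integrable f1 := (hk (4 * e / L) he4 0).1.const_mul _
    have i2 : ∀ k ∈ Finset.range K, Integrable (fun w => uw r e k *
        (tri (e / L) (w + (k + 2) * (e / L)) * S w +
          tri (e / L) (w + -((k + 2) * (e / L))) * S w)) :=
      fun k _ => (((hk (e / L) he1 ((k + 2) * (e / L))).1).add
        ((hk (e / L) he1 (-((k + 2) * (e / L)))).1)).const_mul _
    have i3 : ∀ j ∈ Finset.Icc 1 N, Integrable (fun w => 128 / (9 * (L : ℝ) ^ 2) *
        (1 / (j : ℝ) ^ 2) *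
        (tri (1 / 2) (w + -(j / 4)) * S w + tri (1 / 2) (w + j / 4) * S w)) :=
      fun j _ => (((hk (1 / 2) he2 (-(j / 4))).1).add ((hk (1 / 2) he2 (j / 4)).1)).const_mul _
    have hf2 : Integrable f2 := integrable_finsetSum _ i2
    have hf3 : Integrable f3 := integrable_finsetSum _ i3
    have hf12 : Integrable (fun w => f1 w + f2 w) := i1.add hf2
    have eQ : (fun w => Qk r L K N e w * S w) = fun w => (f1 w + f2 w) + f3 w := by
      funext w
      simp only [f1, f2, f3]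
      unfold Qk
      rw [add_mul, add_mul, Finset.sum_mul, Finset.sum_mul]
      congr 1
      · congr 1
        · ring
        · exact Finset.sum_congr rfl fun k _ => by ring
      · exact Finset.sum_congr rfl fun j _ => by ring
    have hQi : Integrable (fun w => Qk r L K N e w * S w) := by
      rw [eQ]
      exact hf12.add hf3
    have hQ0 : ∀ w, 0 ≤ Qk r L K N e w * S w := by
      intro w
      refine mul_nonneg ?_ (hS0 w)
      unfold Qk
      refine add_nonneg (add_nonneg ?_ (Finset.sum_nonneg fun k _ => ?_))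
        (Finset.sum_nonneg fun k _ => ?_)
      · have := tri_nonneg (4 * e / L) (w + 0)
        positivity
      · have := tri_nonneg (e / L) (w + (k + 2) * (e / L))
        have := tri_nonneg (e / L) (w + -((k + 2) * (e / L)))
        have := uw_nonneg r he k
        positivity
      · have := tri_nonneg (1 / 2) (w + -((k : ℝ) / 4))
        have := tri_nonneg (1 / 2) (w + (k : ℝ) / 4)
        positivity
    have h1 : ∫ w in (-((N : ℝ) / 4))..((N : ℝ) / 4), kr r (L * w) * S w ≤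
        ∫ w in (-((N : ℝ) / 4))..((N : ℝ) / 4), Qk r L K N e w * S w := by
      apply intervalIntegral.integral_mono_on (by linarith)
      · exact (((kr_cont r).comp (by fun_prop)).mul hSc).intervalIntegrable _ _
      · exact hQi.intervalIntegrable
      · intro w hw
        exact mul_le_mul_of_nonneg_right (Qk_maj r L K N hr hL he hK w (abs_le.2 hw)) (hS0 w)
    have h2 : ∫ w in (-((N : ℝ) / 4))..((N : ℝ) / 4), Qk r L K N e w * S w ≤
        ∫ w, Qk r L K N e w * S w := by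
      rw [intervalIntegral.integral_of_le (by linarith)]
      exact setIntegral_le_integral hQi (Filter.Eventually.of_forall hQ0)
    have h3 : ∫ w, Qk r L K N e w * S w = 320 * (r : ℝ) ^ 2 * e ^ 2 * KS I s y (4 * e / L) 0 +
        ∑ k ∈ Finset.range K, uw r e k * (2 * KS I s y (e / L) ((k + 2) * (e / L))) +
        ∑ j ∈ Finset.Icc 1 N, 128 / (9 * (L : ℝ) ^ 2) * (1 / (j : ℝ) ^ 2) *
          (2 * KS I s y (1 / 2) (j / 4)) := by
      have g1 : ∫ w, f1 w = 320 * (r : ℝ) ^ 2 * e ^ 2 * KS I s y (4 * e / L) 0 := by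
        simp only [f1]
        rw [integral_const_mul, (hk (4 * e / L) he4 0).2]
      have g2 : ∫ w, f2 w = ∑ k ∈ Finset.range K, ∫ w, uw r e k *
        (tri (e / L) (w + (k + 2) * (e / L)) * S w +
          tri (e / L) (w + -((k + 2) * (e / L))) * S w) :=
        integral_finsetSum _ i2
      have g3 : ∫ w, f3 w = ∑ j ∈ Finset.Icc 1 N, ∫ w, 128 / (9 * (L : ℝ) ^ 2) *
        (1 / (j : ℝ) ^ 2) *
        (tri (1 / 2) (w + -(j / 4)) * S w + tri (1 / 2) (w + j / 4) * S w) :=
        integral_finsetSum _ i3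
      rw [eQ, integral_add hf12 hf3, integral_add i1 hf2, g1, g2, g3]
      congr 1
      · congr 1
        refine Finset.sum_congr rfl fun k _ => ?_
        rw [integral_const_mul, integral_add (hk (e / L) he1 ((k + 2) * (e / L))).1
          (hk (e / L) he1 (-((k + 2) * (e / L)))).1, (hk (e / L) he1 ((k + 2) * (e / L))).2,
          (hk (e / L) he1 (-((k + 2) * (e / L)))).2, KS_neg]
        ring
      · refine Finset.sum_congr rfl fun j _ => ?_
        rw [integral_const_mul, integral_add (hk (1 / 2) he2 (-(j / 4))).1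
          (hk (1 / 2) he2 (j / 4)).1, (hk (1 / 2) he2 (-(j / 4))).2,
          (hk (1 / 2) he2 (j / 4)).2, KS_neg]
        ring
    have h4 : ∑ j ∈ Finset.Icc 1 N, 128 / (9 * (L : ℝ) ^ 2) * (1 / (j : ℝ) ^ 2) *
          (2 * KS I s y (1 / 2) (j / 4)) ≤ 60 / (L : ℝ) ^ 2 * KS I (fun _ => 1) y (1 / 2) 0 := by
      have h5 : ∀ j ∈ Finset.Icc 1 N, 128 / (9 * (L : ℝ) ^ 2) * (1 / (j : ℝ) ^ 2) *
          (2 * KS I s y (1 / 2) (j / 4)) ≤
          (256 / (9 * (L : ℝ) ^ 2) * KS I (fun _ => 1) y (1 / 2) 0) * (1 / (j : ℝ) ^ 2) := by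
        intro j _
        have h6 := KS_abs_le I s y hs he2 (j / 4)
        have h7 : 0 ≤ 128 / (9 * (L : ℝ) ^ 2) * (1 / (j : ℝ) ^ 2) := by positivity
        have h8 := mul_le_mul_of_nonneg_left
          (mul_le_mul_of_nonneg_left h6 (by norm_num : (0 : ℝ) ≤ 2)) h7
        refine h8.trans (le_of_eq ?_)
        ring
      refine (Finset.sum_le_sum h5).trans ?_
      rw [← Finset.mul_sum]
      have h6 : 0 ≤ 256 / (9 * (L : ℝ) ^ 2) * KS I (fun _ => 1) y (1 / 2) 0 := by positivity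
      have h7 := mul_le_mul_of_nonneg_left (inv_sq_sum N) h6
      refine h7.trans ?_
      have h8 : 256 / (9 * (L : ℝ) ^ 2) * KS I (fun _ => 1) y (1 / 2) 0 * 2 =
          (512 / 9) / (L : ℝ) ^ 2 * KS I (fun _ => 1) y (1 / 2) 0 := by
        field_simp
        ring
      rw [h8]
      apply mul_le_mul_of_nonneg_right _ hB0
      apply div_le_div_of_nonneg_right _ (by positivity)
      norm_num
    have h5 : ∑ k ∈ Finset.range K, uw r e k * (2 * KS I s y (e / L) ((k + 2) * (e / L))) =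
        2 * ∑ k ∈ Finset.range K, uw r e k * KS I s y (e / L) ((k + 2) * (e / L)) := by
      rw [Finset.mul_sum]
      exact Finset.sum_congr rfl fun k _ => by ring
    have h6 : 320 * (r : ℝ) ^ 2 * e ^ 2 * KS I s y (4 * e / L) 0 ≤
        320 * (r : ℝ) ^ 2 * e ^ 2 * KS I (fun _ => 1) y (4 * e / L) 0 :=
      mul_le_mul_of_nonneg_left (KS_abs_le I s y hs he4 0) (by positivity)
    linarith
  have ht : Tendsto (fun N : ℕ => ∫ w in (-((N : ℝ) / 4))..((N : ℝ) / 4), kr r (L * w) * S w) atTop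
      (𝓝 (∫ w, kr r (L * w) * S w)) := by
    have hN : Tendsto (fun N : ℕ => (N : ℝ) / 4) atTop atTop :=
      tendsto_natCast_atTop_atTop.atTop_div_const (by norm_num)
    exact intervalIntegral_tendsto_integral hint (tendsto_neg_atTop_atBot.comp hN) hN
  exact le_of_tendsto' ht key

/-- lower bound for the increments by pair sums -/
theorem lowD (I : Finset ℕ) (s y : ℕ → ℝ) (r : ℕ) (hr : 1 ≤ r) (X : ℝ) (hX : 0 < X) (K : ℕ)
    (e : ℝ) (he : 0 < e) :
    X ^ 2 * (2 * ∑ k ∈ Finset.range K, lw r e k * KS I s y (e / X) ((k + 2) * (e / X))) ≤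
      ∫ x, dd I s y r X x ^ 2 := by
  obtain ⟨hint, hpl⟩ := planchD I s y r hr hX
  rw [hpl]
  apply mul_le_mul_of_nonneg_left _ (by positivity)
  have he' : 0 < e / X := by positivity
  have hpt : ∀ u : ℝ, ∑ k ∈ Finset.range K, lw r e k * (tri (e / X) (u + (k + 2) * (e / X)) +
      tri (e / X) (u + -((k + 2) * (e / X)))) ≤ kr r (X * u) := by
    have hneg : ∀ u : ℝ, u ≤ 0 → ∑ k ∈ Finset.range K, lw r e k *
        (tri (e / X) (u + (k + 2) * (e / X)) +
        tri (e / X) (u + -((k + 2) * (e / X)))) ≤ kr r (X * u) := by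
      intro u hu
      have h1 := minorK r hr he K (X * u)
      refine le_trans (Finset.sum_le_sum fun k _ => ?_) h1
      rw [tri_scale hX]
      have hk : (0 : ℝ) ≤ k := Nat.cast_nonneg k
      have h2 : tri (e / X) (u + -((k + 2) * (e / X))) = 0 := by
        apply tri_zero he'
        rw [abs_of_nonpos (by nlinarith)]
        nlinarith
      rw [h2, add_zero]
    intro u
    rcases le_total u 0 with h | h
    · exact hneg u h
    · have h1 := hneg (-u) (by linarith)
      rw [mul_neg, kr_even] at h1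
      refine le_trans (le_of_eq ?_) h1
      refine Finset.sum_congr rfl fun k _ => ?_
      have e1 : -u + (k + 2) * (e / X) = -(u + -((k + 2) * (e / X))) := by ring
      have e2 : -u + -((k + 2) * (e / X)) = -(u + (k + 2) * (e / X)) := by ring
      rw [e1, e2, tri_even, tri_even]
      ring
  have hi : ∀ k ∈ Finset.range K, Integrable (fun u => lw r e k *
      (tri (e / X) (u + (k + 2) * (e / X)) * ‖GG I s y u‖ ^ 2 +
      tri (e / X) (u + -((k + 2) * (e / X))) * ‖GG I s y u‖ ^ 2)) := fun k _ =>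
    (((kernelG I s y he' ((k + 2) * (e / X))).1).add
      ((kernelG I s y he' (-((k + 2) * (e / X)))).1)).const_mul _
  have hval : 2 * ∑ k ∈ Finset.range K, lw r e k * KS I s y (e / X) ((k + 2) * (e / X)) =
      ∫ u, ∑ k ∈ Finset.range K, lw r e k *
      (tri (e / X) (u + (k + 2) * (e / X)) * ‖GG I s y u‖ ^ 2 +
      tri (e / X) (u + -((k + 2) * (e / X))) * ‖GG I s y u‖ ^ 2) := by
    rw [integral_finsetSum _ hi, Finset.mul_sum]
    refine Finset.sum_congr rfl fun k _ => ?_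
    rw [integral_const_mul, integral_add ((kernelG I s y he' ((k + 2) * (e / X))).1)
      ((kernelG I s y he' (-((k + 2) * (e / X)))).1),
      (kernelG I s y he' ((k + 2) * (e / X))).2, (kernelG I s y he' (-((k + 2) * (e / X)))).2,
      KS_neg']
    ring
  rw [hval]
  refine integral_mono (integrable_finsetSum _ hi) hint fun u => ?_
  show ∑ k ∈ Finset.range K, lw r e k *
      (tri (e / X) (u + (k + 2) * (e / X)) * ‖GG I s y u‖ ^ 2 +
      tri (e / X) (u + -((k + 2) * (e / X))) * ‖GG I s y u‖ ^ 2) ≤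
      kr r (X * u) * ‖GG I s y u‖ ^ 2
  refine le_trans (le_of_eq ?_) (mul_le_mul_of_nonneg_right (hpt u) (sq_nonneg _))
  rw [Finset.sum_mul]
  exact Finset.sum_congr rfl fun k _ => by ring

/-- the other side of the comparison of the pair sums -/
lemma KS_sign_up (I : Finset ℕ) {σ : ℕ → ℝ} (hσ : Sg σ) (y : ℕ → ℝ) {e : ℝ} (he : 0 < e) (τ : ℝ) :
    KS I σ y e τ ≤ KS I (fun _ => 1) y e (1 - τ) + 2 * SS I σ y e := by
  unfold KS SS
  rw [Finset.mul_sum, ← Finset.sum_add_distrib]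
  refine Finset.sum_le_sum fun n _ => ?_
  rw [Finset.mul_sum, ← Finset.sum_add_distrib]
  refine Finset.sum_le_sum fun n' _ => ?_
  have h1 := cos_cmp (2 * Real.pi * (ph σ n - ph σ n') - 2 * Real.pi * τ * (y n - y n'))
    (2 * Real.pi * (1 - τ) * (y n - y n'))
  rw [sign_cos hσ] at h1
  have h2 : |Real.sin ((2 * Real.pi * (ph σ n - ph σ n') - 2 * Real.pi * τ * (y n - y n') -
      2 * Real.pi * (1 - τ) * (y n - y n')) / 2)| =
      |Real.sin (Real.pi * 1 * (vs σ y n - vs σ y n'))| := by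
    have : (2 * Real.pi * (ph σ n - ph σ n') - 2 * Real.pi * τ * (y n - y n') -
      2 * Real.pi * (1 - τ) * (y n - y n')) / 2 =
        -(Real.pi * 1 * (vs σ y n - vs σ y n')) := by
      unfold vs
      ring
    rw [this, Real.sin_neg, abs_neg]
  rw [h2] at h1
  have h3 := mul_le_mul_of_nonneg_left h1 (KK_nonneg he (y n - y n'))
  simp only [one_mul]
  linarith

end Pool.Agent.TH800.AI
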