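import Pool.Agent.TH800.AI.Ub

/-! The mean square of the increments in almost all windows. -/

open Complex Filter Topology Set MeasureTheory

namespace Pool.Agent.TH800.AI

open AH H177.Lat H370.A2
open SG (ord NZ)

lemma Sg.abs {σ : ℕ → ℝ} (hσ : Sg σ) (n : ℕ) : |σ n| ≤ 1 := by
  rcases hσ n with h | h <;> rw [h] <;> norm_num

/-- the upper bound in almost all windows -/
theorem ubw (hRH : RiemannHypothesis) (r : ℕ) (hr : 1 ≤ r) (δ : ℝ) (hδ : 0 < δ) (hδ1 : δ ≤ 1 / 10) :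
    ∃ L0 : ℕ, 8 ≤ L0 ∧ ∀ L : ℕ, L0 ≤ L → ∃ c εb : ℝ, 0 < c ∧ 0 < εb ∧
      AA (fun T t => ∀ σ : ℕ → ℝ, Sg σ →
        c * Mw T ≤ ((Bad (NZ t) (NZ (t + T / 8)) 1 εb (vs σ (yy T))).card : ℝ) ∨
        ∫ x, dd (Iw T t) σ (yy T) r L x ^ 2 ≤ (2 + 10 * δ) * L * Mw T) := by
  obtain ⟨L1, hL1⟩ : ∃ L1 : ℕ, 120 / δ ≤ L1 := ⟨_, Nat.le_ceil _⟩
  refine ⟨max 8 L1, le_max_left _ _, fun L hL => ?_⟩
  have hL8 : 8 ≤ L := (le_max_left _ _).trans hL
  have hLL1 : (L1 : ℝ) ≤ L := by exact_mod_cast (le_max_right _ _).trans hL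
  have hL8r : (8 : ℝ) ≤ L := by exact_mod_cast hL8
  have hL0 : (0 : ℝ) < L := by linarith
  have hr1 : (1 : ℝ) ≤ r := by exact_mod_cast hr
  have hL120 : 120 ≤ δ * L := by
    have := hL1.trans hLL1
    rw [div_le_iff₀ hδ] at this
    linarith
  have hΛ : Lam r = 52 * r := rfl
  have hΛ0 : 0 < Lam r := by rw [hΛ]; positivity
  have hΛ52 : 52 ≤ Lam r := by rw [hΛ]; linarith
  set e : ℝ := δ / (Lam r * L) with he
  have he0 : 0 < e := by positivity
  have heL : Lam r * e * L = δ := by rw [he]; field_simp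
  have he1 : e ≤ 1 / 100 := by
    have h1 : 52 * e * 8 ≤ Lam r * e * L := by
      apply mul_le_mul _ hL8r (by norm_num) (by positivity)
      exact mul_le_mul_of_nonneg_right hΛ52 he0.le
    linarith
  set e' : ℝ := e / L with he'
  have he'0 : 0 < e' := by positivity
  have he'1 : e' ≤ 1 / 100 := by
    rw [he', div_le_iff₀ hL0]
    linarith
  set K : ℕ := ⌈(L : ℝ) / (4 * e)⌉₊ with hK
  have hK1 : (L : ℝ) / 4 ≤ K * e := by
    have := Nat.le_ceil ((L : ℝ) / (4 * e))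
    rw [← hK, div_le_iff₀ (by positivity)] at this
    linarith
  have hK2 : (K : ℝ) * e ≤ L / 4 + e := by
    have h1 : (K : ℝ) ≤ (L : ℝ) / (4 * e) + 1 := (Nat.ceil_lt_add_one (by positivity)).le
    have h2 := mul_le_mul_of_nonneg_right h1 he0.le
    have h3 : ((L : ℝ) / (4 * e) + 1) * e = L / 4 + e := by field_simp
    linarith
  have hτ : ∀ k ∈ Finset.range K, 2 * e' ≤ (k + 2) * e' ∧ (k + 2) * e' + e' ≤ 1 / 2 := by
    intro k hk
    have hk1 : ((k : ℝ) + 1) ≤ K := by exact_mod_cast Finset.mem_range.1 hk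
    have hk0 : (0 : ℝ) ≤ k := Nat.cast_nonneg k
    constructor
    · nlinarith
    · have h1 : (k + 2) * e' + e' = ((k + 1) * e + 2 * e) / L := by
        rw [he']; field_simp; ring
      rw [h1, div_le_iff₀ hL0]
      have h2 : ((k : ℝ) + 1) * e ≤ K * e := mul_le_mul_of_nonneg_right hk1 he0.le
      linarith
  set ε : ℝ := δ * e' with hε
  have hε0 : 0 < ε := by positivity
  obtain ⟨c, εb, T1, hc, hεb, hss⟩ := ss_small hRH e' (δ / 2) he'0 (by positivity)
  refine ⟨c, εb, hc, hεb, ?_⟩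
  have a1 : AA (fun T t => ∀ k ∈ Finset.range K, |KS (Iw T t) (fun _ => 1) (yy T) e'
      (1 - (k + 2) * e') - (1 - (k + 2) * e') * e' * Mw T| ≤ ε * Mw T) := by
    apply AA.fin
    intro k hk
    obtain ⟨g1, g2⟩ := hτ k hk
    exact mt hRH e' (1 - (k + 2) * e') ε he'0 (by linarith) (by linarith) hε0
  have a2 := mt0 hRH (4 * e / L) (1 / 2) (by positivity) (by
    rw [div_lt_one hL0]; linarith) (by norm_num)
  have a3 := mt0 hRH (1 / 2) (1 / 2) (by norm_num) (by norm_num) (by norm_num)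
  refine ((a1.and a2).and a3).mono T1 fun T t hT hT100 ht1 ht2 h σ hσ => ?_
  obtain ⟨⟨h1, h2⟩, h3⟩ := h
  rcases hss T t hT hT100 ht1 ht2 σ with hbad | hgood
  · exact Or.inl hbad
  right
  have hM := Mw_pos hT100
  set M := Mw T with hMdef
  obtain ⟨_, hpl⟩ := planchD (Iw T t) σ (yy T) r hr hL0
  have hP := PD_le (Iw T t) σ (yy T) (Sg.abs hσ) r L K hr (by omega) he0 (by linarith)
  rw [hpl]
  have hKS : ∀ k ∈ Finset.range K, uw r e k * KS (Iw T t) σ (yy T) e' ((k + 2) * e') ≤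
      uw r e k * ((1 + 2 * δ) * e' * M) := by
    intro k hk
    obtain ⟨g1, g2⟩ := hτ k hk
    apply mul_le_mul_of_nonneg_left _ (uw_nonneg r he0 k)
    have g3 := (abs_le.1 (h1 k hk)).2
    have g4 := KS_sign_up (Iw T t) hσ (yy T) he'0 ((k + 2) * e')
    have g5 : (1 - (k + 2) * e') * e' * M ≤ 1 * e' * M := by
      apply mul_le_mul_of_nonneg_right _ hM.le
      apply mul_le_mul_of_nonneg_right _ he'0.le
      linarith
    have g6 : (1 + 2 * δ) * e' * M = 1 * e' * M + ε * M + 2 * (δ / 2 * e' * M) := by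
      rw [hε]; ring
    rw [g6]
    linarith
  have hsum := Finset.sum_le_sum hKS
  rw [← Finset.sum_mul] at hsum
  have hsum2 : (∑ k ∈ Finset.range K, uw r e k) * ((1 + 2 * δ) * e' * M) ≤
      (1 + δ) * (1 + 2 * δ) * M / L := by
    have g1 := uw_sum r hr he0 K
    rw [← Finset.sum_mul] at g1
    have g2 : 2 * K * (Lam r * e ^ 2) ≤ δ := by
      have g3 : 2 * K * (Lam r * e ^ 2) = 2 * (Lam r * e) * (K * e) := by ring
      rw [g3]
      have g4 : 2 * (Lam r * e) * (K * e) ≤ 2 * (Lam r * e) * (L / 2) := by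
        apply mul_le_mul_of_nonneg_left _ (by positivity)
        linarith
      linarith
    have g3 : (∑ k ∈ Finset.range K, uw r e k) * ((1 + 2 * δ) * e' * M) =
        ((∑ k ∈ Finset.range K, uw r e k) * e) * ((1 + 2 * δ) * M / L) := by
      rw [he']; field_simp
    have g4 : (1 + δ) * (1 + 2 * δ) * M / L = (1 + δ) * ((1 + 2 * δ) * M / L) := by ring
    rw [g3, g4]
    apply mul_le_mul_of_nonneg_right (by linarith) (by positivity)
  have h2' : KS (Iw T t) (fun _ => 1) (yy T) (4 * e / L) 0 ≤ 2 * M := by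
    refine h2.trans ?_
    apply mul_le_mul_of_nonneg_right _ hM.le
    have g1 : 4 * e / L ≤ 1 / 2 := by
      rw [div_le_iff₀ hL0]; linarith
    have g2 : 0 < 4 * e / L := by positivity
    nlinarith
  have h3' : KS (Iw T t) (fun _ => 1) (yy T) (1 / 2) 0 ≤ 2 * M := by
    refine h3.trans (le_of_eq ?_)
    norm_num
  have hlow : (L : ℝ) ^ 2 * (320 * (r : ℝ) ^ 2 * e ^ 2 *
      KS (Iw T t) (fun _ => 1) (yy T) (4 * e / L) 0) ≤ δ * L * M := by
    have g1 := mul_le_mul_of_nonneg_left h2' (by positivity :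
      (0 : ℝ) ≤ (L : ℝ) ^ 2 * (320 * (r : ℝ) ^ 2 * e ^ 2))
    have g2 : (L : ℝ) ^ 2 * (320 * (r : ℝ) ^ 2 * e ^ 2) * (2 * M) =
        640 / 52 ^ 2 * (Lam r * e * L) ^ 2 * M := by rw [hΛ]; ring
    rw [g2, heL] at g1
    have g3 : 640 / 52 ^ 2 * δ ^ 2 * M ≤ δ * L * M := by
      apply mul_le_mul_of_nonneg_right _ hM.le
      nlinarith
    linarith
  have htail : (L : ℝ) ^ 2 * (60 / (L : ℝ) ^ 2 *
      KS (Iw T t) (fun _ => 1) (yy T) (1 / 2) 0) ≤ δ * L * M := by
    have g1 := mul_le_mul_of_nonneg_left h3' (by positivity : (0 : ℝ) ≤ 60)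
    have g2 : (L : ℝ) ^ 2 * (60 / (L : ℝ) ^ 2 *
      KS (Iw T t) (fun _ => 1) (yy T) (1 / 2) 0) = 60 *
      KS (Iw T t) (fun _ => 1) (yy T) (1 / 2) 0 := by field_simp
    rw [g2]
    have g3 : 120 * M ≤ δ * L * M := mul_le_mul_of_nonneg_right hL120 hM.le
    linarith
  have hmid : (L : ℝ) ^ 2 * (2 * ∑ k ∈ Finset.range K, uw r e k *
      KS (Iw T t) σ (yy T) e' ((k + 2) * e')) ≤ (2 + 8 * δ) * L * M := by
    have g1 := mul_le_mul_of_nonneg_left (hsum.trans hsum2) (by positivity :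
      (0 : ℝ) ≤ 2 * (L : ℝ) ^ 2)
    have g2 : 2 * (L : ℝ) ^ 2 * ((1 + δ) * (1 + 2 * δ) * M / L) =
        (2 * ((1 + δ) * (1 + 2 * δ))) * (L * M) := by field_simp
    rw [g2] at g1
    have g3 : (2 * ((1 + δ) * (1 + 2 * δ))) * (L * M) ≤ (2 + 8 * δ) * (L * M) := by
      apply mul_le_mul_of_nonneg_right _ (by positivity)
      nlinarith
    linarith
  have hfin := mul_le_mul_of_nonneg_left hP (by positivity : (0 : ℝ) ≤ (L : ℝ) ^ 2)
  refine hfin.trans ?_
  rw [mul_add, mul_add]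
  linarith

/-- the lower bound in almost all windows -/
theorem lbwD (hRH : RiemannHypothesis) (r : ℕ) (hr : 1 ≤ r) (δ : ℝ) (hδ : 0 < δ) (hδ1 : δ ≤ 1 / 10) :
    ∃ L0 : ℕ, 8 ≤ L0 ∧ ∀ L : ℕ, L0 ≤ L → ∃ c εb : ℝ, 0 < c ∧ 0 < εb ∧
      AA (fun T t => ∀ σ : ℕ → ℝ, Sg σ →
        c * Mw T ≤ ((Bad (NZ t) (NZ (t + T / 8)) 1 εb (vs σ (yy T))).card : ℝ) ∨
        (2 - 10 * δ) * L * Mw T ≤ ∫ x, dd (Iw T t) σ (yy T) r L x ^ 2) := by
  have ht : Tendsto (fun A : ℝ => ∫ x in (0 : ℝ)..A, kr r x) atTop (𝓝 1) := by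
    rw [← kr_half r hr]
    exact intervalIntegral_tendsto_integral_Ioi 0 (kr_total r hr).1.integrableOn tendsto_id
  obtain ⟨A, hA1, hA2⟩ := ((ht.eventually (lt_mem_nhds
    (show (1 - δ : ℝ) < 1 by linarith))).and (eventually_ge_atTop 1)).exists
  have hA0 : 0 < A := by linarith
  have hr1 : (1 : ℝ) ≤ r := by exact_mod_cast hr
  have hΛ0 : 0 < Lam r := by
    have : Lam r = 52 * r := rfl
    rw [this]; positivity
  set e : ℝ := min 1 (min (δ / 16) (δ / (4 * Lam r * (A + 1)))) with he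
  have he0 : 0 < e := lt_min one_pos (lt_min (by positivity) (by positivity))
  have he1 : e ≤ 1 := min_le_left _ _
  have he2 : e ≤ δ / 16 := (min_le_right _ _).trans (min_le_left _ _)
  have he3 : e ≤ δ / (4 * Lam r * (A + 1)) := (min_le_right _ _).trans (min_le_right _ _)
  set K : ℕ := ⌈A / e⌉₊ with hK
  have hK1 : A ≤ K * e := by
    have := Nat.le_ceil (A / e)
    rwa [div_le_iff₀ he0] at this
  have hK2 : K * e ≤ A + 1 := by
    have := (Nat.ceil_lt_add_one (by positivity : 0 ≤ A / e)).le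
    have h2 : (K : ℝ) * e ≤ (A / e + 1) * e := mul_le_mul_of_nonneg_right this he0.le
    have h3 : (A / e + 1) * e = A + e := by field_simp
    linarith
  have hsum : 1 - 2 * δ ≤ ∑ k ∈ Finset.range K, lw r e k * e := by
    have h1 := lw_sum r hr he0 K
    have h2 : 2 * K * (Lam r * e ^ 2) ≤ δ / 2 := by
      have h3 : 2 * K * (Lam r * e ^ 2) = (2 * Lam r * (K * e)) * e := by ring
      rw [h3]
      have h4 : (2 * Lam r * (K * e)) * e ≤ (2 * Lam r * (A + 1)) *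
          (δ / (4 * Lam r * (A + 1))) := by
        apply mul_le_mul _ he3 he0.le (by positivity)
        exact mul_le_mul_of_nonneg_left hK2 (by positivity)
      have h5 : (2 * Lam r * (A + 1)) * (δ / (4 * Lam r * (A + 1))) = δ / 2 := by
        field_simp
        norm_num
      linarith
    have h3 : ∫ x in (0 : ℝ)..A, kr r x ≤ ∫ x in (0 : ℝ)..((K + 2 : ℝ) * e), kr r x := by
      apply intervalIntegral.integral_mono_interval le_rfl (by linarith) (by nlinarith)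
      · exact Filter.Eventually.of_forall fun x => kr_nonneg r x
      · exact (kr_cont r).intervalIntegrable _ _
    linarith
  obtain ⟨L1, hL1⟩ : ∃ L1 : ℕ, (K + 2) * e / δ ≤ L1 := ⟨_, Nat.le_ceil _⟩
  refine ⟨max 8 L1, le_max_left _ _, fun L hL => ?_⟩
  have hL8 : 8 ≤ L := (le_max_left _ _).trans hL
  have hLL1 : (L1 : ℝ) ≤ L := by exact_mod_cast (le_max_right _ _).trans hL
  have hL8r : (8 : ℝ) ≤ L := by exact_mod_cast hL8
  have hL0 : (0 : ℝ) < L := by linarith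
  set e' : ℝ := e / L with he'
  have he'0 : 0 < e' := by positivity
  set τm : ℝ := (K + 2) * e' with hτm
  have hτ1 : τm ≤ δ := by
    rw [div_le_iff₀ hδ] at hL1
    have : τm = (K + 2) * e / L := by rw [hτm, he']; ring
    rw [this, div_le_iff₀ hL0]
    have h2 : (L1 : ℝ) * δ ≤ L * δ :=
      mul_le_mul_of_nonneg_right hLL1 (by positivity)
    linarith
  set ε : ℝ := δ * e' with hε
  have hε0 : 0 < ε := by positivity
  obtain ⟨c, εb, T1, hc, hεb, hss⟩ := ss_small hRH e' (δ / 2) he'0 (by positivity)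
  refine ⟨c, εb, hc, hεb, ?_⟩
  have hτk : ∀ k ∈ Finset.range K, 2 * e' ≤ (k + 2) * e' ∧ (k + 2) * e' + e' ≤ τm := by
    intro k hk
    have hk1 : ((k : ℝ) + 1) ≤ K := by exact_mod_cast Finset.mem_range.1 hk
    have hk0 : (0 : ℝ) ≤ k := Nat.cast_nonneg k
    constructor
    · nlinarith
    · rw [hτm]; nlinarith
  have a1 : AA (fun T t => ∀ k ∈ Finset.range K, |KS (Iw T t) (fun _ => 1) (yy T) e'
      (1 - (k + 2) * e') - (1 - (k + 2) * e') * e' * Mw T| ≤ ε * Mw T) := by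
    apply AA.fin
    intro k hk
    obtain ⟨g1, g2⟩ := hτk k hk
    exact mt hRH e' (1 - (k + 2) * e') ε he'0 (by linarith) (by linarith) hε0
  refine a1.mono T1 fun T t hT hT100 ht1 ht2 h1 σ hσ => ?_
  rcases hss T t hT hT100 ht1 ht2 σ with hbad | hgood
  · exact Or.inl hbad
  right
  have hM := Mw_pos hT100
  set M := Mw T with hMdef
  have hP := lowD (Iw T t) σ (yy T) r hr L hL0 K e he0
  refine le_trans ?_ hP
  have hKS : ∀ k ∈ Finset.range K, lw r e k * ((1 - 3 * δ) * e' * M) ≤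
      lw r e k * KS (Iw T t) σ (yy T) e' ((k + 2) * e') := by
    intro k hk
    obtain ⟨g1, g2⟩ := hτk k hk
    apply mul_le_mul_of_nonneg_left _ (lw_nonneg r e k)
    have g3 := (abs_le.1 (h1 k hk)).1
    have g4 := KS_sign (Iw T t) hσ (yy T) he'0 ((k + 2) * e')
    have g5 : (1 - δ) * e' * M ≤ (1 - (k + 2) * e') * e' * M := by
      apply mul_le_mul_of_nonneg_right _ hM.le
      apply mul_le_mul_of_nonneg_right _ he'0.le
      linarith
    have g6 : (1 - 3 * δ) * e' * M = (1 - δ) * e' * M - ε * M - 2 * (δ / 2 * e' * M) := by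
      rw [hε]; ring
    rw [g6]
    linarith
  have hsum1 := Finset.sum_le_sum hKS
  rw [← Finset.sum_mul] at hsum1
  have hsum2 : (1 - 2 * δ) * ((1 - 3 * δ) * M / L) ≤
      (∑ k ∈ Finset.range K, lw r e k) * ((1 - 3 * δ) * e' * M) := by
    have g3 : (∑ k ∈ Finset.range K, lw r e k) * ((1 - 3 * δ) * e' * M) =
        (∑ k ∈ Finset.range K, lw r e k * e) * ((1 - 3 * δ) * M / L) := by
      rw [← Finset.sum_mul, he']; field_simp
    rw [g3]
    apply mul_le_mul_of_nonneg_right hsum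
    have : 0 ≤ 1 - 3 * δ := by linarith
    positivity
  have g1 := mul_le_mul_of_nonneg_left (hsum2.trans hsum1) (by positivity :
      (0 : ℝ) ≤ 2 * (L : ℝ) ^ 2)
  have g2 : 2 * (L : ℝ) ^ 2 * ((1 - 2 * δ) * ((1 - 3 * δ) * M / L)) =
        (2 * ((1 - 2 * δ) * (1 - 3 * δ))) * (L * M) := by field_simp
  rw [g2] at g1
  have g3 : (2 - 10 * δ) * (L * M) ≤ (2 * ((1 - 2 * δ) * (1 - 3 * δ))) * (L * M) := by
    apply mul_le_mul_of_nonneg_right _ (by positivity)
    nlinarith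
  linarith

end Pool.Agent.TH800.AI
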