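import Pool.Agent.TH800.AI.Wn

/-! The lower bound for all linear combinations of block sums. -/

open Complex Filter Topology Set MeasureTheory

namespace Pool.Agent.TH800.AI

open AH H177.Lat H370.A2
open SG (ord NZ)

/-- weights shifted to the block with number `l` -/
noncomputable def blk (a : ℕ → ℝ) (k l i : ℕ) : ℝ :=
  if l * k ≤ i ∧ i < l * k + k then a (i - l * k) else 0

lemma blk_sum (a x : ℕ → ℝ) (k l m : ℕ) (hl : l < m) :
    ∑ i ∈ Finset.range (m * k), blk a k l i * x i = ∑ i ∈ Finset.range k, a i * x (l * k + i) := by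
  have hf : (Finset.range (m * k)).filter (fun i => l * k ≤ i ∧ i < l * k + k) =
      Finset.Ico (l * k) (l * k + k) := by
    ext i
    rw [Finset.mem_filter, Finset.mem_range, Finset.mem_Ico]
    constructor
    · exact fun h => h.2
    · intro h
      have h1 : (l + 1) * k ≤ m * k := Nat.mul_le_mul_right k hl
      have h2 : (l + 1) * k = l * k + k := by ring
      exact ⟨by omega, h⟩
  have h1 : ∀ i ∈ Finset.range (m * k), blk a k l i * x i =
      if l * k ≤ i ∧ i < l * k + k then a (i - l * k) * x i else 0 := by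
    intro i _
    unfold blk
    split_ifs <;> ring
  rw [Finset.sum_congr rfl h1, ← Finset.sum_filter, hf, Finset.sum_Ico_eq_sum_range]
  have h2 : l * k + k - l * k = k := by omega
  rw [h2]
  refine Finset.sum_congr rfl fun i _ => ?_
  have h3 : l * k + i - l * k = i := by omega
  rw [h3]

lemma blk_mul (a : ℕ → ℝ) (k l l' i : ℕ) (h : l ≠ l') : blk a k l i * blk a k l' i = 0 := by
  unfold blk
  split_ifs with h1 h2
  · exfalso
    rcases Nat.lt_or_gt_of_ne h with h3 | h3
    · have h4 : (l + 1) * k ≤ l' * k := Nat.mul_le_mul_right k h3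
      have h5 : (l + 1) * k = l * k + k := by ring
      omega
    · have h4 : (l' + 1) * k ≤ l * k := Nat.mul_le_mul_right k h3
      have h5 : (l' + 1) * k = l' * k + k := by ring
      omega
  · ring
  · ring
  · ring

lemma blk_abs (a : ℕ → ℝ) (ha : ∀ i, |a i| ≤ 1) (k l i : ℕ) : |blk a k l i| ≤ 1 := by
  unfold blk
  split_ifs
  · exact ha _
  · simp

lemma blk_sq (a : ℕ → ℝ) (k l i : ℕ) : blk a k l i ^ 2 = blk (fun i => a i ^ 2) k l i := by
  unfold blk
  split_ifs <;> simp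

/-- a linear combination of block sums -/
noncomputable def ZZ (σ a : ℕ → ℝ) (k L n : ℕ) : ℝ :=
  ∑ i ∈ Finset.range k, a i * BB σ L (n + i * L)

lemma ZZ_abs {σ : ℕ → ℝ} (hσ : Sg σ) (a : ℕ → ℝ) (ha : ∀ i, |a i| ≤ 1) (k L n : ℕ) :
    |ZZ σ a k L n| ≤ k * L := by
  have hB : ∀ n, |BB σ L n| ≤ L := by
    intro n
    unfold BB
    refine (Finset.abs_sum_le_sum_abs _ _).trans ?_
    refine (Finset.sum_le_sum fun j _ => Sg.abs hσ (n + j)).trans ?_
    rw [Finset.sum_const, Finset.card_range, nsmul_eq_mul, mul_one]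
  unfold ZZ
  refine (Finset.abs_sum_le_sum_abs _ _).trans ?_
  have h1 : ∀ i ∈ Finset.range k, |a i * BB σ L (n + i * L)| ≤ L := by
    intro i _
    rw [abs_mul]
    have := mul_le_mul (ha i) (hB (n + i * L)) (abs_nonneg _) zero_le_one
    linarith
  refine (Finset.sum_le_sum h1).trans ?_
  rw [Finset.sum_const, Finset.card_range, nsmul_eq_mul]

lemma ZZ_diff (σ a : ℕ → ℝ) (k L n l l' m : ℕ) (hl : l < m) (hl' : l' < m) :
    ∑ i ∈ Finset.range (m * k), (blk a k l i - blk a k l' i) * BB σ L (n + i * L) =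
      ZZ σ a k L (n + l * (k * L)) - ZZ σ a k L (n + l' * (k * L)) := by
  simp_rw [sub_mul]
  rw [Finset.sum_sub_distrib, blk_sum a (fun i => BB σ L (n + i * L)) k l m hl,
    blk_sum a (fun i => BB σ L (n + i * L)) k l' m hl']
  unfold ZZ
  have e : ∀ l : ℕ, ∑ i ∈ Finset.range k, a i * BB σ L (n + (l * k + i) * L) =
      ∑ i ∈ Finset.range k, a i * BB σ L (n + l * (k * L) + i * L) := by
    intro l
    refine Finset.sum_congr rfl fun i _ => ?_
    congr 2
    ring
  rw [e l, e l']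

lemma pair_le (m : ℕ) (x : ℕ → ℝ) :
    ∑ l ∈ Finset.range m, ∑ l' ∈ Finset.range m, (x l - x l') ^ 2 ≤
      2 * m * ∑ l ∈ Finset.range m, x l ^ 2 := by
  have h1 : ∀ l ∈ Finset.range m, ∑ l' ∈ Finset.range m, (x l - x l') ^ 2 =
      m * x l ^ 2 - 2 * (x l * ∑ l' ∈ Finset.range m, x l') + ∑ l' ∈ Finset.range m, x l' ^ 2 := by
    intro l _
    have h2 : ∀ l' ∈ Finset.range m, (x l - x l') ^ 2 = x l ^ 2 - 2 * (x l * x l') + x l' ^ 2 :=
      fun l' _ => by ring
    rw [Finset.sum_congr rfl h2, Finset.sum_add_distrib, Finset.sum_sub_distrib, Finset.sum_const,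
      Finset.card_range, nsmul_eq_mul, ← Finset.mul_sum, ← Finset.mul_sum]
  rw [Finset.sum_congr rfl h1, Finset.sum_add_distrib, Finset.sum_sub_distrib, ← Finset.mul_sum,
    ← Finset.mul_sum, ← Finset.sum_mul, Finset.sum_const, Finset.card_range, nsmul_eq_mul]
  nlinarith [sq_nonneg (∑ l ∈ Finset.range m, x l)]

lemma num_aux {m A V X E δ k : ℝ} (hm : 1 ≤ m) (hδ : 0 < δ) (hX : 0 ≤ X)
    (hA : A ≤ k) (hkm : 4 * k ≤ δ * m) (hE : E ≤ δ / 4 * X)
    (h : m * (m - 1) * ((2 * A - δ / 2) * X) ≤ 2 * m * (m * (V + E))) : (A - δ) * X ≤ V := by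
  have hm0 : 0 < m := by linarith
  have h1 : (m - 1) * ((A - δ / 4) * X) ≤ m * (V + E) := by
    have h2 : 2 * m * ((m - 1) * ((A - δ / 4) * X)) ≤ 2 * m * (m * (V + E)) := by
      refine le_trans (le_of_eq ?_) h
      ring
    exact le_of_mul_le_mul_left h2 (by positivity)
  have h3 : m * ((A - δ / 2) * X) ≤ m * (V + E) := by
    refine le_trans ?_ h1
    have h4 : A * X ≤ δ * m / 4 * X := mul_le_mul_of_nonneg_right (by linarith) hX
    have h5 : 0 ≤ δ * X := by positivity
    have e1 : m * ((A - δ / 2) * X) = m * (A * X) - m * (δ * X) / 2 := by ring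
    have e2 : (m - 1) * ((A - δ / 4) * X) = m * (A * X) - m * (δ * X) / 4 - A * X + δ * X / 4 := by
      ring
    have e3 : δ * m / 4 * X = m * (δ * X) / 4 := by ring
    rw [e1, e2]
    rw [e3] at h4
    linarith
  have h6 := le_of_mul_le_mul_left h3 hm0
  have h7 : 0 ≤ δ * X := by positivity
  linarith

/-- the lower bound for all linear combinations -/
theorem wl (hRH : RiemannHypothesis) (δ : ℝ) (hδ : 0 < δ) (k : ℕ) :
    ∃ L0 : ℕ, 8 ≤ L0 ∧ ∀ L : ℕ, L0 ≤ L → ∃ ε : ℝ, 0 < ε ∧ ∃ N0 : ℕ, ∀ N : ℕ, N0 ≤ N →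
      ∀ σ : ℕ → ℝ, Sg σ → ε * N ≤ EN σ ε N ∨ ∀ a : ℕ → ℝ, (∀ i, |a i| ≤ 1) →
        ∀ μ : ℝ, |μ| ≤ k * L →
        ((∑ i ∈ Finset.range k, a i ^ 2) - δ) * (L * N) ≤
          ∑ n ∈ Finset.Icc 1 N, (ZZ σ a k L n - μ) ^ 2 := by
  obtain ⟨m0, hm0⟩ : ∃ m0 : ℕ, 4 * k / δ ≤ m0 := ⟨_, Nat.le_ceil _⟩
  set m : ℕ := max 1 m0 with hm
  have hm1 : 1 ≤ m := le_max_left _ _
  have hm1r : (1 : ℝ) ≤ m := by exact_mod_cast hm1
  have hkm : 4 * (k : ℝ) ≤ δ * m := by
    have h1 : (m0 : ℝ) ≤ m := by exact_mod_cast le_max_right 1 m0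
    have h2 := hm0.trans h1
    rw [div_le_iff₀ hδ] at h2
    linarith
  obtain ⟨L0, hL0, h⟩ := wn hRH (δ / 2) (by positivity) (m * k)
  refine ⟨L0, hL0, fun L hL => ?_⟩
  have hL8 : (8 : ℝ) ≤ L := by exact_mod_cast hL0.trans hL
  have hLp : (0 : ℝ) < L := by linarith
  obtain ⟨ε, hε, N0, h0⟩ := h L hL
  set Q : ℝ := 4 * (k : ℝ) ^ 2 * (L : ℝ) ^ 2 with hQ
  have hQ0 : 0 ≤ Q := by positivity
  obtain ⟨N1, hN1⟩ : ∃ N1 : ℕ, m * k * Q * 4 / δ ≤ N1 := ⟨_, Nat.le_ceil _⟩
  refine ⟨ε, hε, max N0 N1, fun N hN σ hσ => ?_⟩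
  rcases h0 N ((le_max_left _ _).trans hN) σ hσ with g | g
  · exact Or.inl g
  right
  intro a ha μ hμ
  have hNN1 : (N1 : ℝ) ≤ N := by exact_mod_cast (le_max_right _ _).trans hN
  have hN2 : m * k * Q * 4 ≤ δ * N := by
    have := hN1.trans hNN1
    rw [div_le_iff₀ hδ] at this
    linarith
  set X : ℝ := L * N with hX
  have hX0 : 0 ≤ X := by positivity
  set A : ℝ := ∑ i ∈ Finset.range k, a i ^ 2 with hA
  have hAk : A ≤ k := by
    have h1 : ∀ i ∈ Finset.range k, a i ^ 2 ≤ 1 := by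
      intro i _
      rw [← sq_abs]
      exact pow_le_one₀ (abs_nonneg _) (ha i)
    have h2 := Finset.sum_le_sum h1
    rw [Finset.sum_const, Finset.card_range, nsmul_eq_mul, mul_one] at h2
    exact h2
  set F : ℕ → ℝ := fun n => ZZ σ a k L n - μ with hF
  have hFQ : ∀ n, F n ^ 2 ≤ Q := by
    intro n
    have h1 : |F n| ≤ 2 * k * L := by
      simp only [hF]
      refine (abs_sub _ _).trans ?_
      have := ZZ_abs hσ a ha k L n
      linarith
    rw [← sq_abs]
    have h2 := pow_le_pow_left₀ (abs_nonneg _) h1 2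
    rw [hQ]
    linarith
  set V : ℝ := ∑ n ∈ Finset.Icc 1 N, F n ^ 2 with hV
  set E : ℝ := m * k * L * Q with hE
  have hEle : E ≤ δ / 4 * X := by
    have := mul_le_mul_of_nonneg_right hN2 hLp.le
    rw [hE, hX]
    linarith
  -- shifts
  have hsh : ∀ l ∈ Finset.range m, ∑ n ∈ Finset.Icc 1 N, F (n + l * (k * L)) ^ 2 ≤ V + E := by
    intro l hl
    have h1 := (abs_le.1 (shift_s (fun n => F n ^ 2) Q (fun n => sq_nonneg _) hFQ N
      (l * (k * L)))).2
    have h2 : ((l * (k * L) : ℕ) : ℝ) * Q ≤ E := by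
      rw [hE]
      push_cast
      have hlm : (l : ℝ) ≤ m := by exact_mod_cast (Finset.mem_range.1 hl).le
      have : (l : ℝ) * (k * L) ≤ m * (k * L) := mul_le_mul_of_nonneg_right hlm (by positivity)
      have := mul_le_mul_of_nonneg_right this hQ0
      linarith
    rw [hV]
    linarith
  -- pairs
  have hpr : ∀ l ∈ Finset.range m, ∀ l' ∈ Finset.range m,
      (if l = l' then 0 else (2 * A - δ / 2) * X) ≤
        ∑ n ∈ Finset.Icc 1 N, (F (n + l * (k * L)) - F (n + l' * (k * L))) ^ 2 := by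
    intro l hl l' hl'
    rw [Finset.mem_range] at hl hl'
    split_ifs with hll
    · exact Finset.sum_nonneg fun n _ => sq_nonneg _
    · have hc0 : ∀ i, |blk a k l i - blk a k l' i| ≤ 1 := by
        intro i
        have h1 := blk_mul a k l l' i hll
        rcases mul_eq_zero.1 h1 with h2 | h2
        · rw [h2, zero_sub, abs_neg]
          exact blk_abs a ha k l' i
        · rw [h2, sub_zero]
          exact blk_abs a ha k l i
      have hs : ∀ (b : ℕ → ℝ) (l : ℕ), l < m → ∑ i ∈ Finset.range (m * k), blk b k l i =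
          ∑ i ∈ Finset.range k, b i := by
        intro b l hl
        have h1 := blk_sum b (fun _ => 1) k l m hl
        simpa using h1
      have hc1 : ∑ i ∈ Finset.range (m * k), (blk a k l i - blk a k l' i) = 0 := by
        rw [Finset.sum_sub_distrib, hs a l hl, hs a l' hl', sub_self]
      have hc2 : ∑ i ∈ Finset.range (m * k), (blk a k l i - blk a k l' i) ^ 2 = 2 * A := by
        have h1 : ∀ i ∈ Finset.range (m * k), (blk a k l i - blk a k l' i) ^ 2 =
            blk (fun i => a i ^ 2) k l i + blk (fun i => a i ^ 2) k l' i := by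
          intro i _
          rw [← blk_sq, ← blk_sq]
          have := blk_mul a k l l' i hll
          linear_combination (-2) * this
        rw [Finset.sum_congr rfl h1, Finset.sum_add_distrib, hs _ l hl, hs _ l' hl']
        rw [hA]
        ring
      have h1 := g (fun i => blk a k l i - blk a k l' i) hc0 hc1
      rw [hc2] at h1
      have h2 := (abs_le.1 h1).1
      have h3 : ∑ n ∈ Finset.Icc 1 N, (∑ i ∈ Finset.range (m * k),
          (blk a k l i - blk a k l' i) * BB σ L (n + i * L)) ^ 2 =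
          ∑ n ∈ Finset.Icc 1 N, (F (n + l * (k * L)) - F (n + l' * (k * L))) ^ 2 := by
        refine Finset.sum_congr rfl fun n _ => ?_
        rw [ZZ_diff σ a k L n l l' m hl hl']
        simp only [hF]
        ring
      rw [h3] at h2
      linarith
  have hsum1 : m * (m - 1) * ((2 * A - δ / 2) * X) ≤ ∑ l ∈ Finset.range m, ∑ l' ∈ Finset.range m,
      ∑ n ∈ Finset.Icc 1 N, (F (n + l * (k * L)) - F (n + l' * (k * L))) ^ 2 := by
    refine le_trans (le_of_eq ?_) (Finset.sum_le_sum fun l hl => Finset.sum_le_sum fun l' hl' =>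
      hpr l hl l' hl')
    have h1 : ∀ l ∈ Finset.range m, ∑ l' ∈ Finset.range m,
        (if l = l' then 0 else (2 * A - δ / 2) * X) = (m - 1) * ((2 * A - δ / 2) * X) := by
      intro l hl
      have h2 : ∀ l' ∈ Finset.range m, (if l = l' then 0 else (2 * A - δ / 2) * X) =
          (2 * A - δ / 2) * X - (if l = l' then (2 * A - δ / 2) * X else 0) := by
        intro l' _
        split_ifs <;> ring
      rw [Finset.sum_congr rfl h2, Finset.sum_sub_distrib, Finset.sum_ite_eq, if_pos hl,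
        Finset.sum_const, Finset.card_range, nsmul_eq_mul]
      ring
    rw [Finset.sum_congr rfl h1, Finset.sum_const, Finset.card_range, nsmul_eq_mul]
    ring
  have hsum2 : ∑ l ∈ Finset.range m, ∑ l' ∈ Finset.range m,
      ∑ n ∈ Finset.Icc 1 N, (F (n + l * (k * L)) - F (n + l' * (k * L))) ^ 2 ≤
      2 * m * (m * (V + E)) := by
    have e1 : ∑ l ∈ Finset.range m, ∑ l' ∈ Finset.range m,
        ∑ n ∈ Finset.Icc 1 N, (F (n + l * (k * L)) - F (n + l' * (k * L))) ^ 2 =
        ∑ n ∈ Finset.Icc 1 N, ∑ l ∈ Finset.range m, ∑ l' ∈ Finset.range m,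
          (F (n + l * (k * L)) - F (n + l' * (k * L))) ^ 2 := by
      rw [Finset.sum_comm (s := Finset.Icc 1 N)]
      refine Finset.sum_congr rfl fun l _ => ?_
      rw [Finset.sum_comm]
    rw [e1]
    have h1 : ∀ n ∈ Finset.Icc 1 N, ∑ l ∈ Finset.range m, ∑ l' ∈ Finset.range m,
          (F (n + l * (k * L)) - F (n + l' * (k * L))) ^ 2 ≤
          2 * m * ∑ l ∈ Finset.range m, F (n + l * (k * L)) ^ 2 := fun n _ =>
      pair_le m (fun l => F (n + l * (k * L)))
    refine (Finset.sum_le_sum h1).trans ?_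
    rw [← Finset.mul_sum, Finset.sum_comm]
    apply mul_le_mul_of_nonneg_left _ (by positivity)
    refine (Finset.sum_le_sum hsh).trans ?_
    rw [Finset.sum_const, Finset.card_range, nsmul_eq_mul]
  exact num_aux hm1r hδ hX0 hAk hkm hEle (hsum1.trans hsum2)

end Pool.Agent.TH800.AI
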