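import Pool.Agent.TH800.AI.FiD

/-! Linear combinations of block sums. -/

open Complex Filter Topology Set MeasureTheory

namespace Pool.Agent.TH800.AI

open AH H177.Lat H370.A2
open SG (ord NZ)

/-- the exceptional spacings among the first `N` -/
noncomputable def EN (σ : ℕ → ℝ) (ε : ℝ) (N : ℕ) : ℝ :=
  ({n : ℕ | 1 ≤ n ∧ n ≤ N ∧ Ex σ ε n}.ncard : ℝ)

lemma EN_mono {σ : ℕ → ℝ} {ε ε' : ℝ} (h : ε ≤ ε') (N : ℕ) : EN σ ε' N ≤ EN σ ε N := by
  unfold EN
  have hsub : {n : ℕ | 1 ≤ n ∧ n ≤ N ∧ Ex σ ε' n} ⊆ {n : ℕ | 1 ≤ n ∧ n ≤ N ∧ Ex σ ε n} := by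
    rintro n ⟨h1, h2, h3⟩
    exact ⟨h1, h2, Ex_anti h h3⟩
  have hfin : {n : ℕ | 1 ≤ n ∧ n ≤ N ∧ Ex σ ε n}.Finite :=
    (Set.finite_Iic N).subset fun n hn => hn.2.1
  exact_mod_cast Set.ncard_le_ncard hsub hfin

/-- all lags below `k` -/
theorem allr (hRH : RiemannHypothesis) (δ : ℝ) (hδ : 0 < δ) (hδ1 : δ ≤ 1) (k : ℕ) :
    ∃ L0 : ℕ, 8 ≤ L0 ∧ ∀ L : ℕ, L0 ≤ L → ∃ ε : ℝ, 0 < ε ∧ ∃ N0 : ℕ, ∀ N : ℕ, N0 ≤ N →
      ∀ σ : ℕ → ℝ, Sg σ → ε * N ≤ EN σ ε N ∨ ∀ r : ℕ, 1 ≤ r → r < k →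
        |∑ n ∈ Finset.Icc 1 N, Dn σ r L n ^ 2 - 2 * L * N| ≤ δ * L * N := by
  induction k with
  | zero => exact ⟨8, le_rfl, fun L _ => ⟨1, one_pos, 0, fun N _ σ _ => Or.inr fun r _ h => by omega⟩⟩
  | succ k ih =>
    obtain ⟨L0, hL0, h⟩ := ih
    rcases Nat.eq_zero_or_pos k with hk | hk
    · refine ⟨8, le_rfl, fun L _ => ⟨1, one_pos, 0, fun N _ σ _ => Or.inr fun r h1 h2 => by omega⟩⟩
    obtain ⟨L1, hL1, h'⟩ := mainD hRH k hk δ hδ hδ1
    refine ⟨max L0 L1, hL0.trans (le_max_left _ _), fun L hL => ?_⟩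
    obtain ⟨ε, hε, N0, h0⟩ := h L ((le_max_left _ _).trans hL)
    obtain ⟨ε1, hε1, N1, h1⟩ := h' L ((le_max_right _ _).trans hL)
    refine ⟨min ε ε1, lt_min hε hε1, max N0 N1, fun N hN σ hσ => ?_⟩
    have hNn : (0 : ℝ) ≤ N := Nat.cast_nonneg N
    rcases h0 N ((le_max_left _ _).trans hN) σ hσ with g | g
    · left
      refine le_trans ?_ (g.trans (EN_mono (min_le_left _ _) N))
      exact mul_le_mul_of_nonneg_right (min_le_left _ _) hNn
    · by_cases hc : δ * L * N ≤ |∑ n ∈ Finset.Icc 1 N, Dn σ k L n ^ 2 - 2 * L * N|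
      · left
        have g2 := h1 N ((le_max_right _ _).trans hN) σ hσ hc
        refine le_trans ?_ (le_trans (b := EN σ ε1 N) g2 (EN_mono (min_le_right _ _) N))
        exact mul_le_mul_of_nonneg_right (min_le_right _ _) hNn
      · right
        push Not at hc
        intro r hr1 hr2
        rcases Nat.lt_or_ge r k with hrk | hrk
        · exact g r hr1 hrk
        · have : r = k := by omega
          rw [this]
          exact hc.le

lemma shift_one (g : ℕ → ℝ) (N : ℕ) :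
    ∑ n ∈ Finset.Icc 1 N, g (n + 1) = ∑ n ∈ Finset.Icc 1 N, g n + g (N + 1) - g 1 := by
  induction N with
  | zero => simp
  | succ N ih =>
    rw [Finset.sum_Icc_succ_top (by omega), Finset.sum_Icc_succ_top (by omega), ih]
    ring

lemma shift_s (f : ℕ → ℝ) (Q : ℝ) (h0 : ∀ n, 0 ≤ f n) (hQ : ∀ n, f n ≤ Q) (N s : ℕ) :
    |∑ n ∈ Finset.Icc 1 N, f (n + s) - ∑ n ∈ Finset.Icc 1 N, f n| ≤ s * Q := by
  induction s with
  | zero => simp
  | succ s ih =>
    have h1 := shift_one (fun n => f (n + s)) N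
    have h2 : ∑ n ∈ Finset.Icc 1 N, f (n + (s + 1)) = ∑ n ∈ Finset.Icc 1 N, f (n + 1 + s) :=
      Finset.sum_congr rfl fun n _ => by congr 1; omega
    rw [h2, h1]
    obtain ⟨g1, g2⟩ := abs_le.1 ih
    have q1 := h0 (N + 1 + s)
    have q2 := hQ (N + 1 + s)
    have q3 := h0 (1 + s)
    have q4 := hQ (1 + s)
    push_cast
    rw [abs_le]
    constructor <;> linarith

/-- the mean square of a difference of two block sums -/
noncomputable def MM (σ : ℕ → ℝ) (L N i j : ℕ) : ℝ :=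
  ∑ n ∈ Finset.Icc 1 N, (BB σ L (n + i * L) - BB σ L (n + j * L)) ^ 2

lemma MM_symm (σ : ℕ → ℝ) (L N i j : ℕ) : MM σ L N i j = MM σ L N j i := by
  unfold MM
  exact Finset.sum_congr rfl fun n _ => by ring

lemma MM_self (σ : ℕ → ℝ) (L N i : ℕ) : MM σ L N i i = 0 := by
  unfold MM
  exact Finset.sum_eq_zero fun n _ => by ring

lemma MM_lt {σ : ℕ → ℝ} (hσ : Sg σ) (L N i j : ℕ) (hij : i < j) :
    |MM σ L N i j - ∑ n ∈ Finset.Icc 1 N, Dn σ (j - i) L n ^ 2| ≤ (i * L) * (4 * (L : ℝ) ^ 2) := by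
  have h := shift_s (fun n => Dn σ (j - i) L n ^ 2) (4 * (L : ℝ) ^ 2) (fun n => sq_nonneg _)
    (fun n => Dn_bound hσ _ L n) N (i * L)
  have e : MM σ L N i j = ∑ n ∈ Finset.Icc 1 N, Dn σ (j - i) L (n + i * L) ^ 2 := by
    unfold MM
    refine Finset.sum_congr rfl fun n _ => ?_
    rw [Dn_eq]
    have e1 : n + i * L + (j - i) * L = n + j * L := by
      have : j = i + (j - i) := by omega
      conv_rhs => rw [this]
      ring
    rw [e1]
    ring
  rw [e]
  push_cast at h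
  exact h

lemma sq_id (k : ℕ) (a x : ℕ → ℝ) (ha : ∑ i ∈ Finset.range k, a i = 0) :
    (∑ i ∈ Finset.range k, a i * x i) ^ 2 =
      -(1 / 2) * ∑ i ∈ Finset.range k, ∑ j ∈ Finset.range k, a i * a j * (x i - x j) ^ 2 := by
  have h1 : ∀ i ∈ Finset.range k, ∑ j ∈ Finset.range k, a i * a j * (x i - x j) ^ 2 =
      a i * x i ^ 2 * (∑ j ∈ Finset.range k, a j) - 2 * (a i * x i) * (∑ j ∈ Finset.range k, a j * x j) +
      a i * (∑ j ∈ Finset.range k, a j * x j ^ 2) := by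
    intro i _
    rw [Finset.mul_sum, Finset.mul_sum, Finset.mul_sum, ← Finset.sum_sub_distrib,
      ← Finset.sum_add_distrib]
    exact Finset.sum_congr rfl fun j _ => by ring
  rw [Finset.sum_congr rfl h1, Finset.sum_add_distrib, Finset.sum_sub_distrib, ← Finset.sum_mul,
    ← Finset.sum_mul, ← Finset.sum_mul, ← Finset.mul_sum, ha]
  ring

lemma sum_id (k : ℕ) (a : ℕ → ℝ) (ha : ∑ i ∈ Finset.range k, a i = 0) (X : ℝ) :
    (∑ i ∈ Finset.range k, a i ^ 2) * X =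
      -(1 / 2) * ∑ i ∈ Finset.range k, ∑ j ∈ Finset.range k,
        a i * a j * (if i = j then 0 else 2 * X) := by
  have h1 : ∀ i ∈ Finset.range k, ∑ j ∈ Finset.range k, a i * a j * (if i = j then 0 else 2 * X) =
      2 * X * (a i * (∑ j ∈ Finset.range k, a j)) - 2 * X * a i ^ 2 := by
    intro i hi
    have h2 : ∀ j ∈ Finset.range k, a i * a j * (if i = j then 0 else 2 * X) =
        2 * X * (a i * a j) - (if i = j then 2 * X * (a i * a j) else 0) := by
      intro j _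
      split_ifs <;> ring
    rw [Finset.sum_congr rfl h2, Finset.sum_sub_distrib, Finset.sum_ite_eq, if_pos hi,
      ← Finset.mul_sum, ← Finset.mul_sum]
    ring
  rw [Finset.sum_congr rfl h1, Finset.sum_sub_distrib, ha]
  simp only [mul_zero, Finset.sum_const_zero, zero_sub]
  rw [← Finset.mul_sum]
  ring

/-- zero-sum linear combinations of block sums -/
theorem wn (hRH : RiemannHypothesis) (δ : ℝ) (hδ : 0 < δ) (k : ℕ) :
    ∃ L0 : ℕ, 8 ≤ L0 ∧ ∀ L : ℕ, L0 ≤ L → ∃ ε : ℝ, 0 < ε ∧ ∃ N0 : ℕ, ∀ N : ℕ, N0 ≤ N →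
      ∀ σ : ℕ → ℝ, Sg σ → ε * N ≤ EN σ ε N ∨ ∀ a : ℕ → ℝ, (∀ i, |a i| ≤ 1) →
        ∑ i ∈ Finset.range k, a i = 0 →
        |∑ n ∈ Finset.Icc 1 N, (∑ i ∈ Finset.range k, a i * BB σ L (n + i * L)) ^ 2 -
          (∑ i ∈ Finset.range k, a i ^ 2) * (L * N)| ≤ δ * (L * N) := by
  set d : ℝ := min 1 (δ / (k + 1) ^ 2) with hd
  have hd0 : 0 < d := lt_min one_pos (by positivity)
  have hd1 : d ≤ 1 := min_le_left _ _
  have hd2 : d * (k + 1) ^ 2 ≤ δ := by
    have := min_le_right 1 (δ / ((k : ℝ) + 1) ^ 2)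
    rw [← hd, le_div_iff₀ (by positivity)] at this
    exact this
  obtain ⟨L0, hL0, h⟩ := allr hRH d hd0 hd1 k
  refine ⟨L0, hL0, fun L hL => ?_⟩
  have hL8 : (8 : ℝ) ≤ L := by exact_mod_cast hL0.trans hL
  have hLp : (0 : ℝ) < L := by linarith
  obtain ⟨ε, hε, N0, h0⟩ := h L hL
  obtain ⟨N1, hN1⟩ : ∃ N1 : ℕ, 4 * k * (L : ℝ) ^ 2 / d ≤ N1 := ⟨_, Nat.le_ceil _⟩
  refine ⟨ε, hε, max N0 N1, fun N hN σ hσ => ?_⟩
  rcases h0 N ((le_max_left _ _).trans hN) σ hσ with g | g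
  · exact Or.inl g
  right
  intro a ha1 ha0
  have hNN1 : (N1 : ℝ) ≤ N := by exact_mod_cast (le_max_right _ _).trans hN
  have hN2 : 4 * k * (L : ℝ) ^ 2 ≤ d * N := by
    have := hN1.trans hNN1
    rw [div_le_iff₀ hd0] at this
    linarith
  set X : ℝ := L * N with hX
  have hX0 : 0 ≤ X := by positivity
  -- the pairs
  have hpair : ∀ i j : ℕ, i < j → j < k → |MM σ L N i j - 2 * X| ≤ 2 * (d * X) := by
    intro i j hij hjk
    have h1 := g (j - i) (by omega) (by omega)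
    have h2 := MM_lt hσ L N i j hij
    have h3 : (i : ℝ) * L * (4 * (L : ℝ) ^ 2) ≤ d * X := by
      have hik : (i : ℝ) ≤ k := by exact_mod_cast (hij.trans hjk).le
      have h4 : (i : ℝ) * L * (4 * (L : ℝ) ^ 2) ≤ k * L * (4 * (L : ℝ) ^ 2) := by
        apply mul_le_mul_of_nonneg_right _ (by positivity)
        exact mul_le_mul_of_nonneg_right hik hLp.le
      have h5 := mul_le_mul_of_nonneg_right hN2 hLp.le
      rw [hX]
      linarith
    have e1 : 2 * (L : ℝ) * N = 2 * X := by rw [hX]; ring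
    have e2 : d * L * N = d * X := by rw [hX]; ring
    rw [e1, e2] at h1
    obtain ⟨p1, p2⟩ := abs_le.1 h1
    obtain ⟨p3, p4⟩ := abs_le.1 h2
    rw [abs_le]
    constructor <;> linarith
  have hall : ∀ i ∈ Finset.range k, ∀ j ∈ Finset.range k,
      |MM σ L N i j - (if i = j then 0 else 2 * X)| ≤ 2 * (d * X) := by
    intro i hi j hj
    rw [Finset.mem_range] at hi hj
    rcases lt_trichotomy i j with h1 | h1 | h1
    · rw [if_neg (by omega)]
      exact hpair i j h1 hj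
    · rw [if_pos h1, h1, MM_self]
      simp only [sub_self, abs_zero]
      positivity
    · rw [if_neg (by omega), MM_symm]
      exact hpair j i h1 hi
  have e1 : ∑ n ∈ Finset.Icc 1 N, (∑ i ∈ Finset.range k, a i * BB σ L (n + i * L)) ^ 2 =
      -(1 / 2) * ∑ i ∈ Finset.range k, ∑ j ∈ Finset.range k, a i * a j * MM σ L N i j := by
    have h1 : ∀ n ∈ Finset.Icc 1 N, (∑ i ∈ Finset.range k, a i * BB σ L (n + i * L)) ^ 2 =
        -(1 / 2) * ∑ i ∈ Finset.range k, ∑ j ∈ Finset.range k,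
          a i * a j * (BB σ L (n + i * L) - BB σ L (n + j * L)) ^ 2 := fun n _ =>
      sq_id k a (fun i => BB σ L (n + i * L)) ha0
    rw [Finset.sum_congr rfl h1, ← Finset.mul_sum, Finset.sum_comm]
    congr 1
    refine Finset.sum_congr rfl fun i _ => ?_
    rw [Finset.sum_comm]
    refine Finset.sum_congr rfl fun j _ => ?_
    unfold MM
    rw [Finset.mul_sum]
  rw [e1, sum_id k a ha0 X, ← mul_sub, ← Finset.sum_sub_distrib]
  have e2 : ∑ i ∈ Finset.range k, (∑ j ∈ Finset.range k, a i * a j * MM σ L N i j -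
      ∑ j ∈ Finset.range k, a i * a j * (if i = j then 0 else 2 * X)) =
      ∑ i ∈ Finset.range k, ∑ j ∈ Finset.range k,
        a i * a j * (MM σ L N i j - (if i = j then 0 else 2 * X)) := by
    refine Finset.sum_congr rfl fun i _ => ?_
    rw [← Finset.sum_sub_distrib]
    exact Finset.sum_congr rfl fun j _ => by ring
  rw [e2, abs_mul]
  have h3 : |∑ i ∈ Finset.range k, ∑ j ∈ Finset.range k,
        a i * a j * (MM σ L N i j - (if i = j then 0 else 2 * X))| ≤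
      k * (k * (2 * (d * X))) := by
    have h4 : ∀ i ∈ Finset.range k, |∑ j ∈ Finset.range k,
        a i * a j * (MM σ L N i j - (if i = j then 0 else 2 * X))| ≤ k * (2 * (d * X)) := by
      intro i hi
      have h5 : ∀ j ∈ Finset.range k,
          |a i * a j * (MM σ L N i j - (if i = j then 0 else 2 * X))| ≤ 2 * (d * X) := by
        intro j hj
        rw [abs_mul, abs_mul]
        have h6 : |a i| * |a j| ≤ 1 := mul_le_one₀ (ha1 i) (abs_nonneg _) (ha1 j)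
        have h7 := hall i hi j hj
        have h8 := mul_le_mul h6 h7 (abs_nonneg _) zero_le_one
        linarith
      refine (Finset.abs_sum_le_sum_abs _ _).trans ((Finset.sum_le_sum h5).trans ?_)
      rw [Finset.sum_const, Finset.card_range, nsmul_eq_mul]
    refine (Finset.abs_sum_le_sum_abs _ _).trans ((Finset.sum_le_sum h4).trans ?_)
    rw [Finset.sum_const, Finset.card_range, nsmul_eq_mul]
  have h4 : |(-(1 / 2) : ℝ)| = 1 / 2 := by norm_num
  rw [h4]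
  have h5 : (k : ℝ) ^ 2 * d ≤ δ := by
    have hk0 : (0 : ℝ) ≤ k := Nat.cast_nonneg k
    have : (k : ℝ) ^ 2 * d ≤ (k + 1) ^ 2 * d := by
      apply mul_le_mul_of_nonneg_right _ hd0.le
      apply pow_le_pow_left₀ hk0
      linarith
    linarith
  have h6 := mul_le_mul_of_nonneg_right h5 hX0
  have h7 := mul_le_mul_of_nonneg_left h3 (by norm_num : (0 : ℝ) ≤ 1 / 2)
  refine h7.trans ?_
  linarith

end Pool.Agent.TH800.AI
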